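import Mathlib
import Pool.Agent.Results.MP_75ff39_co.InfiniteAntichain

/-!
Graphs assembled from cores (49 vertices, seven ports) and neutral vertices (three slots) by an
involution on the set of darts.
-/

open Finset

namespace Pool.Agent.W831.CP

open Pool.Agent.Results.MP_75ff39_co.InfiniteAntichain
open MultiGraph

/-- darts: the seven ports of every core and the three slots of every neutral vertex -/
abbrev Da (C N : Type) := (C × Fin 7) ⊕ (N × Fin 3)

/-- vertices -/
abbrev Ve (C N : Type) := (C × CV) ⊕ N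

/-- the vertex at which a dart is attached -/
def dv {C N : Type} : Da C N → Ve C N
  | Sum.inl (c, s) => Sum.inl (c, (s, 0))
  | Sum.inr (v, _) => Sum.inr v

/-- a graph given by an involution on darts -/
structure DG where
  C : Type
  N : Type
  [fC : Fintype C]
  [fN : Fintype N]
  [dC : DecidableEq C]
  [dN : DecidableEq N]
  inv : Da C N → Da C N
  inv_inv : ∀ d, inv (inv d) = d
  core_ne : ∀ c s t, inv (Sum.inl (c, s)) ≠ Sum.inl (c, t)
  neut_ne : ∀ v j k, inv (Sum.inr (v, j)) ≠ Sum.inr (v, k)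

attribute [instance] DG.fC DG.fN DG.dC DG.dN

namespace DG

variable (G : DG)

lemma dv_ne (d : Da G.C G.N) : dv (G.inv d) ≠ dv d := by
  rcases d with ⟨c, s⟩ | ⟨v, j⟩
  · intro h
    rcases hd : G.inv (Sum.inl (c, s)) with ⟨c', s'⟩ | ⟨v', j'⟩
    · rw [hd] at h
      simp only [dv, Sum.inl.injEq, Prod.mk.injEq] at h
      obtain ⟨rfl, _⟩ := h
      exact G.core_ne _ _ _ hd
    · rw [hd] at h
      simp [dv] at h
  · intro h
    rcases hd : G.inv (Sum.inr (v, j)) with ⟨c', s'⟩ | ⟨v', j'⟩
    · rw [hd] at h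
      simp [dv] at h
    · rw [hd] at h
      simp only [dv, Sum.inr.injEq] at h
      subst h
      exact G.neut_ne _ _ _ hd

lemma inv_ne (d : Da G.C G.N) : G.inv d ≠ d := fun h => G.dv_ne d (by rw [h])

/-- exactly one of `d` and `inv d` is marked -/
noncomputable def mark (d : Da G.C G.N) : Bool :=
  decide (Fintype.equivFin (Da G.C G.N) d < Fintype.equivFin (Da G.C G.N) (G.inv d))

lemma mark_inv (d : Da G.C G.N) : G.mark (G.inv d) = !G.mark d := by
  unfold mark
  rw [G.inv_inv]
  have hne : Fintype.equivFin (Da G.C G.N) d ≠ Fintype.equivFin (Da G.C G.N) (G.inv d) :=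
    fun h => G.inv_ne d ((Fintype.equivFin _).injective h).symm
  rcases lt_or_gt_of_ne hne with h | h
  · simp [h, not_lt.2 h.le]
  · simp [h, not_lt.2 h.le]

/-- edges: internal edges of the cores and marked darts -/
abbrev Ed := (G.C × CE) ⊕ {d : Da G.C G.N // G.mark d = true}

def esrc : G.Ed → Ve G.C G.N
  | Sum.inl (c, e) => Sum.inl (c, csrc e)
  | Sum.inr d => dv d.1

def etgt : G.Ed → Ve G.C G.N
  | Sum.inl (c, e) => Sum.inl (c, ctgt e)
  | Sum.inr d => dv (G.inv d.1)

/-- the multigraph -/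
noncomputable def graph : MultiGraph where
  V := Ve G.C G.N
  E := G.Ed
  src := G.esrc
  tgt := G.etgt
  loopless := by
    rintro (⟨c, e⟩ | d)
    · intro h
      simp only [esrc, etgt, Sum.inl.injEq, Prod.mk.injEq, true_and] at h
      exact csrc_ne_ctgt e h
    · exact fun h => G.dv_ne d.1 h.symm

/-- the edge of a dart -/
noncomputable def ed (d : Da G.C G.N) : G.Ed :=
  if h : G.mark d = true then Sum.inr ⟨d, h⟩
  else Sum.inr ⟨G.inv d, by rw [G.mark_inv]; simpa using h⟩

lemma ed_mark (d : {d : Da G.C G.N // G.mark d = true}) : G.ed d.1 = Sum.inr d := by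
  unfold ed
  rw [dif_pos d.2]

lemma ed_inv (d : Da G.C G.N) : G.ed (G.inv d) = G.ed d := by
  unfold ed
  by_cases h : G.mark d = true
  · have h' : ¬ G.mark (G.inv d) = true := by rw [G.mark_inv]; simp [h]
    rw [dif_pos h, dif_neg h']
    simp only [Sum.inr.injEq, Subtype.mk.injEq]
    exact G.inv_inv d
  · have h' : G.mark (G.inv d) = true := by rw [G.mark_inv]; simpa using h
    rw [dif_neg h, dif_pos h']

lemma ed_eq {d d' : Da G.C G.N} : G.ed d = G.ed d' ↔ d' = d ∨ d' = G.inv d := by
  constructor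
  · intro h
    unfold ed at h
    by_cases h1 : G.mark d = true <;> by_cases h2 : G.mark d' = true
    · rw [dif_pos h1, dif_pos h2] at h
      simp only [Sum.inr.injEq, Subtype.mk.injEq] at h
      exact Or.inl h.symm
    · rw [dif_pos h1, dif_neg h2] at h
      simp only [Sum.inr.injEq, Subtype.mk.injEq] at h
      right
      rw [h, G.inv_inv]
    · rw [dif_neg h1, dif_pos h2] at h
      simp only [Sum.inr.injEq, Subtype.mk.injEq] at h
      exact Or.inr h.symm
    · rw [dif_neg h1, dif_neg h2] at h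
      simp only [Sum.inr.injEq, Subtype.mk.injEq] at h
      left
      have := congrArg G.inv h
      rw [G.inv_inv, G.inv_inv] at this
      exact this.symm
  · rintro (rfl | rfl)
    · rfl
    · rw [G.ed_inv]

lemma ed_ne_inl (d : Da G.C G.N) (x : G.C × CE) : G.ed d ≠ Sum.inl x := by
  unfold ed
  split_ifs <;> simp

/-- incidence -/
def DInc (v : Ve G.C G.N) (e : G.Ed) : Prop := G.esrc e = v ∨ G.etgt e = v

noncomputable instance (v : Ve G.C G.N) (e : G.Ed) : Decidable (G.DInc v e) := by
  unfold DInc; infer_instance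

lemma inc_iff' (v : Ve G.C G.N) (e : G.Ed) : G.graph.Inc v e ↔ G.DInc v e := Iff.rfl

lemma inc_ed (v : Ve G.C G.N) (d : Da G.C G.N) :
    G.DInc v (G.ed d) ↔ v = dv d ∨ v = dv (G.inv d) := by
  unfold ed
  by_cases h : G.mark d = true
  · rw [dif_pos h]
    unfold DInc esrc etgt
    simp only
    constructor <;> rintro (h | h)
    · exact Or.inl h.symm
    · exact Or.inr h.symm
    · exact Or.inl h.symm
    · exact Or.inr h.symm
  · rw [dif_neg h]
    unfold DInc esrc etgt
    simp only
    rw [G.inv_inv]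
    constructor <;> rintro (h | h)
    · exact Or.inr h.symm
    · exact Or.inl h.symm
    · exact Or.inr h.symm
    · exact Or.inl h.symm

lemma inc_ed_self (d : Da G.C G.N) : G.DInc (dv d) (G.ed d) := (G.inc_ed _ _).2 (Or.inl rfl)

/-- every edge that is not internal is the edge of a dart -/
lemma exists_ed (e : {d : Da G.C G.N // G.mark d = true}) (v : Ve G.C G.N)
    (h : G.DInc v (Sum.inr e)) : ∃ d, dv d = v ∧ G.ed d = Sum.inr e := by
  rw [← G.ed_mark, G.inc_ed] at h
  rcases h with h | h
  · exact ⟨e.1, h.symm, G.ed_mark e⟩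
  · exact ⟨G.inv e.1, h.symm, by rw [G.ed_inv, G.ed_mark]⟩

lemma inc_inl_inl (c c' : G.C) (x : CV) (e : CE) :
    G.DInc (Sum.inl (c, x)) (Sum.inl (c', e)) ↔ c = c' ∧ CInc x e := by
  unfold DInc CInc esrc etgt
  simp only [Sum.inl.injEq, Prod.mk.injEq]
  constructor
  · rintro (⟨h, h'⟩ | ⟨h, h'⟩)
    · exact ⟨h.symm, Or.inl h'⟩
    · exact ⟨h.symm, Or.inr h'⟩
  · rintro ⟨h, h' | h'⟩
    · exact Or.inl ⟨h.symm, h'⟩
    · exact Or.inr ⟨h.symm, h'⟩

lemma inc_inr_inl (v : G.N) (x : G.C × CE) : ¬ G.DInc (Sum.inr v) (Sum.inl x) := by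
  unfold DInc esrc etgt
  simp

/-- incidence of a core vertex with an edge that is not internal -/
lemma inc_inl_inr (c : G.C) (x : CV) (e : {d : Da G.C G.N // G.mark d = true}) :
    G.DInc (Sum.inl (c, x)) (Sum.inr e) ↔ x.2 = 0 ∧ Sum.inr e = G.ed (Sum.inl (c, x.1)) := by
  constructor
  · intro h
    obtain ⟨d, hd, hde⟩ := G.exists_ed e _ h
    rcases d with ⟨c', s⟩ | ⟨v, j⟩
    · simp only [dv, Sum.inl.injEq, Prod.mk.injEq] at hd
      obtain ⟨rfl, rfl⟩ := hd
      exact ⟨rfl, hde.symm⟩
    · simp [dv] at hd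
  · rintro ⟨h1, h2⟩
    rw [h2]
    have h3 : (Sum.inl (c, x) : Ve G.C G.N) = dv (Sum.inl (c, x.1)) := by
      simp only [dv, Sum.inl.injEq, Prod.mk.injEq, true_and]
      exact Prod.ext rfl h1
    rw [h3]
    exact G.inc_ed_self _

lemma inc_inr_inr (v : G.N) (e : {d : Da G.C G.N // G.mark d = true}) :
    G.DInc (Sum.inr v) (Sum.inr e) ↔ ∃ j, Sum.inr e = G.ed (Sum.inr (v, j)) := by
  constructor
  · intro h
    obtain ⟨d, hd, hde⟩ := G.exists_ed e _ h
    rcases d with ⟨c', s⟩ | ⟨v', j⟩
    · simp [dv] at hd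
    · simp only [dv, Sum.inr.injEq] at hd
      subst hd
      exact ⟨j, hde.symm⟩
  · rintro ⟨j, h⟩
    rw [h]
    exact G.inc_ed_self (Sum.inr (v, j))

lemma ed_port_inj (c : G.C) (s t : Fin 7) (h : G.ed (Sum.inl (c, s)) = G.ed (Sum.inl (c, t))) :
    s = t := by
  rw [G.ed_eq] at h
  rcases h with h | h
  · simp only [Sum.inl.injEq, Prod.mk.injEq, true_and] at h
    exact h.symm
  · exact absurd h.symm (G.core_ne c s t)

lemma ed_slot_inj (v : G.N) (j k : Fin 3) (h : G.ed (Sum.inr (v, j)) = G.ed (Sum.inr (v, k))) :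
    j = k := by
  rw [G.ed_eq] at h
  rcases h with h | h
  · simp only [Sum.inr.injEq, Prod.mk.injEq, true_and] at h
    exact h.symm
  · exact absurd h.symm (G.neut_ne v j k)

lemma cubic_inl (c : G.C) (x : CV) : #{e : G.Ed | G.DInc (Sum.inl (c, x)) e} = 3 := by
  classical
  have h : ({e : G.Ed | G.DInc (Sum.inl (c, x)) e} : Finset G.Ed) =
      (({e | CInc x e} : Finset CE).map ⟨fun e => Sum.inl (c, e), by
        intro a b h; simpa using h⟩) ∪
      (if x.2 = 0 then {G.ed (Sum.inl (c, x.1))} else ∅) := by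
    ext e
    simp only [Finset.mem_filter, Finset.mem_univ, true_and, Finset.mem_union, Finset.mem_map,
      Function.Embedding.coeFn_mk]
    match e with
    | Sum.inl (c', e) =>
      rw [inc_inl_inl]
      constructor
      · rintro ⟨rfl, h⟩
        left
        exact ⟨e, h, rfl⟩
      · rintro (⟨e', h, h'⟩ | h)
        · simp only [Sum.inl.injEq, Prod.mk.injEq] at h'
          obtain ⟨rfl, rfl⟩ := h'
          exact ⟨rfl, h⟩
        · split_ifs at h
          · rw [Finset.mem_singleton] at h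
            exact absurd h.symm (G.ed_ne_inl _ _)
          · simp at h
    | Sum.inr d =>
      rw [inc_inl_inr]
      constructor
      · rintro ⟨h, h'⟩
        right
        rw [if_pos h, h']
        simp
      · rintro (⟨e', h, h'⟩ | h)
        · simp at h'
        · split_ifs at h with h0
          · rw [Finset.mem_singleton] at h
            exact ⟨h0, h⟩
          · simp at h
  rw [h, Finset.card_union_of_disjoint, Finset.card_map, stl_card]
  · split_ifs <;> simp
  · rw [Finset.disjoint_left]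
    intro e he he'
    simp only [Finset.mem_map, Function.Embedding.coeFn_mk] at he
    obtain ⟨a, _, rfl⟩ := he
    split_ifs at he'
    · rw [Finset.mem_singleton] at he'
      exact G.ed_ne_inl _ _ he'.symm
    · simp at he'

lemma cubic_inr (v : G.N) : #{e : G.Ed | G.DInc (Sum.inr v) e} = 3 := by
  classical
  have h : ({e : G.Ed | G.DInc (Sum.inr v) e} : Finset G.Ed) =
      (Finset.univ : Finset (Fin 3)).map ⟨fun j => G.ed (Sum.inr (v, j)), by
        intro a b h; exact G.ed_slot_inj v a b h⟩ := by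
    ext e
    simp only [Finset.mem_filter, Finset.mem_univ, true_and, Finset.mem_map,
      Function.Embedding.coeFn_mk]
    match e with
    | Sum.inl x =>
      constructor
      · intro h; exact absurd h (G.inc_inr_inl v x)
      · rintro ⟨j, h⟩; exact absurd h (G.ed_ne_inl _ _)
    | Sum.inr d =>
      rw [inc_inr_inr]
      constructor
      · rintro ⟨j, h⟩; exact ⟨j, h.symm⟩
      · rintro ⟨j, h⟩; exact ⟨j, h.symm⟩
  rw [h, Finset.card_map]
  simp

lemma card_inc (v : Ve G.C G.N) : #{e : G.Ed | G.DInc v e} = 3 := by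
  rcases v with ⟨c, x⟩ | v
  · exact G.cubic_inl c x
  · exact G.cubic_inr v

lemma cubic : G.graph.Cubic := fun v => G.card_inc v

/-- the number of cut edges: internal edges and darts that are true with false opposite dart -/
lemma cut_eq_darts (U : Ve G.C G.N → Bool) :
    #{e : G.Ed | U (G.esrc e) ≠ U (G.etgt e)} =
      (∑ c : G.C, ∑ e : CE, dd (U (Sum.inl (c, csrc e))) (U (Sum.inl (c, ctgt e)))) +
        ∑ d : Da G.C G.N, (U (dv d) && !U (dv (G.inv d))).toNat := by
  classical
  rw [Finset.card_filter]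
  have h1 : ∀ e : G.Ed, (if U (G.esrc e) ≠ U (G.etgt e) then 1 else 0) =
      dd (U (G.esrc e)) (U (G.etgt e)) := by
    intro e
    cases U (G.esrc e) <;> cases U (G.etgt e) <;> rfl
  simp_rw [h1]
  rw [Fintype.sum_sum_type, Fintype.sum_prod_type]
  congr 1
  have h2 : ∀ d : {d : Da G.C G.N // G.mark d = true},
      dd (U (G.esrc (Sum.inr d))) (U (G.etgt (Sum.inr d))) =
        (U (dv d.1) && !U (dv (G.inv d.1))).toNat + (U (dv (G.inv d.1)) && !U (dv d.1)).toNat := by
    intro d
    show dd (U (dv d.1)) (U (dv (G.inv d.1))) = _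
    cases U (dv d.1) <;> cases U (dv (G.inv d.1)) <;> rfl
  simp_rw [h2]
  set φ : Da G.C G.N → ℕ := fun d => (U (dv d) && !U (dv (G.inv d))).toNat with hφ
  have h3 : ∀ d, (U (dv (G.inv d)) && !U (dv d)).toNat = φ (G.inv d) := by
    intro d
    simp only [hφ]
    rw [G.inv_inv]
  simp_rw [h3]
  rw [Finset.sum_add_distrib]
  have h4 : ∑ d : {d : Da G.C G.N // G.mark d = true}, φ d.1 =
      ∑ d : Da G.C G.N, if G.mark d = true then φ d else 0 := by
    rw [← Finset.sum_filter]
    rw [Finset.sum_subtype (s := ({d | G.mark d = true} : Finset (Da G.C G.N)))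
      (p := fun d => G.mark d = true) (by simp)]
  have h5 : ∑ d : {d : Da G.C G.N // G.mark d = true}, φ (G.inv d.1) =
      ∑ d : Da G.C G.N, if G.mark d = true then 0 else φ d := by
    have h6 : ∑ d : {d : Da G.C G.N // G.mark d = true}, φ (G.inv d.1) =
        ∑ d : Da G.C G.N, if G.mark d = true then φ (G.inv d) else 0 := by
      rw [← Finset.sum_filter]
      rw [Finset.sum_subtype (s := ({d | G.mark d = true} : Finset (Da G.C G.N)))
        (p := fun d => G.mark d = true) (by simp) (f := fun d => φ (G.inv d))]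
    rw [h6]
    let σ : Equiv.Perm (Da G.C G.N) := ⟨G.inv, G.inv, G.inv_inv, G.inv_inv⟩
    rw [← Equiv.sum_comp σ]
    apply Finset.sum_congr rfl
    intro d _
    show (if G.mark (G.inv d) = true then φ (G.inv (G.inv d)) else 0) = _
    rw [G.mark_inv, G.inv_inv]
    cases G.mark d <;> simp
  rw [h4, h5, ← Finset.sum_add_distrib]
  apply Finset.sum_congr rfl
  intro d _
  split_ifs <;> simp

end DG

end Pool.Agent.W831.CP
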