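import Mathlib
import Pool.Agent.W831.CP.Dart

/-!
Rigidity of the cores in a graph given by darts.
-/

open Finset

namespace Pool.Agent.W831.CP

open Pool.Agent.Results.MP_75ff39_co.InfiniteAntichain
open MultiGraph

namespace DG

variable {G H : DG}

/-- a map of edges together with a map of vertices that is injective on the stars -/
structure SMap (G H : DG) (f : G.Ed → H.Ed) (φ : Ve G.C G.N → Ve H.C H.N) : Prop where
  inc : ∀ v e, G.DInc v e → H.DInc (φ v) (f e)
  inj : ∀ v e e', G.DInc v e → G.DInc v e' → f e = f e' → e = e'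

/-- a colouring of the darts that is `0` on all ports and proper at the neutral vertices -/
structure NCol (H : DG) (χ : Da H.C H.N → Fin 3) : Prop where
  inv : ∀ d, χ (H.inv d) = χ d
  core : ∀ c s, χ (Sum.inl (c, s)) = 0
  neut : ∀ v j k, χ (Sum.inr (v, j)) = χ (Sum.inr (v, k)) → j = k

/-- colouring of the edges which is proper away from the vertices `(j, y j)` -/
noncomputable def psi (χ : Da H.C H.N → Fin 3) (y : H.C → CV) (e : H.Ed) : Fin 3 :=
  match e with
  | Sum.inl (j, e) => col (y j) e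
  | Sum.inr d => χ d.1

lemma psi_ed {χ : Da H.C H.N → Fin 3} (hχ : NCol H χ) (y : H.C → CV) (d : Da H.C H.N) :
    psi χ y (H.ed d) = χ d := by
  unfold ed
  by_cases h : H.mark d = true
  · rw [dif_pos h]; rfl
  · rw [dif_neg h]
    exact hχ.inv d

lemma proper_core {χ : Da H.C H.N → Fin 3} (hχ : NCol H χ) (y : H.C → CV) (j : H.C) (z : CV)
    (hv : z ≠ y j) (e e' : H.Ed)
    (he : H.DInc (Sum.inl (j, z)) e) (he' : H.DInc (Sum.inl (j, z)) e') (hne : e ≠ e') :
    psi χ y e ≠ psi χ y e' := by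
  rcases e with ⟨j1, e⟩ | c <;> rcases e' with ⟨j2, e'⟩ | c'
  · rw [inc_inl_inl] at he he'
    obtain ⟨rfl, he⟩ := he
    obtain ⟨rfl, he'⟩ := he'
    rw [stl_spec] at he he'
    intro h
    exact hne (by rw [col_inj (y j) z hv e he e' he' h])
  · rw [inc_inl_inl] at he
    obtain ⟨rfl, he⟩ := he
    rw [inc_inl_inr] at he'
    rw [stl_spec] at he
    rw [he'.2, psi_ed hχ, hχ.core]
    exact col_ne (y j) z hv he'.1 e he
  · rw [inc_inl_inl] at he'
    obtain ⟨rfl, he'⟩ := he'
    rw [inc_inl_inr] at he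
    rw [stl_spec] at he'
    rw [he.2, psi_ed hχ, hχ.core]
    exact (col_ne (y j) z hv he.1 e' he').symm
  · exfalso
    rw [inc_inl_inr] at he he'
    exact hne (by rw [he.2, he'.2])

lemma proper_neut {χ : Da H.C H.N → Fin 3} (hχ : NCol H χ) (y : H.C → CV) (v : H.N)
    (e e' : H.Ed) (he : H.DInc (Sum.inr v) e) (he' : H.DInc (Sum.inr v) e') (hne : e ≠ e') :
    psi χ y e ≠ psi χ y e' := by
  rcases e with x | c
  · exact absurd he (H.inc_inr_inl v x)
  rcases e' with x' | c'
  · exact absurd he' (H.inc_inr_inl v x')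
  rw [inc_inr_inr] at he he'
  obtain ⟨j, hj⟩ := he
  obtain ⟨k, hk⟩ := he'
  rw [hj, hk, psi_ed hχ, psi_ed hχ]
  intro h
  have := hχ.neut v j k h
  subst this
  exact hne (by rw [hj, hk])

lemma core_map {χ : Da H.C H.N → Fin 3} (hχ : NCol H χ) {f : G.Ed → H.Ed}
    {φ : Ve G.C G.N → Ve H.C H.N} (h : SMap G H f φ) (i : G.C) :
    ∃ j : H.C, ∃ g : CV → CV, Function.Injective g ∧ ∀ x, φ (Sum.inl (i, x)) = Sum.inl (j, g x) := by
  classical
  set W : Finset (Ve H.C H.N) := Finset.univ.image (fun x : CV => φ (Sum.inl (i, x))) with hW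
  have hWm : ∀ x : CV, φ (Sum.inl (i, x)) ∈ W := fun x => Finset.mem_image_of_mem _ (Finset.mem_univ x)
  have hWc : #W ≤ #(Finset.univ : Finset CV) := Finset.card_image_le
  by_cases hcase : ∀ j : H.C, ∃ y : CV, (Sum.inl (j, y) : Ve H.C H.N) ∉ W
  · exfalso
    choose y hy using hcase
    have key : ∀ (x : CV) (e e' : G.Ed), G.DInc (Sum.inl (i, x)) e → G.DInc (Sum.inl (i, x)) e' →
        e ≠ e' → psi χ y (f e) ≠ psi χ y (f e') := by
      intro x e e' he he' hne
      have h1 := h.inc _ _ he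
      have h2 := h.inc _ _ he'
      have h3 : f e ≠ f e' := fun h' => hne (h.inj _ _ _ he he' h')
      rcases hv : φ (Sum.inl (i, x)) with ⟨j, z⟩ | v
      · rw [hv] at h1 h2
        refine proper_core hχ y j z ?_ _ _ h1 h2 h3
        intro hz
        apply hy j
        rw [← hz, ← hv]
        exact hWm x
      · rw [hv] at h1 h2
        exact proper_neut hχ y v _ _ h1 h2 h3
    refine uncolourable (fun e => psi χ y (f (Sum.inl (i, e))))
      (fun s => psi χ y (f (G.ed (Sum.inl (i, s))))) ?_ ?_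
    · intro x e he e' he' hne
      apply key x
      · rw [inc_inl_inl, stl_spec]; exact ⟨rfl, he⟩
      · rw [inc_inl_inl, stl_spec]; exact ⟨rfl, he'⟩
      · intro h'
        exact hne (congrArg Prod.snd (Sum.inl.inj h'))
    · intro s e he
      apply key (s, 0)
      · rw [inc_inl_inl, stl_spec]; exact ⟨rfl, he⟩
      · exact G.inc_ed_self (Sum.inl (i, s))
      · exact (G.ed_ne_inl _ _).symm
  · push Not at hcase
    obtain ⟨j, hj⟩ := hcase
    have hinjJ : Function.Injective (fun y : CV => (Sum.inl (j, y) : Ve H.C H.N)) :=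
      fun a b hab => by simpa using hab
    have hJ : (Finset.univ.image (fun y : CV => (Sum.inl (j, y) : Ve H.C H.N))) = W := by
      apply Finset.eq_of_subset_of_card_le
      · intro v hv
        rw [Finset.mem_image] at hv
        obtain ⟨y, _, rfl⟩ := hv
        exact hj y
      · rw [Finset.card_image_of_injective _ hinjJ]
        exact hWc
    have h1 : ∀ x, ∃ z, φ (Sum.inl (i, x)) = Sum.inl (j, z) := by
      intro x
      have := hWm x
      rw [← hJ, Finset.mem_image] at this
      obtain ⟨y, _, hy⟩ := this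
      exact ⟨y, hy.symm⟩
    choose g hg using h1
    refine ⟨j, g, ?_, hg⟩
    have hc : #(Finset.univ.image (fun x : CV => φ (Sum.inl (i, x)))) =
        #(Finset.univ : Finset CV) := by
      rw [← hW, ← hJ, Finset.card_image_of_injective _ hinjJ]
    have hinj := Finset.card_image_iff.1 hc
    intro a b hab
    apply hinj (Finset.mem_coe.2 (Finset.mem_univ a)) (Finset.mem_coe.2 (Finset.mem_univ b))
    show φ (Sum.inl (i, a)) = φ (Sum.inl (i, b))
    rw [hg, hg, hab]

/-- internal edges go to internal edges -/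
lemma map_internal {f : G.Ed → H.Ed} {φ : Ve G.C G.N → Ve H.C H.N} (h : SMap G H f φ)
    {i : G.C} {j : H.C} {g : CV → CV} (hg : Function.Injective g)
    (hφ : ∀ x, φ (Sum.inl (i, x)) = Sum.inl (j, g x)) (e : CE) :
    ∃ e' : CE, f (Sum.inl (i, e)) = Sum.inl (j, e') ∧ ∀ x, CInc x e → CInc (g x) e' := by
  have h1 : ∀ x, CInc x e → H.DInc (Sum.inl (j, g x)) (f (Sum.inl (i, e))) := by
    intro x hx
    rw [← hφ]
    apply h.inc
    rw [inc_inl_inl]; exact ⟨rfl, hx⟩
  have hs : H.DInc (Sum.inl (j, g (csrc e))) (f (Sum.inl (i, e))) := h1 _ (Or.inl rfl)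
  have ht : H.DInc (Sum.inl (j, g (ctgt e))) (f (Sum.inl (i, e))) := h1 _ (Or.inr rfl)
  have hne : g (csrc e) ≠ g (ctgt e) := fun h' => csrc_ne_ctgt e (hg h')
  match hf : f (Sum.inl (i, e)) with
  | Sum.inl (j', e') =>
    rw [hf, inc_inl_inl] at hs
    obtain ⟨rfl, hs⟩ := hs
    refine ⟨e', rfl, ?_⟩
    intro x hx
    have := h1 x hx
    rw [hf, inc_inl_inl] at this
    exact this.2
  | Sum.inr c =>
    exfalso
    rw [hf, inc_inl_inr] at hs ht
    apply hne
    have : (g (csrc e)).1 = (g (ctgt e)).1 := H.ed_port_inj j _ _ (by rw [← hs.2, ht.2])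
    exact Prod.ext this (by rw [hs.1, ht.1])

/-- ports go to ports -/
lemma map_port {f : G.Ed → H.Ed} {φ : Ve G.C G.N → Ve H.C H.N} (h : SMap G H f φ)
    {i : G.C} {j : H.C} {g : CV → CV} (hg : Function.Injective g)
    (hφ : ∀ x, φ (Sum.inl (i, x)) = Sum.inl (j, g x)) (s : Fin 7) : (g (s, 0)).2 = 0 := by
  classical
  -- inner vertices go to inner vertices
  have h1 : ∀ x : CV, x.2 ≠ 0 → (g x).2 ≠ 0 := by
    intro x hx hgx
    have hc : #{e | CInc x e} ≤ #{e' | CInc (g x) e'} := by
      choose F hF1 hF2 using fun e => map_internal h hg hφ e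
      apply Finset.card_le_card_of_injOn F
      · intro e he
        simp only [Finset.coe_filter, Finset.mem_univ, true_and, Set.mem_setOf_eq] at he ⊢
        exact hF2 e x he
      · intro e he e' he' hee
        simp only [Finset.coe_filter, Finset.mem_univ, true_and, Set.mem_setOf_eq] at he he'
        have h3 : f (Sum.inl (i, e)) = f (Sum.inl (i, e')) := by rw [hF1, hF1, hee]
        have h4 := h.inj (Sum.inl (i, x)) _ _ (by rw [inc_inl_inl]; exact ⟨rfl, he⟩)
          (by rw [inc_inl_inl]; exact ⟨rfl, he'⟩) h3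
        simpa using h4
    rw [stl_card, stl_card, if_neg hx, if_pos hgx] at hc
    omega
  by_contra hne
  set A : Finset CV := {x | x.2 ≠ 0} with hA
  have h2 : A.image g = A := by
    apply Finset.eq_of_subset_of_card_le
    · intro y hy
      rw [Finset.mem_image] at hy
      obtain ⟨x, hx, rfl⟩ := hy
      simp only [hA, Finset.mem_filter, Finset.mem_univ, true_and] at hx ⊢
      exact h1 x hx
    · rw [Finset.card_image_of_injective _ hg]
  have h3 : g (s, 0) ∈ A.image g := by
    rw [h2]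
    simp only [hA, Finset.mem_filter, Finset.mem_univ, true_and]
    exact hne
  rw [Finset.mem_image] at h3
  obtain ⟨x, hx, hx'⟩ := h3
  have := hg hx'
  simp only [hA, Finset.mem_filter, Finset.mem_univ, true_and] at hx
  rw [this] at hx
  exact hx rfl

/-- the edge leaving a core at a port goes to the edge leaving the image core -/
lemma map_ce {f : G.Ed → H.Ed} {φ : Ve G.C G.N → Ve H.C H.N} (h : SMap G H f φ)
    {i : G.C} {j : H.C} {g : CV → CV} (hg : Function.Injective g)
    (hφ : ∀ x, φ (Sum.inl (i, x)) = Sum.inl (j, g x)) (s : Fin 7) :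
    f (G.ed (Sum.inl (i, s))) = H.ed (Sum.inl (j, (g (s, 0)).1)) := by
  classical
  have hp := map_port h hg hφ s
  have himg : ({e | G.DInc (Sum.inl (i, (s, 0))) e} : Finset G.Ed).image f =
      ({e | H.DInc (Sum.inl (j, g (s, 0))) e} : Finset H.Ed) := by
    apply Finset.eq_of_subset_of_card_le
    · intro y hy
      rw [Finset.mem_image] at hy
      obtain ⟨e, he, rfl⟩ := hy
      simp only [Finset.mem_filter, Finset.mem_univ, true_and] at he ⊢
      rw [← hφ]
      exact h.inc _ _ he
    · rw [card_inc, Finset.card_image_of_injOn, card_inc]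
      intro e he e' he' hee
      simp only [Finset.coe_filter, Finset.mem_univ, true_and, Set.mem_setOf_eq] at he he'
      exact h.inj _ _ _ he he' hee
  have hmem : H.ed (Sum.inl (j, (g (s, 0)).1)) ∈
      ({e | G.DInc (Sum.inl (i, (s, 0))) e} : Finset G.Ed).image f := by
    rw [himg]
    simp only [Finset.mem_filter, Finset.mem_univ, true_and]
    have h3 : (Sum.inl (j, g (s, 0)) : Ve H.C H.N) = dv (Sum.inl (j, (g (s, 0)).1)) := by
      simp only [dv, Sum.inl.injEq, Prod.mk.injEq, true_and]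
      exact Prod.ext rfl hp
    rw [h3]
    exact H.inc_ed_self _
  rw [Finset.mem_image] at hmem
  obtain ⟨e, he, hfe⟩ := hmem
  simp only [Finset.mem_filter, Finset.mem_univ, true_and] at he
  match e, he, hfe with
  | Sum.inl (i', e), he, hfe =>
    exfalso
    rw [inc_inl_inl] at he
    obtain ⟨rfl, he⟩ := he
    obtain ⟨e', he', _⟩ := map_internal h hg hφ e
    rw [he'] at hfe
    exact H.ed_ne_inl _ _ hfe.symm
  | Sum.inr c, he, hfe =>
    rw [inc_inl_inr] at he
    rw [← hfe, he.2]

lemma map_ladj {f : G.Ed → H.Ed} {φ : Ve G.C G.N → Ve H.C H.N} (h : SMap G H f φ)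
    {i : G.C} {j : H.C} {g : CV → CV} (hg : Function.Injective g)
    (hφ : ∀ x, φ (Sum.inl (i, x)) = Sum.inl (j, g x)) (s : Fin 7) :
    ladj (g (s, 0)).1 (g (s + 1, 0)).1 := by
  obtain ⟨⟨a1, a2⟩, ⟨b1, b2⟩, ⟨c1, c2⟩, ⟨d1, d2⟩, ⟨e1, e2⟩⟩ := walk_edges s
  have p0 := map_port h hg hφ s
  have p1 := map_port h hg hφ (s + 1)
  have step : ∀ (x y : CV) (e : CE), CInc x e → CInc y e →
      dT (g (s, 0)).1 (g y) ≤ dT (g (s, 0)).1 (g x) + 1 := by
    intro x y e hx hy
    obtain ⟨e', _, he'⟩ := map_internal h hg hφ e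
    exact dT_adj _ _ _ e' (he' x hx) (he' y hy)
  have h0 : dT (g (s, 0)).1 (g (s, 0)) = 0 := by
    unfold dT
    rw [sub_self, p0]
    rfl
  have h1 := step _ _ _ a1 a2
  have h2 := step _ _ _ b1 b2
  have h3 := step _ _ _ c1 c2
  have h4 := step _ _ _ d1 d2
  have h5 := step _ _ _ e1 e2
  have h6 : dT (g (s, 0)).1 ((g (s + 1, 0)).1, 0) ≤ 5 := by
    have : g (s + 1, 0) = ((g (s + 1, 0)).1, 0) := Prod.ext rfl p1
    rw [← this]
    omega
  rcases dT_port _ _ h6 with h6 | h6 | h6
  · exfalso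
    have : g (s + 1, 0) = g (s, 0) := Prod.ext h6 (by rw [p0, p1])
    have h7 := congrArg Prod.fst (hg this)
    revert h7
    simp
  · exact Or.inl h6
  · exact Or.inr h6

/-- Rigidity: cores go to cores, ports to ports, and neighbouring labels to neighbouring labels. -/
theorem rigid {χ : Da H.C H.N → Fin 3} (hχ : NCol H χ) {f : G.Ed → H.Ed}
    {φ : Ve G.C G.N → Ve H.C H.N} (h : SMap G H f φ) :
    ∃ (τ : G.C → H.C) (l : G.C → Fin 7 → Fin 7), (∀ c, Function.Injective (l c)) ∧
      (∀ c s, ladj (l c s) (l c (s + 1))) ∧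
      ∀ c s, f (G.ed (Sum.inl (c, s))) = H.ed (Sum.inl (τ c, l c s)) := by
  choose τ g hg hφ using fun i => core_map hχ h i
  refine ⟨τ, fun c s => (g c (s, 0)).1, ?_, fun c s => map_ladj h (hg c) (hφ c) s,
    fun c s => map_ce h (hg c) (hφ c) s⟩
  intro c s t hst
  have : g c (s, 0) = g c (t, 0) :=
    Prod.ext hst (by rw [map_port h (hg c) (hφ c), map_port h (hg c) (hφ c)])
  exact congrArg Prod.fst (hg c this)

end DG

end Pool.Agent.W831.CP
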