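import Mathlib
import Pool.Agent.W831.CP.Rigid

/-!
Six copies of a base graph: dangling slots of the base graph are joined between the copies by the
perfect matchings of a one-factorisation of the complete graph on six points.
-/

open Finset

namespace Pool.Agent.W831.CP

open Pool.Agent.Results.MP_75ff39_co.InfiniteAntichain
open MultiGraph

/-- the five perfect matchings of six points -/
def FF (m : Fin 5) (i : Fin 6) : Fin 6 :=
  ![![5, 4, 3, 2, 1, 0], ![2, 5, 0, 4, 3, 1], ![4, 3, 5, 1, 0, 2], ![1, 0, 4, 5, 2, 3],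
    ![3, 2, 1, 0, 5, 4]] m i

lemma FF_FF : ∀ m i, FF m (FF m i) = i := by decide
lemma FF_ne : ∀ m i, FF m i ≠ i := by decide
lemma FF_ex : ∀ i j, i ≠ j → ∃ m, FF m i = j := by decide
lemma FF_inj : ∀ i m m', FF m i = FF m' i → m = m' := by decide

/-- base graphs -/
structure BG where
  C : Type
  N : Type
  [fC : Fintype C]
  [fN : Fintype N]
  [dC : DecidableEq C]
  [dN : DecidableEq N]
  opp : Da C N → Da C N
  opp_opp : ∀ d, opp (opp d) = d
  core_ne : ∀ c s t, opp (Sum.inl (c, s)) ≠ Sum.inl (c, t)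
  neut : ∀ v j k, opp (Sum.inr (v, j)) = Sum.inr (v, k) → k = j
  mu : N → Fin 5

attribute [instance] BG.fC BG.fN BG.dC BG.dN

section Lift

variable {C N : Type}

def lift (i : Fin 6) : Da C N → Da (C × Fin 6) (N × Fin 6)
  | Sum.inl (c, s) => Sum.inl ((c, i), s)
  | Sum.inr (v, j) => Sum.inr ((v, i), j)

def bs : Da (C × Fin 6) (N × Fin 6) → Da C N
  | Sum.inl ((c, _), s) => Sum.inl (c, s)
  | Sum.inr ((v, _), j) => Sum.inr (v, j)

def shd : Da (C × Fin 6) (N × Fin 6) → Fin 6
  | Sum.inl ((_, i), _) => i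
  | Sum.inr ((_, i), _) => i

def lv (i : Fin 6) : Ve C N → Ve (C × Fin 6) (N × Fin 6)
  | Sum.inl (c, x) => Sum.inl ((c, i), x)
  | Sum.inr v => Sum.inr (v, i)

@[simp] lemma bs_lift (d : Da C N) (i : Fin 6) : bs (lift i d) = d := by
  rcases d with ⟨c, s⟩ | ⟨v, j⟩ <;> rfl

@[simp] lemma sh_lift (d : Da C N) (i : Fin 6) : shd (lift i d) = i := by
  rcases d with ⟨c, s⟩ | ⟨v, j⟩ <;> rfl

@[simp] lemma lift_bs (D : Da (C × Fin 6) (N × Fin 6)) : lift (shd D) (bs D) = D := by
  rcases D with ⟨⟨c, i⟩, s⟩ | ⟨⟨v, i⟩, j⟩ <;> rfl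

lemma dv_lift (d : Da C N) (i : Fin 6) : dv (lift i d) = lv i (dv d) := by
  rcases d with ⟨c, s⟩ | ⟨v, j⟩ <;> rfl

def eqD : Da C N × Fin 6 ≃ Da (C × Fin 6) (N × Fin 6) where
  toFun p := lift p.2 p.1
  invFun D := (bs D, shd D)
  left_inv p := by simp
  right_inv D := by simp

def eqV : Ve C N × Fin 6 ≃ Ve (C × Fin 6) (N × Fin 6) where
  toFun p := lv p.2 p.1
  invFun v := match v with
    | Sum.inl ((c, i), x) => (Sum.inl (c, x), i)
    | Sum.inr (v, i) => (Sum.inr v, i)
  left_inv p := by rcases p with ⟨⟨c, x⟩ | v, i⟩ <;> rfl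
  right_inv v := by rcases v with ⟨⟨c, i⟩, x⟩ | ⟨v, i⟩ <;> rfl

end Lift

lemma DG.simple_of_pair (G : DG) (h : ∀ a b : Ve G.C G.N, a ≠ b →
    4 ≤ #{e : G.Ed | decide (G.esrc e = a ∨ G.esrc e = b) ≠
      decide (G.etgt e = a ∨ G.etgt e = b)}) : Simple G.graph := by
  classical
  have key : ∀ e e' : G.Ed, e ≠ e' → ∀ a b : Ve G.C G.N, G.DInc a e → G.DInc b e →
      G.DInc a e' → G.DInc b e' → a = b := by
    intro e e' hne a b ha hb ha' hb'
    by_contra hab
    have h1 := h a b hab
    have h2 : ({e : G.Ed | decide (G.esrc e = a ∨ G.esrc e = b) ≠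
      decide (G.etgt e = a ∨ G.etgt e = b)} : Finset G.Ed) ⊆
        (({x : G.Ed | G.DInc a x} : Finset G.Ed) \ {e, e'}) ∪
        (({x : G.Ed | G.DInc b x} : Finset G.Ed) \ {e, e'}) := by
      intro x hx
      have hx' := (Finset.mem_filter.1 hx).2
      have hends : ∀ y : G.Ed, G.DInc a y → G.DInc b y →
          decide (G.esrc y = a ∨ G.esrc y = b) = decide (G.etgt y = a ∨ G.etgt y = b) := by
        intro y hya hyb
        rcases hya with h | h <;> rcases hyb with h' | h'
        · exact absurd (h.symm.trans h') hab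
        · simp [h, h']
        · simp [h, h']
        · exact absurd (h.symm.trans h') hab
      have hxe : x ≠ e := by rintro rfl; exact hx' (hends _ ha hb)
      have hxe' : x ≠ e' := by rintro rfl; exact hx' (hends _ ha' hb')
      have hor : G.DInc a x ∨ G.DInc b x := by
        by_contra hcon
        push Not at hcon
        apply hx'
        have e1 : ¬ (G.esrc x = a ∨ G.esrc x = b) := by
          rintro (h | h)
          · exact hcon.1 (Or.inl h)
          · exact hcon.2 (Or.inl h)
        have e2 : ¬ (G.etgt x = a ∨ G.etgt x = b) := by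
          rintro (h | h)
          · exact hcon.1 (Or.inr h)
          · exact hcon.2 (Or.inr h)
        rw [decide_eq_false e1, decide_eq_false e2]
      rw [Finset.mem_union, Finset.mem_sdiff, Finset.mem_sdiff]
      have hxn : x ∉ ({e, e'} : Finset G.Ed) := by
        rw [Finset.mem_insert, Finset.mem_singleton]
        rintro (h | h)
        · exact hxe h
        · exact hxe' h
      rcases hor with h | h
      · exact Or.inl ⟨Finset.mem_filter.2 ⟨Finset.mem_univ _, h⟩, hxn⟩
      · exact Or.inr ⟨Finset.mem_filter.2 ⟨Finset.mem_univ _, h⟩, hxn⟩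
    have h3 : ∀ v : Ve G.C G.N, G.DInc v e → G.DInc v e' →
        #(({x : G.Ed | G.DInc v x} : Finset G.Ed) \ {e, e'}) = 1 := by
      intro v hv hv'
      rw [Finset.card_sdiff_of_subset, Finset.card_pair hne, G.card_inc v]
      intro x hx
      rw [Finset.mem_insert, Finset.mem_singleton] at hx
      rcases hx with rfl | rfl
      · exact Finset.mem_filter.2 ⟨Finset.mem_univ _, hv⟩
      · exact Finset.mem_filter.2 ⟨Finset.mem_univ _, hv'⟩
    have h4 := Finset.card_le_card h2
    have h5 := Finset.card_union_le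
      (({x : G.Ed | G.DInc a x} : Finset G.Ed) \ {e, e'})
      (({x : G.Ed | G.DInc b x} : Finset G.Ed) \ {e, e'})
    rw [h3 a ha ha', h3 b hb hb'] at h5
    omega
  exact fun e e' hne a b ha hb ha' hb' => key e e' hne a b ha hb ha' hb'

namespace BG

variable (B : BG)

def dmu : Da B.C B.N → Fin 5
  | Sum.inl _ => 0
  | Sum.inr (v, _) => B.mu v

def tinv (D : Da (B.C × Fin 6) (B.N × Fin 6)) : Da (B.C × Fin 6) (B.N × Fin 6) :=
  if B.opp (bs D) = bs D then lift (FF (B.dmu (bs D)) (shd D)) (bs D)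
  else lift (shd D) (B.opp (bs D))

lemma tinv_lift_fix (d : Da B.C B.N) (i : Fin 6) (h : B.opp d = d) :
    B.tinv (lift i d) = lift (FF (B.dmu d) i) d := by
  unfold tinv
  rw [bs_lift, sh_lift, if_pos h]

lemma tinv_lift_ne (d : Da B.C B.N) (i : Fin 6) (h : B.opp d ≠ d) :
    B.tinv (lift i d) = lift i (B.opp d) := by
  unfold tinv
  rw [bs_lift, sh_lift, if_neg h]

/-- the six-fold thickening -/
def thick : DG where
  C := B.C × Fin 6
  N := B.N × Fin 6
  inv := B.tinv
  inv_inv := by
    intro D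
    have hD : D = lift (shd D) (bs D) := (lift_bs D).symm
    set d := bs D with hd
    set i := shd D with hi
    rw [hD]
    by_cases h : B.opp d = d
    · rw [B.tinv_lift_fix d i h, B.tinv_lift_fix d _ h, FF_FF]
    · rw [B.tinv_lift_ne d i h, B.tinv_lift_ne, B.opp_opp]
      rw [B.opp_opp]
      exact fun h' => h h'.symm
  core_ne := by
    rintro ⟨c, i⟩ s t h
    have h1 : (Sum.inl ((c, i), s) : Da (B.C × Fin 6) (B.N × Fin 6)) = lift i (Sum.inl (c, s)) := rfl
    rw [h1, B.tinv_lift_ne _ _ (B.core_ne c s s)] at h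
    have h2 := congrArg bs h
    rw [bs_lift] at h2
    exact B.core_ne c s t h2
  neut_ne := by
    rintro ⟨v, i⟩ j k h
    have h1 : (Sum.inr ((v, i), j) : Da (B.C × Fin 6) (B.N × Fin 6)) = lift i (Sum.inr (v, j)) := rfl
    rw [h1] at h
    by_cases h3 : B.opp (Sum.inr (v, j)) = Sum.inr (v, j)
    · rw [B.tinv_lift_fix _ _ h3] at h
      have h2 := congrArg shd h
      rw [sh_lift] at h2
      exact FF_ne _ _ h2
    · rw [B.tinv_lift_ne _ _ h3] at h
      have h2 := congrArg bs h
      rw [bs_lift] at h2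
      have h4 := B.neut v j k h2
      subst h4
      exact h3 h2

/-- cut costs in the base graph: `w` says which dangling slots are counted -/
def cost (X : Ve B.C B.N → Bool) (w : Da B.C B.N → Bool) : ℕ :=
  (∑ c : B.C, ∑ e : CE, dd (X (Sum.inl (c, csrc e))) (X (Sum.inl (c, ctgt e)))) +
    ∑ d : Da B.C B.N, (X (dv d) && (if B.opp d = d then w d else !X (dv (B.opp d)))).toNat

/-- number of `true` vertices -/
def cnt {V : Type} [Fintype V] (X : V → Bool) : ℕ := ∑ v, (X v).toNat

lemma cut_thick (U : Ve (B.C × Fin 6) (B.N × Fin 6) → Bool) :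
    #{e : B.thick.Ed | U (B.thick.esrc e) ≠ U (B.thick.etgt e)} =
      ∑ i : Fin 6, B.cost (fun v => U (lv i v))
        (fun d => !U (lv (FF (B.dmu d) i) (dv d))) := by
  classical
  rw [DG.cut_eq_darts]
  unfold cost
  rw [Finset.sum_add_distrib]
  congr 1
  · have : ∑ c : B.thick.C, ∑ e : CE, dd (U (Sum.inl (c, csrc e))) (U (Sum.inl (c, ctgt e))) =
      ∑ c : B.C × Fin 6, ∑ e : CE, dd (U (Sum.inl (c, csrc e))) (U (Sum.inl (c, ctgt e))) := rfl
    refine this.trans ?_
    rw [Fintype.sum_prod_type_right]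
    rfl
  · have : ∑ d : Da B.thick.C B.thick.N, (U (dv d) && !U (dv (B.thick.inv d))).toNat =
      ∑ d : Da (B.C × Fin 6) (B.N × Fin 6), (U (dv d) && !U (dv (B.tinv d))).toNat := rfl
    refine this.trans ?_
    rw [← Equiv.sum_comp (eqD (C := B.C) (N := B.N)), Fintype.sum_prod_type_right]
    apply Finset.sum_congr rfl
    intro i _
    apply Finset.sum_congr rfl
    intro d _
    show (U (dv (lift i d)) && !U (dv (B.tinv (lift i d)))).toNat = _
    by_cases h : B.opp d = d
    · rw [B.tinv_lift_fix d i h, if_pos h, dv_lift, dv_lift]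
    · rw [B.tinv_lift_ne d i h, if_neg h, dv_lift, dv_lift]

lemma cost_mono (X : Ve B.C B.N → Bool) (w w' : Da B.C B.N → Bool)
    (h : ∀ d, w' d = true → w d = true) : B.cost X w' ≤ B.cost X w := by
  unfold cost
  apply Nat.add_le_add_left
  apply Finset.sum_le_sum
  intro d _
  by_cases h1 : B.opp d = d
  · rw [if_pos h1, if_pos h1]
    have := h d
    cases X (dv d) <;> cases hw' : w' d <;> cases hw : w d <;> simp_all
  · rw [if_neg h1, if_neg h1]

/-- the four inequalities on the base graph -/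
structure Good : Prop where
  c1 : ∀ X : Ve B.C B.N → Bool, 1 ≤ cnt X → min (cnt X) 3 + 2 ≤ B.cost X (fun _ => true)
  c2 : ∀ (i j : Fin 6) (X : Ve B.C B.N → Bool), i ≠ j → 2 ≤ cnt X →
    3 ≤ B.cost X (fun d => decide (FF (B.dmu d) i ≠ j))
  c3 : ∀ (i k : Fin 6) (X : Ve B.C B.N → Bool), i ≠ k → 1 ≤ cnt X →
    2 ≤ B.cost X (fun d => decide (FF (B.dmu d) i = k))
  c4 : ∀ X : Ve B.C B.N → Bool, (∃ v, X v = true) → (∃ v, X v = false) →
    1 ≤ B.cost X (fun _ => false)

variable {B}

lemma cnt_pos {V : Type} [Fintype V] {X : V → Bool} (v : V) (h : X v = true) : 1 ≤ cnt X := by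
  unfold cnt
  calc 1 = (X v).toNat := by rw [h]; rfl
    _ ≤ _ := Finset.single_le_sum (f := fun v => (X v).toNat) (fun _ _ => Nat.zero_le _)
      (Finset.mem_univ v)

lemma exists_of_cnt {V : Type} [Fintype V] {X : V → Bool} (h : 1 ≤ cnt X) : ∃ v, X v = true := by
  by_contra hcon
  push Not at hcon
  have : cnt X = 0 := by
    unfold cnt
    apply Finset.sum_eq_zero
    intro v _
    have := hcon v
    cases hv : X v
    · rfl
    · exact absurd hv this
  omega

lemma cnt_eq_sheets (U : Ve (B.C × Fin 6) (B.N × Fin 6) → Bool) :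
    cnt U = ∑ i : Fin 6, cnt (fun v => U (lv i v)) := by
  unfold cnt
  rw [← Equiv.sum_comp (eqV (C := B.C) (N := B.N)), Fintype.sum_prod_type_right]
  rfl

/-- the main inequality: some copy contains no vertex of `U` -/
lemma main_ineq (hB : B.Good) (U : Ve (B.C × Fin 6) (B.N × Fin 6) → Bool) (hU : 1 ≤ cnt U)
    (k : Fin 6) (hk : ∀ v, U (lv k v) = false) :
    min (cnt U) 3 + 2 ≤ #{e : B.thick.Ed | U (B.thick.esrc e) ≠ U (B.thick.etgt e)} := by
  classical
  rw [B.cut_thick]
  set X : Fin 6 → Ve B.C B.N → Bool := fun i v => U (lv i v) with hX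
  set co : Fin 6 → ℕ := fun i => B.cost (fun v => U (lv i v))
        (fun d => !U (lv (FF (B.dmu d) i) (dv d))) with hco
  set n : Fin 6 → ℕ := fun i => cnt (X i) with hn
  have hcnt : cnt U = ∑ i, n i := cnt_eq_sheets U
  have hX0 : ∀ i, n i = 0 → ∀ v, U (lv i v) = false := by
    intro i hi v
    cases hv : U (lv i v)
    · rfl
    · exfalso
      have := cnt_pos (X := X i) v hv
      simp only [hn] at hi
      omega
  -- every nonempty copy costs at least two
  have h2 : ∀ i, 1 ≤ n i → 2 ≤ co i := by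
    intro i hi
    have hik : i ≠ k := by
      rintro rfl
      obtain ⟨v, hv⟩ := exists_of_cnt hi
      have := hk v
      simp only [hX] at hv
      rw [hv] at this
      exact absurd this (by decide)
    calc 2 ≤ _ := hB.c3 i k (X i) hik hi
      _ ≤ co i := by
        apply B.cost_mono
        intro d hd
        simp only [decide_eq_true_eq] at hd
        rw [hd, hk]
        rfl
  rw [hcnt] at hU ⊢
  change min (∑ i, n i) 3 + 2 ≤ ∑ i, co i
  -- the set of nonempty copies
  set J : Finset (Fin 6) := {i | 1 ≤ n i} with hJ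
  have hJm : ∀ i, i ∈ J ↔ 1 ≤ n i := by intro i; simp [hJ]
  have hsum : ∑ i ∈ J, co i ≤ ∑ i, co i := Finset.sum_le_sum_of_subset (Finset.subset_univ _)
  have hnsum : ∑ i ∈ J, n i = ∑ i, n i := by
    apply Finset.sum_subset (Finset.subset_univ _)
    intro i _ hi
    rw [hJm] at hi
    omega
  have hJ2 : 2 * #J ≤ ∑ i ∈ J, co i := by
    calc 2 * #J = ∑ i ∈ J, 2 := by rw [Finset.sum_const, smul_eq_mul, mul_comm]
      _ ≤ _ := Finset.sum_le_sum (fun i hi => h2 i ((hJm i).1 hi))
  rcases Nat.lt_or_ge (#J) 3 with hlt | hge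
  swap
  · have h5 : min (∑ i, n i) 3 ≤ 3 := min_le_right _ _
    omega
  rcases Nat.lt_or_ge (#J) 2 with hlt2 | hge2
  · -- one nonempty copy
    rcases Nat.lt_or_ge (#J) 1 with hlt1 | hge1
    · exfalso
      have : J = ∅ := by rw [← Finset.card_eq_zero]; omega
      rw [this] at hnsum
      simp at hnsum
      omega
    · obtain ⟨i, hi⟩ := Finset.card_eq_one.1 (le_antisymm (by omega) hge1)
      rw [hi, Finset.sum_singleton] at hnsum hsum
      rw [← hnsum] at hU ⊢
      refine le_trans (hB.c1 (X i) hU) (le_trans ?_ hsum)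
      apply B.cost_mono
      intro d _
      have h6 : FF (B.dmu d) i ∉ J := by
        rw [hi, Finset.mem_singleton]
        exact FF_ne _ _
      rw [hJm] at h6
      rw [hX0 _ (by omega)]
      rfl
  · -- two nonempty copies
    have hc2 : #J = 2 := by omega
    obtain ⟨i, j, hij, hJij⟩ := Finset.card_eq_two.1 hc2
    rw [hJij, Finset.sum_pair hij] at hnsum hsum
    have hi : 1 ≤ n i := (hJm i).1 (by rw [hJij]; simp)
    have hj : 1 ≤ n j := (hJm j).1 (by rw [hJij]; simp)
    have hci := h2 i hi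
    have hcj := h2 j hj
    have key : ∀ a b : Fin 6, a ≠ b → J = {a, b} → 2 ≤ n a → 3 ≤ co a := by
      intro a b hab hJab ha
      refine le_trans (hB.c2 a b (X a) hab ha) ?_
      apply B.cost_mono
      intro d hd
      simp only [decide_eq_true_eq] at hd
      have h6 : FF (B.dmu d) a ∉ J := by
        rw [hJab, Finset.mem_insert, Finset.mem_singleton]
        rintro (h | h)
        · exact FF_ne _ _ h
        · exact hd h
      rw [hJm] at h6
      rw [hX0 _ (by omega)]
      rfl
    rw [← hnsum]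
    by_cases ha : 2 ≤ n i
    · have := key i j hij hJij ha
      have h5 : min (n i + n j) 3 ≤ 3 := min_le_right _ _
      omega
    · by_cases hb : 2 ≤ n j
      · have := key j i hij.symm (by rw [hJij, Finset.pair_comm]) hb
        have h5 : min (n i + n j) 3 ≤ 3 := min_le_right _ _
        omega
      · have h5 : min (n i + n j) 3 ≤ n i + n j := min_le_left _ _
        omega

lemma cnt_card {V : Type} [Fintype V] (X : V → Bool) : #{v | X v = true} = cnt X := by
  unfold cnt
  rw [Finset.card_filter]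
  apply Finset.sum_congr rfl
  intro v _
  cases X v <;> rfl

lemma thick_cut5 (hB : B.Good) : Cut5 B.thick.graph := by
  intro U h1 h2
  have h1' : 3 ≤ cnt (V := Ve (B.C × Fin 6) (B.N × Fin 6)) U := by
    rw [← cnt_card]; exact h1
  have h2' : 3 ≤ cnt (V := Ve (B.C × Fin 6) (B.N × Fin 6)) (fun v => !U v) := by
    rw [← cnt_card]
    refine le_trans h2 (Finset.card_le_card ?_)
    intro v hv
    have hv' : U v = false := (Finset.mem_filter.1 hv).2
    refine Finset.mem_filter.2 ⟨Finset.mem_univ _, ?_⟩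
    rw [hv']
    rfl
  show 5 ≤ #{e : B.thick.Ed | U (B.thick.esrc e) ≠ U (B.thick.etgt e)}
  by_cases hA : ∃ k : Fin 6, ∀ v, U (lv k v) = false
  · obtain ⟨k, hk⟩ := hA
    have := main_ineq hB U (by omega) k hk
    omega
  by_cases hC : ∃ k : Fin 6, ∀ v, U (lv k v) = true
  · obtain ⟨k, hk⟩ := hC
    have := main_ineq hB (fun v => !U v) (by omega) k (fun v => by simp [hk v])
    have h3 : #{e : B.thick.Ed | (!U (B.thick.esrc e)) ≠ (!U (B.thick.etgt e))} =
        #{e : B.thick.Ed | U (B.thick.esrc e) ≠ U (B.thick.etgt e)} := by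
      congr 1
      ext e
      simp
    omega
  push Not at hA hC
  rw [B.cut_thick]
  have h6 : ∀ i : Fin 6, 1 ≤ B.cost (fun v => U (lv i v))
        (fun d => !U (lv (FF (B.dmu d) i) (dv d))) := by
    intro i
    obtain ⟨v, hv⟩ := hA i
    obtain ⟨v', hv'⟩ := hC i
    refine le_trans (hB.c4 (fun v => U (lv i v)) ⟨v, by simpa using hv⟩ ⟨v', by simpa using hv'⟩) ?_
    apply B.cost_mono
    intro d hd
    exact absurd hd (by simp)
  calc 5 ≤ ∑ i : Fin 6, 1 := by simp
    _ ≤ _ := Finset.sum_le_sum (fun i _ => h6 i)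

lemma cnt_pair {V : Type} [Fintype V] [DecidableEq V] (a b : V) (hab : a ≠ b) :
    cnt (fun v => decide (v = a ∨ v = b)) = 2 := by
  rw [← cnt_card]
  rw [← Finset.card_pair hab]
  congr 1
  ext v
  simp

lemma exists_sheet (a b : Fin 6) : ∃ k : Fin 6, k ≠ a ∧ k ≠ b := by
  revert a b
  decide

def vsh {C N : Type} : Ve (C × Fin 6) (N × Fin 6) → Fin 6
  | Sum.inl ((_, i), _) => i
  | Sum.inr (_, i) => i

lemma vsh_lv {C N : Type} (i : Fin 6) (v : Ve C N) : vsh (lv i v) = i := by
  rcases v with ⟨c, x⟩ | v <;> rfl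

lemma thick_simple (hB : B.Good) : Simple B.thick.graph := by
  apply DG.simple_of_pair
  intro a b hab
  have hc : cnt (V := Ve (B.C × Fin 6) (B.N × Fin 6)) (fun v => decide (v = a ∨ v = b)) = 2 :=
    cnt_pair (V := Ve (B.C × Fin 6) (B.N × Fin 6)) a b hab
  obtain ⟨k, hka, hkb⟩ := exists_sheet (vsh a) (vsh b)
  have hk : ∀ v, (fun v : Ve (B.C × Fin 6) (B.N × Fin 6) => decide (v = a ∨ v = b)) (lv k v) =
      false := by
    intro v
    rw [decide_eq_false_iff_not]
    rintro (h | h)
    · exact hka (by rw [← h, vsh_lv])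
    · exact hkb (by rw [← h, vsh_lv])
  have h1 := main_ineq hB (fun v => decide (v = a ∨ v = b)) (by omega) k hk
  rw [hc] at h1
  exact h1

lemma thick_even : Even (Fintype.card B.thick.graph.V) := by
  have : Fintype.card B.thick.graph.V = Fintype.card (Ve (B.C × Fin 6) (B.N × Fin 6)) := rfl
  rw [this]
  simp only [Fintype.card_sum, Fintype.card_prod, Fintype.card_fin]
  exact ⟨Fintype.card B.C * 3 * (7 * 7) + Fintype.card B.N * 3, by ring⟩

lemma thick_class (hB : B.Good) (hne : Nonempty (Ve B.C B.N)) (k : ℕ) (hk : k ≤ 5) :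
    B.thick.graph.InClass k := by
  obtain ⟨v⟩ := hne
  exact ⟨B.thick.cubic, conn_of_cut5 (thick_simple hB) (thick_cut5 hB) B.thick.cubic ⟨lv 0 v⟩,
    cyc_of_cut5 (thick_simple hB) (thick_cut5 hB) k hk⟩

end BG

end Pool.Agent.W831.CP
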