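import Mathlib
import Pool.Agent.W831.CP.Thick

/-!
The base graph of a finite set `A`: for every `a ∈ A` a ring of `2 (5 (a + 1))` cores, one cycle
(the spine) and for every `a ∈ A` a path (the arm) joining the ring of `a` to the spine.
-/

open Finset

namespace Pool.Agent.W831.CP

open Pool.Agent.Results.MP_75ff39_co.InfiniteAntichain
open MultiGraph

/-- half the number of cores in a ring -/
def sz (e : ℕ) : ℕ := 5 * (e + 1)

instance (e : ℕ) : NeZero (sz e) := ⟨by unfold sz; omega⟩

/-- number of nodes of an arm -/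
def ln (e : ℕ) : ℕ := 8 * e + 2

/-- length of the spine -/
def LL (A : Finset ℕ) : ℕ := 10 * ((∑ a ∈ A, a) + 1)

instance (A : Finset ℕ) : NeZero (LL A) := ⟨by unfold LL; omega⟩

lemma le_sum {A : Finset ℕ} {a : ℕ} (h : a ∈ A) : a ≤ ∑ a ∈ A, a :=
  Finset.single_le_sum (f := fun a => a) (fun _ _ => Nat.zero_le _) h

lemma lt_LL {A : Finset ℕ} {a : ℕ} (h : a ∈ A) : a < LL A := by
  have := le_sum h
  unfold LL
  omega

lemma ten_le (A : Finset ℕ) : 10 ≤ LL A := by unfold LL; omega

/-- cores -/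
abbrev CB (A : Finset ℕ) := Σ a : A, ZMod (sz a.1) × Bool

/-- nodes of the arms -/
abbrev AR (A : Finset ℕ) := Σ a : A, Fin (ln a.1)

/-- neutral nodes -/
abbrev NB (A : Finset ℕ) := CB A ⊕ (ZMod (LL A) ⊕ AR A)

instance instDecCB (A : Finset ℕ) : DecidableEq (CB A) := inferInstance
instance instFinCB (A : Finset ℕ) : Fintype (CB A) := inferInstance
instance instDecAR (A : Finset ℕ) : DecidableEq (AR A) := inferInstance
instance instFinAR (A : Finset ℕ) : Fintype (AR A) := inferInstance
instance instDecNB (A : Finset ℕ) : DecidableEq (NB A) := inferInstance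
instance instFinNB (A : Finset ℕ) : Fintype (NB A) := inferInstance

section Defs

variable {A : Finset ℕ}

def sp (t : ZMod (LL A)) : NB A := Sum.inr (Sum.inl t)
def ar (a : A) (s : Fin (ln a.1)) : NB A := Sum.inr (Sum.inr ⟨a, s⟩)
def un (a : A) (c : ZMod (sz a.1) × Bool) : NB A := Sum.inl ⟨a, c⟩

def az (a : A) : Fin (ln a.1) := ⟨0, by unfold ln; omega⟩
def al (a : A) : Fin (ln a.1) := ⟨ln a.1 - 1, by unfold ln; omega⟩

/-- the other end of a dart, or the dart itself if it is dangling -/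
def bopp : Da (CB A) (NB A) → Da (CB A) (NB A)
  | Sum.inl (⟨a, c⟩, s) =>
      if s = 3 then Sum.inr (un a c, 0) else Sum.inl (⟨a, nb c s⟩, pm s)
  | Sum.inr (Sum.inl ⟨a, c⟩, j) =>
      if j = 0 then Sum.inl (⟨a, c⟩, 3)
      else if j = 1 then Sum.inr (un a (c.1, !c.2), 1)
      else if c = (0, false) then Sum.inr (ar a (al a), 1) else Sum.inr (un a c, 2)
  | Sum.inr (Sum.inr (Sum.inl t), j) =>
      if j = 0 then Sum.inr (sp (t - 1), 1)
      else if j = 1 then Sum.inr (sp (t + 1), 0)
      else if h : t.val ∈ A then Sum.inr (ar ⟨t.val, h⟩ (az _), 0) else Sum.inr (sp t, 2)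
  | Sum.inr (Sum.inr (Sum.inr ⟨a, s⟩), j) =>
      if j = 0 then
        (if s.val = 0 then Sum.inr (sp (a.1 : ZMod (LL A)), 2)
         else Sum.inr (ar a ⟨s.val - 1, by have := s.2; omega⟩, 1))
      else if j = 1 then
        (if h : s.val + 1 < ln a.1 then Sum.inr (ar a ⟨s.val + 1, h⟩, 0)
         else Sum.inr (un a (0, false), 2))
      else Sum.inr (ar a s, 2)

lemma bopp_core (a : A) (c : ZMod (sz a.1) × Bool) (s : Fin 7) :
    bopp (Sum.inl ((⟨a, c⟩ : CB A), s)) =
      if s = 3 then Sum.inr (un a c, 0) else Sum.inl (⟨a, nb c s⟩, pm s) := rfl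

lemma bopp_u0 (a : A) (c : ZMod (sz a.1) × Bool) :
    bopp (Sum.inr (un a c, 0)) = Sum.inl (⟨a, c⟩, 3) := rfl

lemma bopp_u1 (a : A) (c : ZMod (sz a.1) × Bool) :
    bopp (Sum.inr (un a c, 1)) = Sum.inr (un a (c.1, !c.2), 1) := rfl

lemma bopp_u2 (a : A) (c : ZMod (sz a.1) × Bool) :
    bopp (Sum.inr (un a c, 2)) =
      if c = (0, false) then Sum.inr (ar a (al a), 1) else Sum.inr (un a c, 2) := rfl

lemma bopp_s0 (t : ZMod (LL A)) : bopp (Sum.inr (sp t, 0)) = Sum.inr (sp (t - 1), 1) := rfl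
lemma bopp_s1 (t : ZMod (LL A)) : bopp (Sum.inr (sp t, 1)) = Sum.inr (sp (t + 1), 0) := rfl
lemma bopp_s2 (t : ZMod (LL A)) : bopp (Sum.inr (sp t, 2)) =
    if h : t.val ∈ A then Sum.inr (ar ⟨t.val, h⟩ (az _), 0) else Sum.inr (sp t, 2) := rfl

lemma bopp_a0 (a : A) (s : Fin (ln a.1)) : bopp (Sum.inr (ar a s, 0)) =
    if s.val = 0 then Sum.inr (sp (a.1 : ZMod (LL A)), 2)
         else Sum.inr (ar a ⟨s.val - 1, by have := s.2; omega⟩, 1) := rfl

lemma bopp_a1 (a : A) (s : Fin (ln a.1)) : bopp (Sum.inr (ar a s, 1)) =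
    if h : s.val + 1 < ln a.1 then Sum.inr (ar a ⟨s.val + 1, h⟩, 0)
         else Sum.inr (un a (0, false), 2) := rfl

lemma bopp_a2 (a : A) (s : Fin (ln a.1)) : bopp (Sum.inr (ar a s, 2)) = Sum.inr (ar a s, 2) := rfl

lemma val_cast (a : A) : ((a.1 : ℕ) : ZMod (LL A)).val = a.1 := ZMod.val_natCast_of_lt (lt_LL a.2)

lemma ar_cast (a : A) (h : ((a.1 : ℕ) : ZMod (LL A)).val ∈ A) :
    ar ⟨((a.1 : ℕ) : ZMod (LL A)).val, h⟩ (az _) = ar a (az a) := by
  have h1 : (⟨((a.1 : ℕ) : ZMod (LL A)).val, h⟩ : A) = a := Subtype.ext (val_cast a)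
  exact congrArg (fun a => ar a (az a)) h1

lemma fin3 (j : Fin 3) : j = 0 ∨ j = 1 ∨ j = 2 := by revert j; decide

lemma bopp_bopp (d : Da (CB A) (NB A)) : bopp (bopp d) = d := by
  rcases d with ⟨⟨a, c⟩, s⟩ | ⟨⟨a, c⟩ | t | ⟨a, s⟩, j⟩
  · rw [bopp_core]
    by_cases h : s = 3
    · rw [if_pos h, bopp_u0, h]
    · rw [if_neg h, bopp_core, if_neg, nb_nb, pm_pm]
      intro h'
      apply h
      have := congrArg pm h'
      rw [pm_pm] at this
      rw [this]; rfl
  · rcases fin3 j with rfl | rfl | rfl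
    · change bopp (bopp (Sum.inr (un a c, 0))) = Sum.inr (un a c, 0)
      rw [bopp_u0, bopp_core, if_pos rfl]
    · change bopp (bopp (Sum.inr (un a c, 1))) = Sum.inr (un a c, 1)
      rw [bopp_u1, bopp_u1]
      simp
    · change bopp (bopp (Sum.inr (un a c, 2))) = Sum.inr (un a c, 2)
      rw [bopp_u2]
      by_cases h : c = (0, false)
      · rw [if_pos h, bopp_a1, dif_neg, h]
        unfold al ln
        simp
      · rw [if_neg h, bopp_u2, if_neg h]
  · rcases fin3 j with rfl | rfl | rfl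
    · change bopp (bopp (Sum.inr (sp t, 0))) = Sum.inr (sp t, 0)
      rw [bopp_s0, bopp_s1, sub_add_cancel]
    · change bopp (bopp (Sum.inr (sp t, 1))) = Sum.inr (sp t, 1)
      rw [bopp_s1, bopp_s0, add_sub_cancel_right]
    · change bopp (bopp (Sum.inr (sp t, 2))) = Sum.inr (sp t, 2)
      rw [bopp_s2]
      by_cases h : t.val ∈ A
      · rw [dif_pos h, bopp_a0, if_pos (show (az (⟨t.val, h⟩ : A)).val = 0 from rfl)]
        show Sum.inr (sp ((t.val : ℕ) : ZMod (LL A)), 2) = _
        rw [ZMod.natCast_zmod_val]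
      · rw [dif_neg h, bopp_s2, dif_neg h]
  · rcases fin3 j with rfl | rfl | rfl
    · change bopp (bopp (Sum.inr (ar a s, 0))) = Sum.inr (ar a s, 0)
      rw [bopp_a0]
      by_cases h : s.val = 0
      · have hm : ((a.1 : ℕ) : ZMod (LL A)).val ∈ A := by rw [val_cast]; exact a.2
        rw [if_pos h, bopp_s2, dif_pos hm, ar_cast]
        have : az a = s := Fin.ext h.symm
        rw [this]
      · rw [if_neg h, bopp_a1, dif_pos (show s.val - 1 + 1 < ln a.1 by have := s.2; omega)]
        have : (⟨s.val - 1 + 1, by have := s.2; omega⟩ : Fin (ln a.1)) = s := Fin.ext (by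
          simp only; omega)
        rw [this]
    · change bopp (bopp (Sum.inr (ar a s, 1))) = Sum.inr (ar a s, 1)
      rw [bopp_a1]
      by_cases h : s.val + 1 < ln a.1
      · rw [dif_pos h, bopp_a0, if_neg (by simp)]
        simp
      · rw [dif_neg h, bopp_u2, if_pos rfl]
        have : al a = s := Fin.ext (by unfold al; simp only; have := s.2; omega)
        rw [this]
    · change bopp (bopp (Sum.inr (ar a s, 2))) = Sum.inr (ar a s, 2)
      rw [bopp_a2, bopp_a2]

/-- the matching used at a node -/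
def bmu : NB A → Fin 5
  | Sum.inl ⟨_, c⟩ => ⟨(c.1.val + c.2.toNat) % 5, Nat.mod_lt _ (by norm_num)⟩
  | Sum.inr (Sum.inl t) => ⟨t.val % 5, Nat.mod_lt _ (by norm_num)⟩
  | Sum.inr (Sum.inr ⟨_, s⟩) => ⟨s.val % 5, Nat.mod_lt _ (by norm_num)⟩

lemma one_ne_zero_LL : (1 : ZMod (LL A)) ≠ 0 := by
  have : Fact (1 < LL A) := ⟨by have := ten_le A; omega⟩
  exact one_ne_zero

lemma two_ne_zero_LL : (2 : ZMod (LL A)) ≠ 0 := by
  intro h
  have h1 : ((2 : ℕ) : ZMod (LL A)) = 0 := by exact_mod_cast h
  rw [ZMod.natCast_eq_zero_iff] at h1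
  have := Nat.le_of_dvd (by norm_num) h1
  have := ten_le A
  omega

end Defs

/-- the base graph of `A` -/
def base (A : Finset ℕ) : BG where
  C := CB A
  N := NB A
  opp := bopp
  opp_opp := bopp_bopp
  core_ne := by
    rintro ⟨a, c⟩ s t
    rw [bopp_core]
    split_ifs with h
    · exact Sum.inr_ne_inl
    · intro h1
      simp only [Sum.inl.injEq, Prod.mk.injEq, Sigma.mk.injEq, heq_eq_eq, true_and] at h1
      exact nb_ne _ _ h1.1
  neut := by
    rintro (⟨a, c⟩ | t | ⟨a, s⟩) j k h
    · rcases fin3 j with rfl | rfl | rfl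
      · exact absurd h Sum.inl_ne_inr
      · change Sum.inr (un a (c.1, !c.2), 1) = _ at h
        simp only [un, Sum.inr.injEq, Prod.mk.injEq, Sum.inl.injEq, Sigma.mk.injEq, heq_eq_eq,
          true_and] at h
        obtain ⟨h1, _⟩ := h
        have := congrArg Prod.snd h1
        simp at this
      · change (if c = (0, false) then Sum.inr (ar a (al a), 1) else Sum.inr (un a c, 2)) = _ at h
        split_ifs at h
        · simp [ar] at h
        · simp only [un, Sum.inr.injEq, Prod.mk.injEq, true_and] at h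
          exact h.symm
    · rcases fin3 j with rfl | rfl | rfl
      · change Sum.inr (sp (t - 1), 1) = _ at h
        simp only [sp, Sum.inr.injEq, Prod.mk.injEq, Sum.inl.injEq] at h
        exact absurd (sub_eq_self.1 h.1) one_ne_zero_LL
      · change Sum.inr (sp (t + 1), 0) = _ at h
        simp only [sp, Sum.inr.injEq, Prod.mk.injEq, Sum.inl.injEq] at h
        exact absurd (add_eq_left.1 h.1) one_ne_zero_LL
      · change (if h : t.val ∈ A then Sum.inr (ar ⟨t.val, h⟩ (az _), 0) else Sum.inr (sp t, 2)) = _ at h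
        split_ifs at h
        · simp [ar] at h
        · simp only [sp, Sum.inr.injEq, Prod.mk.injEq, true_and] at h
          exact h.symm
    · rcases fin3 j with rfl | rfl | rfl
      · change (if s.val = 0 then Sum.inr (sp (a.1 : ZMod (LL A)), 2)
         else Sum.inr (ar a ⟨s.val - 1, by have := s.2; omega⟩, 1)) = _ at h
        split_ifs at h with h0
        · simp [sp] at h
        · simp only [ar, Sum.inr.injEq, Prod.mk.injEq, Sigma.mk.injEq, heq_eq_eq, true_and] at h
          have := congrArg Fin.val h.1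
          simp only at this
          omega
      · change (if h : s.val + 1 < ln a.1 then Sum.inr (ar a ⟨s.val + 1, h⟩, 0)
         else Sum.inr (un a (0, false), 2)) = _ at h
        split_ifs at h with h0
        · simp only [ar, Sum.inr.injEq, Prod.mk.injEq, Sigma.mk.injEq, heq_eq_eq, true_and] at h
          have := congrArg Fin.val h.1
          simp only at this
          omega
        · simp [un] at h
      · change Sum.inr (ar a s, 2) = _ at h
        simp only [ar, Sum.inr.injEq, Prod.mk.injEq, true_and] at h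
        exact h.symm
  mu := bmu

/-- the graph of `A` -/
noncomputable def gr (A : Finset ℕ) : MultiGraph := (base A).thick.graph

end Pool.Agent.W831.CP
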