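import Mathlib
import Pool.Agent.W831.CP.Base

/-!
Cut costs of a ring of cores with subdivided edges of label three.
-/

open Finset

namespace Pool.Agent.W831.CP

open Pool.Agent.Results.MP_75ff39_co.InfiniteAntichain
open MultiGraph
open BG (cnt cnt_card)

lemma small_cuts {G : MultiGraph} (hc : G.Cubic) (hs : Simple G) (U : G.V → Bool)
    (h1 : 1 ≤ cnt U) (h2 : cnt U ≤ 2) :
    cnt U + 2 ≤ #{e | U (G.src e) ≠ U (G.tgt e)} := by
  classical
  have hstar : ∀ a e, G.Inc a e → U a = true → (∀ b, G.Inc b e → b ≠ a → U b = false) →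
      e ∈ ({e | U (G.src e) ≠ U (G.tgt e)} : Finset G.E) := by
    intro a e ha hUa hb
    rw [Finset.mem_filter]
    refine ⟨Finset.mem_univ _, ?_⟩
    rcases ha with h | h
    · have : U (G.tgt e) = false := hb _ (Or.inr rfl) (fun h' => G.loopless e (by rw [h, h']))
      rw [h, hUa, this]; decide
    · have : U (G.src e) = false := hb _ (Or.inl rfl) (fun h' => G.loopless e (by rw [h, h']))
      rw [h, hUa, this]; decide
  rcases Nat.lt_or_ge (cnt U) 2 with hlt | hge
  · have h3 : #{v | U v = true} = 1 := by rw [cnt_card]; omega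
    obtain ⟨a, ha⟩ := Finset.card_eq_one.1 h3
    have hU : ∀ v, U v = true ↔ v = a := by
      intro v
      have : v ∈ ({v | U v = true} : Finset G.V) ↔ v ∈ ({a} : Finset G.V) := by rw [ha]
      simpa using this
    have h4 : ({e | G.Inc a e} : Finset G.E) ⊆
        ({e | U (G.src e) ≠ U (G.tgt e)} : Finset G.E) := by
      intro e he
      have he' : G.Inc a e := (Finset.mem_filter.1 he).2
      apply hstar a e he' ((hU a).2 rfl)
      intro b _ hba
      cases hb : U b
      · rfl
      · exact absurd ((hU b).1 hb) hba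
    have h5 := Finset.card_le_card h4
    rw [hc a] at h5
    omega
  · have h3 : #{v | U v = true} = 2 := by rw [cnt_card]; omega
    obtain ⟨a, b, hab, hset⟩ := Finset.card_eq_two.1 h3
    have hU : ∀ v, U v = true ↔ v = a ∨ v = b := by
      intro v
      have : v ∈ ({v | U v = true} : Finset G.V) ↔ v ∈ ({a, b} : Finset G.V) := by rw [hset]
      simpa using this
    set Sa : Finset G.E := {e | G.Inc a e} with hSa
    set Sb : Finset G.E := {e | G.Inc b e} with hSb
    have hca : #Sa = 3 := hc a
    have hcb : #Sb = 3 := hc b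
    have hint : #(Sa ∩ Sb) ≤ 1 := by
      rw [Finset.card_le_one]
      intro e he e' he'
      by_contra hne
      rw [Finset.mem_inter] at he he'
      simp only [hSa, hSb, Finset.mem_filter, Finset.mem_univ, true_and] at he he'
      exact hab (hs e e' hne a b he.1 he.2 he'.1 he'.2)
    have hsub : (Sa \ Sb) ∪ (Sb \ Sa) ⊆ ({e | U (G.src e) ≠ U (G.tgt e)} : Finset G.E) := by
      intro e he
      rw [Finset.mem_union, Finset.mem_sdiff, Finset.mem_sdiff] at he
      simp only [hSa, hSb, Finset.mem_filter, Finset.mem_univ, true_and] at he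
      rcases he with ⟨h, h'⟩ | ⟨h, h'⟩
      · apply hstar a e h ((hU a).2 (Or.inl rfl))
        intro v hv hva
        cases hUv : U v
        · rfl
        · rcases (hU v).1 hUv with h4 | h4
          · exact absurd h4 hva
          · rw [h4] at hv; exact absurd hv h'
      · apply hstar b e h ((hU b).2 (Or.inr rfl))
        intro v hv hva
        cases hUv : U v
        · rfl
        · rcases (hU v).1 hUv with h4 | h4
          · rw [h4] at hv; exact absurd hv h'
          · exact absurd h4 hva
    have h5 := Finset.card_le_card hsub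
    rw [Finset.card_union_of_disjoint (by
      rw [Finset.disjoint_left]
      intro e he he'
      rw [Finset.mem_sdiff] at he he'
      exact he.2 he'.1)] at h5
    have h6 := Finset.card_sdiff_add_card_inter Sa Sb
    have h7 := Finset.card_sdiff_add_card_inter Sb Sa
    rw [Finset.inter_comm] at h7
    omega

variable {n : ℕ} [NeZero n]

def RD (R : RV n → Bool) : ℕ :=
  (∑ c : ZMod n × Bool, ∑ e : CE, dd (R (c, csrc e)) (R (c, ctgt e))) +
    ∑ c : ZMod n × Bool, ∑ s : Fin 7, (R (c, (s, 0)) && !R (nb c s, (pm s, 0))).toNat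

lemma RD_eq (R : RV n → Bool) : #{e : RE n | R (rsrc e) ≠ R (rtgt e)} = RD R := by
  rw [Finset.card_filter]
  have h1 : ∀ e : RE n, (if R (rsrc e) ≠ R (rtgt e) then 1 else 0) =
      dd (R (rsrc e)) (R (rtgt e)) := by
    intro e
    cases R (rsrc e) <;> cases R (rtgt e) <;> rfl
  simp_rw [h1]
  rw [Fintype.sum_sum_type, Fintype.sum_prod_type]
  unfold RD
  congr 1
  rw [← sum_B (fun c s => (R (c, (s, 0)) && !R (nb c s, (pm s, 0))).toNat)]
  apply Finset.sum_congr rfl
  rintro ⟨k, s⟩ _
  show dd (R ((k, false), (s, 0))) (R (nb (k, false) s, (pm s, 0))) = _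
  simp only
  rw [nb_nb, pm_pm]
  cases R ((k, false), (s, 0)) <;> cases R (nb (k, false) s, (pm s, 0)) <;> rfl

lemma RD_ge (R : RV n → Bool) (h1 : 3 ≤ cnt R) (h2 : 3 ≤ cnt (fun v => !R v)) : 5 ≤ RD R := by
  rw [← RD_eq]
  apply ring_cut5'
  · rw [cnt_card]; exact h1
  · have : #{v | R v = false} = cnt (fun v => !R v) := by
      rw [← cnt_card]
      congr 1
      ext v
      simp
    rw [this]; exact h2

lemma RD_small (R : RV n → Bool) (h1 : 1 ≤ cnt R) (h2 : cnt R ≤ 2) : cnt R + 2 ≤ RD R := by
  rw [← RD_eq]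
  exact small_cuts (G := ringGraph n) ring_cubic ring_simple R h1 h2

lemma RD_compl (R : RV n → Bool) : RD (fun v => !R v) = RD R := by
  rw [← RD_eq, ← RD_eq]
  congr 1
  ext e
  simp

/-- cost of a ring with the two vertices `u c` on every edge with label three -/
def RC (R : RV n → Bool) (u w : ZMod n × Bool → Bool) : ℕ :=
  (∑ c : ZMod n × Bool, ∑ e : CE, dd (R (c, csrc e)) (R (c, ctgt e))) +
    (∑ c : ZMod n × Bool, ∑ s : Fin 7,
      (R (c, (s, 0)) && !(if s = 3 then u c else R (nb c s, (pm s, 0)))).toNat) +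
    ∑ c : ZMod n × Bool, ((u c && !R (c, (3, 0))).toNat + (u c && !u (c.1, !c.2)).toNat +
      (u c && w c).toNat)

/-- the cost of one subdivided edge in excess of the cost of the edge -/
def ex (p q a b wa wb : Bool) : ℕ :=
  ((p && !a).toNat + (q && !b).toNat + (a && !p).toNat + (b && !q).toNat + (a && !b).toNat +
    (b && !a).toNat + (a && wa).toNat + (b && wb).toNat) - ((p && !q).toNat + (q && !p).toNat)

lemma ex_spec : ∀ p q a b wa wb : Bool,
    (p && !a).toNat + (q && !b).toNat + (a && !p).toNat + (b && !q).toNat + (a && !b).toNat +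
    (b && !a).toNat + (a && wa).toNat + (b && wb).toNat =
      ex p q a b wa wb + ((p && !q).toNat + (q && !p).toNat) := by decide

lemma RC_eq (R : RV n → Bool) (u w : ZMod n × Bool → Bool) :
    RC R u w = RD R + ∑ k : ZMod n, ex (R ((k, false), (3, 0))) (R ((k, true), (3, 0)))
      (u (k, false)) (u (k, true)) (w (k, false)) (w (k, true)) := by
  have h3 : ∀ c : ZMod n × Bool, nb c 3 = (c.1, !c.2) := by
    rintro ⟨k, b⟩
    cases b <;> simp [nb]
  have key : RC R u w + ∑ c : ZMod n × Bool, (R (c, (3, 0)) && !R ((c.1, !c.2), (3, 0))).toNat =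
      RD R + ∑ c : ZMod n × Bool, ((R (c, (3, 0)) && !u c).toNat + (u c && !R (c, (3, 0))).toNat +
        (u c && !u (c.1, !c.2)).toNat + (u c && w c).toNat) := by
    unfold RC RD
    simp only [Fin.sum_univ_seven, Finset.sum_add_distrib, h3]
    have e1 : (0 : Fin 7) ≠ 3 := by decide
    have e2 : (1 : Fin 7) ≠ 3 := by decide
    have e3 : (2 : Fin 7) ≠ 3 := by decide
    have e4 : (4 : Fin 7) ≠ 3 := by decide
    have e5 : (5 : Fin 7) ≠ 3 := by decide
    have e6 : (6 : Fin 7) ≠ 3 := by decide
    have e7 : pm 3 = 3 := by decide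
    simp only [if_neg e1, if_neg e2, if_neg e3, if_neg e4, if_neg e5, if_neg e6, if_pos, e7]
    ring
  rw [Fintype.sum_prod_type, Fintype.sum_prod_type] at key
  simp only [Fintype.sum_bool, Bool.not_true, Bool.not_false] at key
  have h5 : ∑ k : ZMod n, (((R ((k, true), (3, 0)) && !u (k, true)).toNat +
      (u (k, true) && !R ((k, true), (3, 0))).toNat + (u (k, true) && !u (k, false)).toNat +
      (u (k, true) && w (k, true)).toNat) + ((R ((k, false), (3, 0)) && !u (k, false)).toNat +
      (u (k, false) && !R ((k, false), (3, 0))).toNat + (u (k, false) && !u (k, true)).toNat +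
      (u (k, false) && w (k, false)).toNat)) =
      ∑ k : ZMod n, ex (R ((k, false), (3, 0))) (R ((k, true), (3, 0)))
      (u (k, false)) (u (k, true)) (w (k, false)) (w (k, true)) +
      ∑ k : ZMod n, ((R ((k, true), (3, 0)) && !R ((k, false), (3, 0))).toNat +
        (R ((k, false), (3, 0)) && !R ((k, true), (3, 0))).toNat) := by
    rw [← Finset.sum_add_distrib]
    apply Finset.sum_congr rfl
    intro k _
    have := ex_spec (R ((k, false), (3, 0))) (R ((k, true), (3, 0)))
      (u (k, false)) (u (k, true)) (w (k, false)) (w (k, true))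
    omega
  rw [h5] at key
  omega

lemma cnt_prod_bool (u : ZMod n × Bool → Bool) :
    cnt u = ∑ k : ZMod n, ((u (k, false)).toNat + (u (k, true)).toNat) := by
  unfold cnt
  rw [Fintype.sum_prod_type]
  apply Finset.sum_congr rfl
  intro k _
  simp only [Fintype.sum_bool]
  omega

lemma port_le (R : RV n → Bool) :
    ∑ k : ZMod n, ((R ((k, false), (3, 0))).toNat + (R ((k, true), (3, 0))).toNat) ≤ cnt R := by
  rw [← cnt_prod_bool (fun c => R (c, (3, 0)))]
  unfold cnt
  rw [Fintype.sum_prod_type (f := fun v : RV n => (R v).toNat)]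
  apply Finset.sum_le_sum
  intro c _
  exact Finset.single_le_sum (f := fun x : CV => (R (c, x)).toNat) (fun _ _ => Nat.zero_le _)
    (Finset.mem_univ (3, 0))

/-- the number of `k` with both ends in `R` -/
lemma both_ge (R : RV n → Bool) (h : cnt (fun v => !R v) ≤ 2) :
    n ≤ ∑ k : ZMod n, (R ((k, false), (3, 0)) && R ((k, true), (3, 0))).toNat + 2 := by
  have h1 := port_le (fun v => !R v)
  have h2 : ∑ k : ZMod n, 1 ≤ ∑ k : ZMod n, (R ((k, false), (3, 0)) && R ((k, true), (3, 0))).toNat +
      ∑ k : ZMod n, ((!R ((k, false), (3, 0))).toNat + (!R ((k, true), (3, 0))).toNat) := by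
    rw [← Finset.sum_add_distrib]
    apply Finset.sum_le_sum
    intro k _
    cases R ((k, false), (3, 0)) <;> cases R ((k, true), (3, 0)) <;> decide
  rw [Finset.sum_const, Finset.card_univ, ZMod.card, smul_eq_mul, mul_one] at h2
  omega

lemma zero_of_cnt {V : Type} [Fintype V] {X : V → Bool} (h : cnt X = 0) (v : V) : X v = false := by
  cases hv : X v
  · rfl
  · have := BG.cnt_pos v hv
    omega

lemma ex_a : ∀ p q a b : Bool, a.toNat + b.toNat ≤ ex p q a b true true := by decide
lemma ex_b : ∀ a b : Bool, a.toNat + b.toNat + 2 * (a || b).toNat ≤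
    ex false false a b true true := by decide
lemma ex_c : ∀ p q a b : Bool, 2 * (p && q).toNat ≤ ex p q a b true true := by decide
lemma ex_d : ∀ p q a b wa wb : Bool, (wa = true ∨ wb = true) → (p && q).toNat ≤
    ex p q a b wa wb := by decide
lemma ex_e : ∀ a b wa wb : Bool, 2 * (a || b).toNat + (a && wa).toNat + (b && wb).toNat ≤
    ex false false a b wa wb := by decide
lemma ex_f : ∀ a b wa wb : Bool, (a && b) = false → 2 ≤ ex true true a b wa wb := by decide
lemma ex_g : ∀ wa wb : Bool, wa.toNat + wb.toNat ≤ ex true true true true wa wb := by decide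

theorem RC1 (hn : 5 ≤ n) (R : RV n → Bool) (u : ZMod n × Bool → Bool)
    (h : 1 ≤ cnt R + cnt u) : min (cnt R + cnt u) 3 + 2 ≤ RC R u (fun _ => true) := by
  rw [RC_eq]
  set S := ∑ k : ZMod n, ex (R ((k, false), (3, 0))) (R ((k, true), (3, 0)))
      (u (k, false)) (u (k, true)) true true with hS
  have hm3 : min (cnt R + cnt u) 3 ≤ 3 := min_le_right _ _
  have hml : min (cnt R + cnt u) 3 ≤ cnt R + cnt u := min_le_left _ _
  by_cases h2 : cnt (fun v => !R v) ≤ 2
  · have h3 := both_ge R h2
    have h4 : 2 * ∑ k : ZMod n, (R ((k, false), (3, 0)) && R ((k, true), (3, 0))).toNat ≤ S := by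
      rw [Finset.mul_sum]
      exact Finset.sum_le_sum (fun k _ => ex_c _ _ _ _)
    omega
  by_cases h3 : 3 ≤ cnt R
  · have := RD_ge R h3 (by omega)
    omega
  have hu : cnt u ≤ S := by
    rw [cnt_prod_bool]
    exact Finset.sum_le_sum (fun k _ => ex_a _ _ _ _)
  by_cases h4 : 1 ≤ cnt R
  · have := RD_small R h4 (by omega)
    omega
  · have hR : ∀ v, R v = false := zero_of_cnt (by omega)
    have hu2 : cnt u + 2 ≤ S := by
      have h5 : ∃ c, u c = true := BG.exists_of_cnt (by omega)
      obtain ⟨⟨k, b⟩, hc⟩ := h5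
      have h6 : cnt u + ∑ k : ZMod n, 2 * (u (k, false) || u (k, true)).toNat ≤ S := by
        rw [cnt_prod_bool, ← Finset.sum_add_distrib]
        apply Finset.sum_le_sum
        intro k _
        rw [hR, hR]
        exact ex_b _ _
      have h7 : 2 ≤ ∑ k : ZMod n, 2 * (u (k, false) || u (k, true)).toNat := by
        calc 2 = 2 * (u (k, false) || u (k, true)).toNat := by
              cases b <;> rw [hc] <;> simp
          _ ≤ _ := Finset.single_le_sum (f := fun k => 2 * (u (k, false) || u (k, true)).toNat)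
            (fun _ _ => Nat.zero_le _) (Finset.mem_univ k)
      omega
    omega

theorem RC2 (hn : 5 ≤ n) (R : RV n → Bool) (u w : ZMod n × Bool → Bool)
    (hw : ∀ k, w (k, false) = true ∨ w (k, true) = true)
    (h : 2 ≤ cnt R + cnt u ∨ ∃ c, u c = true ∧ w c = true) : 3 ≤ RC R u w := by
  rw [RC_eq]
  set S := ∑ k : ZMod n, ex (R ((k, false), (3, 0))) (R ((k, true), (3, 0)))
      (u (k, false)) (u (k, true)) (w (k, false)) (w (k, true)) with hS
  by_cases h2 : cnt (fun v => !R v) ≤ 2
  · have h3 := both_ge R h2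
    have h4 : ∑ k : ZMod n, (R ((k, false), (3, 0)) && R ((k, true), (3, 0))).toNat ≤ S :=
      Finset.sum_le_sum (fun k _ => ex_d _ _ _ _ _ _ (hw k))
    omega
  by_cases h3 : 3 ≤ cnt R
  · have := RD_ge R h3 (by omega)
    omega
  by_cases h4 : 1 ≤ cnt R
  · have := RD_small R h4 (by omega)
    omega
  have hR : ∀ v, R v = false := zero_of_cnt (by omega)
  have h6 : ∑ k : ZMod n, (2 * (u (k, false) || u (k, true)).toNat +
      (u (k, false) && w (k, false)).toNat + (u (k, true) && w (k, true)).toNat) ≤ S := by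
    apply Finset.sum_le_sum
    intro k _
    rw [hR, hR]
    exact ex_e _ _ _ _
  set T : ZMod n → ℕ := fun k => 2 * (u (k, false) || u (k, true)).toNat +
      (u (k, false) && w (k, false)).toNat + (u (k, true) && w (k, true)).toNat with hT
  have hT1 : ∀ k, T k ≤ S := fun k => le_trans
    (Finset.single_le_sum (f := T) (fun _ _ => Nat.zero_le _) (Finset.mem_univ k)) h6
  have hT2 : ∀ k k', k ≠ k' → T k + T k' ≤ S := by
    intro k k' hkk
    refine le_trans ?_ h6
    rw [← Finset.sum_pair hkk (f := T)]
    exact Finset.sum_le_sum_of_subset (Finset.subset_univ _)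
  have hT3 : ∀ c, u c = true → 2 ≤ T c.1 := by
    rintro ⟨k, b⟩ hc
    simp only [hT]
    cases b <;> rw [hc] <;> simp <;> omega
  have hgood : (∃ c, u c = true ∧ w c = true) → 3 ≤ S := by
    rintro ⟨⟨k, b⟩, hc, hwc⟩
    refine le_trans ?_ (hT1 k)
    simp only [hT]
    cases b <;> rw [hc, hwc] <;> simp <;> omega
  rcases h with h | h
  · -- two elements
    have h7 : 2 ≤ #{c | u c = true} := by rw [cnt_card]; omega
    obtain ⟨c, hc, c', hc', hne⟩ := Finset.one_lt_card.1 h7
    simp only [Finset.mem_filter, Finset.mem_univ, true_and] at hc hc'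
    by_cases hk : c.1 = c'.1
    · obtain ⟨k, b⟩ := c
      obtain ⟨k', b'⟩ := c'
      simp only at hk
      subst hk
      have hb : u (k, false) = true ∧ u (k, true) = true := by
        cases b <;> cases b' <;> first | exact absurd rfl hne | exact ⟨hc, hc'⟩ | exact ⟨hc', hc⟩
      rcases hw k with h8 | h8
      · have := hgood ⟨_, hb.1, h8⟩
        omega
      · have := hgood ⟨_, hb.2, h8⟩
        omega
    · have := hT2 _ _ hk
      have := hT3 c hc
      have := hT3 c' hc'
      omega
  · have := hgood h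
    omega

theorem RC3 (R : RV n → Bool) (u w : ZMod n × Bool → Bool)
    (hw : ∃ c c', c ≠ c' ∧ w c = true ∧ w c' = true) (h : 1 ≤ cnt R + cnt u) :
    2 ≤ RC R u w := by
  rw [RC_eq]
  set T : ZMod n → ℕ := fun k => ex (R ((k, false), (3, 0))) (R ((k, true), (3, 0)))
      (u (k, false)) (u (k, true)) (w (k, false)) (w (k, true)) with hT
  change 2 ≤ RD R + ∑ k, T k
  have hT1 : ∀ k, T k ≤ ∑ k, T k := fun k =>
    (Finset.single_le_sum (f := T) (fun _ _ => Nat.zero_le _) (Finset.mem_univ k))
  by_cases h2 : cnt (fun v => !R v) ≤ 2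
  · by_cases h1 : 1 ≤ cnt (fun v => !R v)
    · have h3 := RD_small (fun v => !R v) h1 h2
      rw [RD_compl] at h3
      omega
    · have hR : ∀ v, R v = true := by
        intro v
        have := zero_of_cnt (X := fun v => !R v) (by omega) v
        simpa using this
      by_cases hu : ∃ c, u c = false
      · obtain ⟨⟨k, b⟩, hc⟩ := hu
        have : 2 ≤ T k := by
          simp only [hT]
          rw [hR, hR]
          apply ex_f
          cases b <;> rw [hc] <;> simp
        have := hT1 k
        omega
      · push Not at hu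
        have hu' : ∀ c, u c = true := fun c => by
          have := hu c
          simpa using this
        have h3 : cnt w ≤ ∑ k, T k := by
          rw [cnt_prod_bool]
          apply Finset.sum_le_sum
          intro k _
          simp only [hT]
          rw [hR, hR, hu', hu']
          exact ex_g _ _
        obtain ⟨c, c', hne, hc, hc'⟩ := hw
        have h4 : 2 ≤ cnt w := by
          rw [← cnt_card]
          exact Finset.one_lt_card.2 ⟨c, by simp [hc], c', by simp [hc'], hne⟩
        omega
  by_cases h3 : 3 ≤ cnt R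
  · have := RD_ge R h3 (by omega)
    omega
  by_cases h4 : 1 ≤ cnt R
  · have := RD_small R h4 (by omega)
    omega
  have hR : ∀ v, R v = false := zero_of_cnt (by omega)
  obtain ⟨⟨k, b⟩, hc⟩ := BG.exists_of_cnt (X := u) (by omega)
  have : 2 ≤ T k := by
    simp only [hT]
    rw [hR, hR]
    refine le_trans ?_ (ex_e _ _ _ _)
    cases b <;> rw [hc] <;> simp <;> omega
  have := hT1 k
  omega

end Pool.Agent.W831.CP
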