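import Mathlib
import Pool.Agent.W831.CP.RingCost

/-!
Cut costs of the spine and of the arms.
-/

open Finset

namespace Pool.Agent.W831.CP

open Pool.Agent.Results.MP_75ff39_co.InfiniteAntichain
open MultiGraph
open BG (cnt cnt_card)

section Line

variable {T : Type} [Fintype T]

/-- cost of a set `x` with neighbours `P`, `N` and third weights `w` -/
def LC (x P N w : T → Bool) : ℕ :=
  ∑ t, ((x t && !P t).toNat + (x t && !N t).toNat + (x t && w t).toNat)

lemma LC_ge (x P N w : T → Bool) (h1 : ∃ t, x t = true ∧ P t = false)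
    (h2 : ∃ t, x t = true ∧ N t = false) : 2 + ∑ t, (x t && w t).toNat ≤ LC x P N w := by
  unfold LC
  rw [Finset.sum_add_distrib, Finset.sum_add_distrib]
  have e1 : 1 ≤ ∑ t, (x t && !P t).toNat := by
    obtain ⟨t, ht, ht'⟩ := h1
    calc 1 = (x t && !P t).toNat := by rw [ht, ht']; rfl
      _ ≤ _ := Finset.single_le_sum (f := fun t => (x t && !P t).toNat)
        (fun _ _ => Nat.zero_le _) (Finset.mem_univ t)
  have e2 : 1 ≤ ∑ t, (x t && !N t).toNat := by
    obtain ⟨t, ht, ht'⟩ := h2
    calc 1 = (x t && !N t).toNat := by rw [ht, ht']; rfl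
      _ ≤ _ := Finset.single_le_sum (f := fun t => (x t && !N t).toNat)
        (fun _ _ => Nat.zero_le _) (Finset.mem_univ t)
  omega

lemma LC_iso (x P N w : T → Bool) (h1 : ∀ t, x t = true → P t = false)
    (h2 : ∀ t, x t = true → N t = false) : 2 * cnt x ≤ LC x P N w := by
  unfold LC cnt
  rw [Finset.mul_sum]
  apply Finset.sum_le_sum
  intro t _
  cases hx : x t
  · simp
  · rw [h1 t hx, h2 t hx]
    simp

lemma LC_1 (x P N : T → Bool) (h1 : ∃ t, x t = true ∧ P t = false)
    (h2 : ∃ t, x t = true ∧ N t = false) : cnt x + 2 ≤ LC x P N (fun _ => true) := by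
  have := LC_ge x P N (fun _ => true) h1 h2
  have h3 : ∑ t, (x t && true).toNat = cnt x := by unfold cnt; simp
  omega

lemma LC_2 (x P N w : T → Bool) (h1 : ∃ t, x t = true ∧ P t = false)
    (h2 : ∃ t, x t = true ∧ N t = false)
    (h3 : ∀ t, x t = true → P t = true → ∃ t', x t' = true ∧ (w t = true ∨ w t' = true))
    (h4 : ∀ t, x t = true → N t = true → ∃ t', x t' = true ∧ (w t = true ∨ w t' = true))
    (h5 : 2 ≤ cnt x) : 3 ≤ LC x P N w := by
  by_cases hg : ∃ t, x t = true ∧ w t = true
  · obtain ⟨t, ht, hwt⟩ := hg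
    have h6 := LC_ge x P N w h1 h2
    have h7 : 1 ≤ ∑ t, (x t && w t).toNat := by
      calc 1 = (x t && w t).toNat := by rw [ht, hwt]; rfl
        _ ≤ _ := Finset.single_le_sum (f := fun t => (x t && w t).toNat)
          (fun _ _ => Nat.zero_le _) (Finset.mem_univ t)
    omega
  · push Not at hg
    have h6 : 2 * cnt x ≤ LC x P N w := by
      apply LC_iso
      · intro t ht
        cases hP : P t
        · rfl
        · obtain ⟨t', ht', h | h⟩ := h3 t ht hP
          · exact absurd h (hg t ht)
          · exact absurd h (hg t' ht')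
      · intro t ht
        cases hP : N t
        · rfl
        · obtain ⟨t', ht', h | h⟩ := h4 t ht hP
          · exact absurd h (hg t ht)
          · exact absurd h (hg t' ht')
    omega

lemma LC_all (x P N w : T → Bool) (h : ∀ t, x t = true) : cnt w ≤ LC x P N w := by
  unfold LC cnt
  apply Finset.sum_le_sum
  intro t _
  rw [h t]
  simp

end Line

section Spine

variable {L : ℕ} [NeZero L]

/-- cost of the spine -/
def SC (x w : ZMod L → Bool) : ℕ := LC x (fun t => x (t - 1)) (fun t => x (t + 1)) w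

lemma cyc_prev (x : ZMod L → Bool) (h : ∃ t, x t = true) (h' : ∃ t, x t = false) :
    ∃ t, x t = true ∧ x (t - 1) = false := by
  by_contra hcon
  push Not at hcon
  obtain ⟨t0, h0⟩ := h
  obtain ⟨t1, h1⟩ := h'
  have hall : ∀ j : ℕ, x (t0 - j) = true := by
    intro j
    induction j with
    | zero => simpa using h0
    | succ j ih =>
      have := hcon _ ih
      push_cast
      rw [← sub_sub]
      simpa using this
  have := hall (t0 - t1).val
  rw [ZMod.natCast_zmod_val, sub_sub_cancel, h1] at this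
  exact absurd this (by decide)

lemma cyc_next (x : ZMod L → Bool) (h : ∃ t, x t = true) (h' : ∃ t, x t = false) :
    ∃ t, x t = true ∧ x (t + 1) = false := by
  by_contra hcon
  push Not at hcon
  obtain ⟨t0, h0⟩ := h
  obtain ⟨t1, h1⟩ := h'
  have hall : ∀ j : ℕ, x (t0 + j) = true := by
    intro j
    induction j with
    | zero => simpa using h0
    | succ j ih =>
      have := hcon _ ih
      push_cast
      rw [← add_assoc]
      simpa using this
  have := hall (t1 - t0).val
  rw [ZMod.natCast_zmod_val, add_sub_cancel, h1] at this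
  exact absurd this (by decide)

lemma SC1 (hL : 5 ≤ L) (x : ZMod L → Bool) (h : 1 ≤ cnt x) :
    min (cnt x) 3 + 2 ≤ SC x (fun _ => true) := by
  have hm3 : min (cnt x) 3 ≤ 3 := min_le_right _ _
  have hml : min (cnt x) 3 ≤ cnt x := min_le_left _ _
  have hx := BG.exists_of_cnt h
  by_cases hc : ∃ t, x t = false
  · have := LC_1 x (fun t => x (t - 1)) (fun t => x (t + 1)) (cyc_prev x hx hc) (cyc_next x hx hc)
    unfold SC
    omega
  · push Not at hc
    have hx' : ∀ t, x t = true := fun t => by simpa using hc t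
    have := LC_all x (fun t => x (t - 1)) (fun t => x (t + 1)) (fun _ => true) hx'
    have h2 : cnt (fun _ : ZMod L => true) = L := by
      unfold cnt
      simp [ZMod.card]
    unfold SC
    omega

lemma SC2 (x w : ZMod L → Bool) (hw : ∀ t, w t = true ∨ w (t + 1) = true) (h3 : 3 ≤ cnt w)
    (h : 2 ≤ cnt x) : 3 ≤ SC x w := by
  have hx := BG.exists_of_cnt (X := x) (by omega)
  by_cases hc : ∃ t, x t = false
  · refine LC_2 x _ _ w (cyc_prev x hx hc) (cyc_next x hx hc) ?_ ?_ h
    · intro t _ hP
      refine ⟨t - 1, hP, ?_⟩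
      have := hw (t - 1)
      rw [sub_add_cancel] at this
      exact this.symm
    · intro t _ hP
      exact ⟨t + 1, hP, hw t⟩
  · push Not at hc
    have hx' : ∀ t, x t = true := fun t => by simpa using hc t
    exact le_trans h3 (LC_all x _ _ w hx')

lemma SC3 (x w : ZMod L → Bool) (h3 : 2 ≤ cnt w) (h : 1 ≤ cnt x) : 2 ≤ SC x w := by
  have hx := BG.exists_of_cnt (X := x) (by omega)
  by_cases hc : ∃ t, x t = false
  · have := LC_ge x (fun t => x (t - 1)) (fun t => x (t + 1)) w (cyc_prev x hx hc)
      (cyc_next x hx hc)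
    unfold SC
    omega
  · push Not at hc
    have hx' : ∀ t, x t = true := fun t => by simpa using hc t
    exact le_trans h3 (LC_all x _ _ w hx')

end Spine

section Arm

variable {m : ℕ}

def prv (x : Fin m → Bool) (s : Fin m) : Bool :=
  if s.val = 0 then false else x ⟨s.val - 1, by have := s.2; omega⟩

def nxt (x : Fin m → Bool) (s : Fin m) : Bool :=
  if h : s.val + 1 < m then x ⟨s.val + 1, h⟩ else false

/-- cost of an arm -/
def AC (x w : Fin m → Bool) : ℕ := LC x (prv x) (nxt x) w

lemma arm_first (x : Fin m → Bool) (h : ∃ s, x s = true) : ∃ s, x s = true ∧ prv x s = false := by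
  obtain ⟨s0, hs0⟩ := h
  obtain ⟨s, hs, hmin⟩ := Finset.exists_min_image ({s | x s = true} : Finset (Fin m)) id
    ⟨s0, by simp [hs0]⟩
  simp only [Finset.mem_filter, Finset.mem_univ, true_and, id] at hs hmin
  refine ⟨s, hs, ?_⟩
  unfold prv
  by_cases h0 : s.val = 0
  · rw [if_pos h0]
  · rw [if_neg h0]
    cases hx : x ⟨s.val - 1, by have := s.2; omega⟩
    · rfl
    · have := hmin _ hx
      rw [Fin.le_def] at this
      simp only at this
      omega

lemma arm_last (x : Fin m → Bool) (h : ∃ s, x s = true) : ∃ s, x s = true ∧ nxt x s = false := by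
  obtain ⟨s0, hs0⟩ := h
  obtain ⟨s, hs, hmax⟩ := Finset.exists_max_image ({s | x s = true} : Finset (Fin m)) id
    ⟨s0, by simp [hs0]⟩
  simp only [Finset.mem_filter, Finset.mem_univ, true_and, id] at hs hmax
  refine ⟨s, hs, ?_⟩
  unfold nxt
  by_cases h0 : s.val + 1 < m
  · rw [dif_pos h0]
    cases hx : x ⟨s.val + 1, h0⟩
    · rfl
    · have := hmax _ hx
      rw [Fin.le_def] at this
      simp only at this
      omega
  · rw [dif_neg h0]

lemma AC1 (x : Fin m → Bool) (h : 1 ≤ cnt x) : cnt x + 2 ≤ AC x (fun _ => true) := by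
  have hx := BG.exists_of_cnt h
  exact LC_1 x _ _ (arm_first x hx) (arm_last x hx)

lemma AC3 (x w : Fin m → Bool) (h : 1 ≤ cnt x) : 2 ≤ AC x w := by
  have hx := BG.exists_of_cnt h
  have := LC_ge x _ _ w (arm_first x hx) (arm_last x hx)
  unfold AC
  omega

lemma AC2 (x w : Fin m → Bool)
    (hw : ∀ s s' : Fin m, s'.val = s.val + 1 → w s = true ∨ w s' = true)
    (h : 2 ≤ cnt x) : 3 ≤ AC x w := by
  have hx := BG.exists_of_cnt (X := x) (by omega)
  refine LC_2 x _ _ w (arm_first x hx) (arm_last x hx) ?_ ?_ h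
  · intro s _ hP
    unfold prv at hP
    by_cases h0 : s.val = 0
    · rw [if_pos h0] at hP
      exact absurd hP (by decide)
    · rw [if_neg h0] at hP
      exact ⟨_, hP, (hw _ s (by simp only; omega)).symm⟩
  · intro s _ hP
    unfold nxt at hP
    by_cases h0 : s.val + 1 < m
    · rw [dif_pos h0] at hP
      exact ⟨_, hP, hw s _ rfl⟩
    · rw [dif_neg h0] at hP
      exact absurd hP (by decide)

end Arm

end Pool.Agent.W831.CP
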