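import Mathlib
import Pool.Agent.W831.CP.LineCost

/-!
The cost in the base graph as a sum of the costs of rings, spine and arms.
-/

open Finset

namespace Pool.Agent.W831.CP

open Pool.Agent.Results.MP_75ff39_co.InfiniteAntichain
open MultiGraph
open BG (cnt cnt_card)

variable {A : Finset ℕ}

/-- value at the other end of a dart -/
def vl (X : Ve (CB A) (NB A) → Bool) (w : Da (CB A) (NB A) → Bool) (d : Da (CB A) (NB A)) : Bool :=
  if bopp d = d then w d else !X (dv (bopp d))

def bcost (X : Ve (CB A) (NB A) → Bool) (w : Da (CB A) (NB A) → Bool) : ℕ :=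
  (∑ c : CB A, ∑ e : CE, dd (X (Sum.inl (c, csrc e))) (X (Sum.inl (c, ctgt e)))) +
    ∑ d : Da (CB A) (NB A), (X (dv d) && vl X w d).toNat

lemma cost_eq_bcost (X : Ve (CB A) (NB A) → Bool) (w : Da (CB A) (NB A) → Bool) :
    (base A).cost X w = bcost X w := rfl

/-- restriction to a ring -/
def xR (X : Ve (CB A) (NB A) → Bool) (a : A) : RV (sz a.1) → Bool :=
  fun v => X (Sum.inl (⟨a, v.1⟩, v.2))
def xU (X : Ve (CB A) (NB A) → Bool) (a : A) : ZMod (sz a.1) × Bool → Bool :=
  fun c => X (Sum.inr (un a c))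
def xY (X : Ve (CB A) (NB A) → Bool) (a : A) : Fin (ln a.1) → Bool :=
  fun s => X (Sum.inr (ar a s))
def xS (X : Ve (CB A) (NB A) → Bool) : ZMod (LL A) → Bool :=
  fun t => X (Sum.inr (sp t))

def wU (w : Da (CB A) (NB A) → Bool) (a : A) : ZMod (sz a.1) × Bool → Bool :=
  fun c => if c = (0, false) then true else w (Sum.inr (un a c, 2))
def wS (w : Da (CB A) (NB A) → Bool) : ZMod (LL A) → Bool :=
  fun t => if t.val ∈ A then true else w (Sum.inr (sp t, 2))
def wY (w : Da (CB A) (NB A) → Bool) (a : A) : Fin (ln a.1) → Bool :=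
  fun s => w (Sum.inr (ar a s, 2))

section Vl

variable (X : Ve (CB A) (NB A) → Bool) (w : Da (CB A) (NB A) → Bool)

lemma vl_core (a : A) (c : ZMod (sz a.1) × Bool) (s : Fin 7) :
    vl X w (Sum.inl (⟨a, c⟩, s)) = !(if s = 3 then xU X a c else xR X a (nb c s, (pm s, 0))) := by
  have h0 : bopp (Sum.inl ((⟨a, c⟩ : CB A), s)) ≠ Sum.inl (⟨a, c⟩, s) :=
    (base A).core_ne (⟨a, c⟩ : CB A) s s
  unfold vl
  rw [if_neg h0, bopp_core]
  by_cases h : s = 3
  · rw [if_pos h, if_pos h]; rfl
  · rw [if_neg h, if_neg h]; rfl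

lemma vl_of_ne {d : Da (CB A) (NB A)} (h : bopp d ≠ d) : vl X w d = !X (dv (bopp d)) := by
  unfold vl
  rw [if_neg h]

lemma vl_of_eq {d : Da (CB A) (NB A)} (h : bopp d = d) : vl X w d = w d := by
  unfold vl
  rw [if_pos h]

lemma vl_u0 (a : A) (c : ZMod (sz a.1) × Bool) :
    vl X w (Sum.inr (un a c, 0)) = !xR X a (c, (3, 0)) := by
  rw [vl_of_ne]
  · rfl
  · rw [bopp_u0]; exact Sum.inl_ne_inr

lemma vl_u1 (a : A) (c : ZMod (sz a.1) × Bool) :
    vl X w (Sum.inr (un a c, 1)) = !xU X a (c.1, !c.2) := by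
  rw [vl_of_ne]
  · rfl
  · rw [bopp_u1]
    intro h
    simp only [un, Sum.inr.injEq, Prod.mk.injEq, Sum.inl.injEq, Sigma.mk.injEq, heq_eq_eq,
      true_and, and_true] at h
    have := congrArg Prod.snd h
    simp at this

lemma vl_u2 (a : A) (c : ZMod (sz a.1) × Bool) :
    vl X w (Sum.inr (un a c, 2)) =
      if c = (0, false) then !xY X a (al a) else w (Sum.inr (un a c, 2)) := by
  by_cases h : c = (0, false)
  · rw [if_pos h, vl_of_ne, bopp_u2, if_pos h]
    · rfl
    · rw [bopp_u2, if_pos h]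
      intro h'
      simp [ar, un] at h'
  · rw [if_neg h, vl_of_eq]
    rw [bopp_u2, if_neg h]

lemma vl_s0 (t : ZMod (LL A)) : vl X w (Sum.inr (sp t, 0)) = !xS X (t - 1) := by
  rw [vl_of_ne]
  · rfl
  · rw [bopp_s0]
    intro h
    simp at h

lemma vl_s1 (t : ZMod (LL A)) : vl X w (Sum.inr (sp t, 1)) = !xS X (t + 1) := by
  rw [vl_of_ne]
  · rfl
  · rw [bopp_s1]
    intro h
    simp at h

lemma vl_s2 (t : ZMod (LL A)) : vl X w (Sum.inr (sp t, 2)) =
    if h : t.val ∈ A then !xY X ⟨t.val, h⟩ (az _) else w (Sum.inr (sp t, 2)) := by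
  by_cases h : t.val ∈ A
  · rw [dif_pos h, vl_of_ne, bopp_s2, dif_pos h]
    · rfl
    · rw [bopp_s2, dif_pos h]
      intro h'
      simp at h'
  · rw [dif_neg h, vl_of_eq]
    rw [bopp_s2, dif_neg h]

lemma vl_a0 (a : A) (s : Fin (ln a.1)) : vl X w (Sum.inr (ar a s, 0)) =
    !(if s.val = 0 then xS X (a.1 : ZMod (LL A))
      else xY X a ⟨s.val - 1, by have := s.2; omega⟩) := by
  rw [vl_of_ne, bopp_a0]
  · by_cases h : s.val = 0
    · rw [if_pos h, if_pos h]; rfl
    · rw [if_neg h, if_neg h]; rfl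
  · rw [bopp_a0]
    intro h
    split_ifs at h <;> simp at h

lemma vl_a1 (a : A) (s : Fin (ln a.1)) : vl X w (Sum.inr (ar a s, 1)) =
    !(if h : s.val + 1 < ln a.1 then xY X a ⟨s.val + 1, h⟩ else xU X a (0, false)) := by
  rw [vl_of_ne, bopp_a1]
  · by_cases h : s.val + 1 < ln a.1
    · rw [dif_pos h, dif_pos h]; rfl
    · rw [dif_neg h, dif_neg h]; rfl
  · rw [bopp_a1]
    intro h
    split_ifs at h <;> simp at h

lemma vl_a2 (a : A) (s : Fin (ln a.1)) : vl X w (Sum.inr (ar a s, 2)) = wY w a s := by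
  rw [vl_of_eq]
  · rfl
  · rfl

end Vl

lemma sum_add_ite {T : Type} [Fintype T] [DecidableEq T] (f g : T → ℕ) (t0 : T) (k : ℕ)
    (h : ∀ t, g t = f t + if t = t0 then k else 0) : ∑ t, f t + k = ∑ t, g t := by
  simp_rw [h]
  rw [Finset.sum_add_distrib]
  simp

/-- The cost in the base graph. -/
lemma bcost_main (X : Ve (CB A) (NB A) → Bool) (w : Da (CB A) (NB A) → Bool) :
    bcost X w + 2 * (∑ a : A, (xS X (a.1 : ZMod (LL A)) && xY X a (az a)).toNat) +
      2 * (∑ a : A, (xU X a (0, false) && xY X a (al a)).toNat) =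
    (∑ a : A, RC (xR X a) (xU X a) (wU w a)) + SC (xS X) (wS w) +
      ∑ a : A, AC (xY X a) (wY w a) := by
  unfold bcost
  -- expand everything
  rw [Fintype.sum_sum_type, Fintype.sum_prod_type (f := fun x : CB A × Fin 7 => _),
    Fintype.sum_prod_type (f := fun x : NB A × Fin 3 => _), Fintype.sum_sum_type,
    Fintype.sum_sum_type]
  simp only [Fintype.sum_sigma, Fin.sum_univ_three]
  -- the pieces
  have hring : ∀ a : A,
      (∑ c : ZMod (sz a.1) × Bool, ∑ e : CE, dd (X (Sum.inl (⟨a, c⟩, csrc e)))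
        (X (Sum.inl (⟨a, c⟩, ctgt e)))) +
      (∑ c : ZMod (sz a.1) × Bool, ∑ s : Fin 7, (X (dv (Sum.inl (⟨a, c⟩, s))) &&
        vl X w (Sum.inl (⟨a, c⟩, s))).toNat) +
      (∑ c : ZMod (sz a.1) × Bool, ((X (dv (Sum.inr (un a c, 0))) &&
        vl X w (Sum.inr (un a c, 0))).toNat + (X (dv (Sum.inr (un a c, 1))) &&
        vl X w (Sum.inr (un a c, 1))).toNat + (X (dv (Sum.inr (un a c, 2))) &&
        vl X w (Sum.inr (un a c, 2))).toNat)) + (xU X a (0, false) && xY X a (al a)).toNat =
      RC (xR X a) (xU X a) (wU w a) := by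
    intro a
    unfold RC
    have h1 : ∀ (c : ZMod (sz a.1) × Bool) (s : Fin 7), (X (dv (Sum.inl (⟨a, c⟩, s))) &&
        vl X w (Sum.inl (⟨a, c⟩, s))).toNat = (xR X a (c, (s, 0)) && !(if s = 3 then xU X a c else
          xR X a (nb c s, (pm s, 0)))).toNat := by
      intro c s
      rw [vl_core]
      rfl
    simp_rw [h1]
    have h2 : (∑ c : ZMod (sz a.1) × Bool, ((X (dv (Sum.inr (un a c, 0))) &&
        vl X w (Sum.inr (un a c, 0))).toNat + (X (dv (Sum.inr (un a c, 1))) &&
        vl X w (Sum.inr (un a c, 1))).toNat + (X (dv (Sum.inr (un a c, 2))) &&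
        vl X w (Sum.inr (un a c, 2))).toNat)) + (xU X a (0, false) && xY X a (al a)).toNat =
        ∑ c : ZMod (sz a.1) × Bool, ((xU X a c && !xR X a (c, (3, 0))).toNat +
          (xU X a c && !xU X a (c.1, !c.2)).toNat + (xU X a c && wU w a c).toNat) := by
      apply sum_add_ite (t0 := ((0, false) : ZMod (sz a.1) × Bool))
      intro c
      rw [vl_u0, vl_u1, vl_u2]
      have e1 : ∀ j, X (dv (Sum.inr (un a c, j))) = xU X a c := fun j => rfl
      rw [e1, e1, e1]
      unfold wU
      by_cases hc : c = (0, false)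
      · rw [if_pos hc, if_pos hc, if_pos hc, hc]
        generalize xU X a (0, false) = p
        generalize xY X a (al a) = q
        cases p <;> cases q <;> simp
      · rw [if_neg hc, if_neg hc, if_neg hc]
        simp
    rw [add_assoc, h2]
    rfl
  have hspine : (∑ t : ZMod (LL A), ((X (dv (Sum.inr (sp t, 0))) &&
        vl X w (Sum.inr (sp t, 0))).toNat + (X (dv (Sum.inr (sp t, 1))) &&
        vl X w (Sum.inr (sp t, 1))).toNat + (X (dv (Sum.inr (sp t, 2))) &&
        vl X w (Sum.inr (sp t, 2))).toNat)) +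
        ∑ a : A, (xS X (a.1 : ZMod (LL A)) && xY X a (az a)).toNat = SC (xS X) (wS w) := by
    have h3 : ∑ a : A, (xS X (a.1 : ZMod (LL A)) && xY X a (az a)).toNat =
        ∑ t : ZMod (LL A), if h : t.val ∈ A then (xS X t && xY X ⟨t.val, h⟩ (az _)).toNat else 0 := by
      symm
      rw [← Finset.sum_filter_add_sum_filter_not (s := (Finset.univ : Finset (ZMod (LL A))))
        (p := fun t => t.val ∈ A)]
      have h4 : ∑ t ∈ ({t | ¬ t.val ∈ A} : Finset (ZMod (LL A))),
          (if h : t.val ∈ A then (xS X t && xY X ⟨t.val, h⟩ (az _)).toNat else 0) = 0 := by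
        apply Finset.sum_eq_zero
        intro t ht
        rw [dif_neg (Finset.mem_filter.1 ht).2]
      rw [h4, add_zero]
      refine Finset.sum_bij' (fun t ht => (⟨t.val, (Finset.mem_filter.1 ht).2⟩ : A))
        (fun a _ => ((a.1 : ℕ) : ZMod (LL A))) ?_ ?_ ?_ ?_ ?_
      · intro t ht; exact Finset.mem_univ _
      · intro a _
        rw [Finset.mem_filter]
        exact ⟨Finset.mem_univ _, by rw [val_cast]; exact a.2⟩
      · intro t ht
        exact ZMod.natCast_zmod_val t
      · intro a _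
        exact Subtype.ext (val_cast a)
      · intro t ht
        rw [dif_pos (Finset.mem_filter.1 ht).2]
        rw [ZMod.natCast_zmod_val]
    rw [h3, ← Finset.sum_add_distrib]
    unfold SC LC
    apply Finset.sum_congr rfl
    intro t _
    rw [vl_s0, vl_s1, vl_s2]
    have e1 : ∀ j, X (dv (Sum.inr (sp t, j))) = xS X t := fun j => rfl
    rw [e1, e1, e1]
    unfold wS
    by_cases h : t.val ∈ A
    · rw [dif_pos h, dif_pos h, if_pos h]
      generalize xS X t = p
      generalize xY X ⟨t.val, h⟩ (az _) = q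
      cases p <;> cases q <;> simp
    · rw [dif_neg h, dif_neg h, if_neg h, add_zero]
  have harm : ∀ a : A, (∑ s : Fin (ln a.1), ((X (dv (Sum.inr (ar a s, 0))) &&
        vl X w (Sum.inr (ar a s, 0))).toNat + (X (dv (Sum.inr (ar a s, 1))) &&
        vl X w (Sum.inr (ar a s, 1))).toNat + (X (dv (Sum.inr (ar a s, 2))) &&
        vl X w (Sum.inr (ar a s, 2))).toNat)) + (xS X (a.1 : ZMod (LL A)) && xY X a (az a)).toNat +
        (xU X a (0, false) && xY X a (al a)).toNat = AC (xY X a) (wY w a) := by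
    intro a
    have h1 := sum_add_ite (fun s : Fin (ln a.1) => (X (dv (Sum.inr (ar a s, 0))) &&
        vl X w (Sum.inr (ar a s, 0))).toNat) (fun s => (xY X a s && !prv (xY X a) s).toNat)
        (az a) (xS X (a.1 : ZMod (LL A)) && xY X a (az a)).toNat (by
      intro s
      rw [vl_a0]
      have e1 : ∀ j, X (dv (Sum.inr (ar a s, j))) = xY X a s := fun j => rfl
      rw [e1]
      unfold prv
      by_cases hs : s.val = 0
      · have : s = az a := Fin.ext hs
        rw [if_pos hs, if_pos hs, if_pos this, this]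
        generalize xS X (a.1 : ZMod (LL A)) = p
        generalize xY X a (az a) = q
        cases p <;> cases q <;> simp
      · have : s ≠ az a := fun h => hs (by rw [h]; rfl)
        rw [if_neg hs, if_neg hs, if_neg this, add_zero])
    have h2 := sum_add_ite (fun s : Fin (ln a.1) => (X (dv (Sum.inr (ar a s, 1))) &&
        vl X w (Sum.inr (ar a s, 1))).toNat) (fun s => (xY X a s && !nxt (xY X a) s).toNat)
        (al a) (xU X a (0, false) && xY X a (al a)).toNat (by
      intro s
      rw [vl_a1]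
      have e1 : ∀ j, X (dv (Sum.inr (ar a s, j))) = xY X a s := fun j => rfl
      rw [e1]
      unfold nxt
      by_cases hs : s.val + 1 < ln a.1
      · have : s ≠ al a := fun h => by
          rw [h] at hs
          unfold al at hs
          simp only at hs
          omega
        rw [dif_pos hs, dif_pos hs, if_neg this, add_zero]
      · have : s = al a := Fin.ext (by unfold al; simp only; have := s.2; omega)
        rw [dif_neg hs, dif_neg hs, if_pos this, this]
        generalize xU X a (0, false) = p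
        generalize xY X a (al a) = q
        cases p <;> cases q <;> simp)
    have h3 : ∑ s : Fin (ln a.1), (X (dv (Sum.inr (ar a s, 2))) &&
        vl X w (Sum.inr (ar a s, 2))).toNat = ∑ s : Fin (ln a.1), (xY X a s && wY w a s).toNat := by
      apply Finset.sum_congr rfl
      intro s _
      rw [vl_a2]
      rfl
    unfold AC LC
    rw [Finset.sum_add_distrib, Finset.sum_add_distrib, Finset.sum_add_distrib,
      Finset.sum_add_distrib, h3, ← h1, ← h2]
    ring
  have hR := Finset.sum_congr (rfl : (Finset.univ : Finset A) = Finset.univ)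
    (fun a _ => hring a)
  have hA := Finset.sum_congr (rfl : (Finset.univ : Finset A) = Finset.univ)
    (fun a _ => harm a)
  rw [← hR, ← hA, ← hspine]
  simp only [Finset.sum_add_distrib]
  unfold un sp ar
  ring

lemma cnt_main (X : Ve (CB A) (NB A) → Bool) :
    cnt X = cnt (xS X) + ∑ a : A, (cnt (xR X a) + cnt (xU X a) + cnt (xY X a)) := by
  unfold cnt
  rw [Fintype.sum_sum_type, Fintype.sum_prod_type (f := fun x : CB A × CV => _),
    Fintype.sum_sum_type, Fintype.sum_sum_type]
  simp only [Fintype.sum_sigma, Finset.sum_add_distrib]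
  have h1 : ∀ a : A, ∑ v : RV (sz a.1), (xR X a v).toNat =
      ∑ c : ZMod (sz a.1) × Bool, ∑ x : CV, (X (Sum.inl (⟨a, c⟩, x))).toNat := by
    intro a
    rw [Fintype.sum_prod_type]
    rfl
  simp_rw [h1]
  unfold xU xY xS un ar sp
  ring

end Pool.Agent.W831.CP
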