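import Mathlib
import Pool.Agent.W831.CP.Expand

/-!
The base graph of `A` satisfies the four inequalities needed for the six-fold thickening.
-/

open Finset

namespace Pool.Agent.W831.CP

open Pool.Agent.Results.MP_75ff39_co.InfiniteAntichain
open MultiGraph
open BG (cnt cnt_card)

variable {A : Finset ℕ}

lemma min_sum {T : Type} (s : Finset T) (f : T → ℕ) :
    min (∑ t ∈ s, f t) 3 ≤ ∑ t ∈ s, min (f t) 3 := by
  classical
  induction s using Finset.induction_on with
  | empty => simp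
  | insert a s ha ih =>
    rw [Finset.sum_insert ha, Finset.sum_insert ha]
    omega

lemma exists_of_sum {T : Type} [Fintype T] (f : T → ℕ) (h : 1 ≤ ∑ t, f t) : ∃ t, 1 ≤ f t := by
  by_contra hcon
  push Not at hcon
  have : ∑ t, f t = 0 := Finset.sum_eq_zero (fun t _ => by have := hcon t; omega)
  omega

lemma single_le {T : Type} [Fintype T] (f : T → ℕ) (t : T) : f t ≤ ∑ t, f t :=
  Finset.single_le_sum (f := f) (fun _ _ => Nat.zero_le _) (Finset.mem_univ t)

lemma and_cases (p q : Bool) : (p && q).toNat ≤ 1 ∧ (1 ≤ (p && q).toNat → p = true ∧ q = true) := by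
  cases p <;> cases q <;> simp

lemma sz_ge (a : ℕ) : 5 ≤ sz a := by unfold sz; omega

section Gen

variable (X : Ve (CB A) (NB A) → Bool) (w : Da (CB A) (NB A) → Bool)

/-- indicator of the edge between the spine and the arm -/
def b1 (a : A) : ℕ := (xS X (a.1 : ZMod (LL A)) && xY X a (az a)).toNat
/-- indicator of the edge between the arm and the ring -/
def b2 (a : A) : ℕ := (xU X a (0, false) && xY X a (al a)).toNat

lemma b1_spec (a : A) : b1 X a ≤ 1 ∧ (1 ≤ b1 X a → 1 ≤ cnt (xS X) ∧ 1 ≤ cnt (xY X a) ∧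
    xS X (a.1 : ZMod (LL A)) = true) := by
  obtain ⟨h1, h2⟩ := and_cases (xS X (a.1 : ZMod (LL A))) (xY X a (az a))
  refine ⟨h1, fun h => ?_⟩
  obtain ⟨h3, h4⟩ := h2 h
  exact ⟨BG.cnt_pos _ h3, BG.cnt_pos _ h4, h3⟩

lemma b2_spec (a : A) : b2 X a ≤ 1 ∧ (1 ≤ b2 X a → 1 ≤ cnt (xU X a) ∧ 1 ≤ cnt (xY X a) ∧
    xU X a (0, false) = true) := by
  obtain ⟨h1, h2⟩ := and_cases (xU X a (0, false)) (xY X a (al a))
  refine ⟨h1, fun h => ?_⟩
  obtain ⟨h3, h4⟩ := h2 h
  exact ⟨BG.cnt_pos _ h3, BG.cnt_pos _ h4, h3⟩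

lemma bmain : bcost X w + ∑ a : A, (2 * b1 X a + 2 * b2 X a) =
    SC (xS X) (wS w) + ∑ a : A, (RC (xR X a) (xU X a) (wU w a) + AC (xY X a) (wY w a)) := by
  have := bcost_main X w
  rw [Finset.sum_add_distrib, Finset.sum_add_distrib, ← Finset.mul_sum, ← Finset.mul_sum]
  unfold b1 b2
  omega

end Gen

theorem good1 (X : Ve (CB A) (NB A) → Bool) (h : 1 ≤ cnt X) :
    min (cnt X) 3 + 2 ≤ bcost X (fun _ => true) := by
  have hm := bmain X (fun _ => true)
  have e1 : ∀ a : A, wU (fun _ => true) a = fun _ => true := by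
    intro a; funext c; simp [wU]
  have e2 : wS (A := A) (fun _ => true) = fun _ => true := by
    funext c; simp [wS]
  have e3 : ∀ a : A, wY (fun _ => true) a = fun _ => true := by
    intro a; funext c; simp [wY]
  rw [e2] at hm
  simp only [e1, e3] at hm
  have hc := cnt_main X
  set ns := cnt (xS X) with hns
  set N : A → ℕ := fun a => cnt (xR X a) + cnt (xU X a) + cnt (xY X a) with hN
  change cnt X = ns + ∑ a, N a at hc
  have key : ∀ a : A, (2 * b1 X a + 2 * b2 X a) + min (N a) 3 +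
      (if ns = 0 ∧ 1 ≤ N a then 2 else 0) ≤ RC (xR X a) (xU X a) (fun _ => true) +
        AC (xY X a) (fun _ => true) := by
    intro a
    have h1 := b1_spec X a
    have h2 := b2_spec X a
    have h3 : 1 ≤ cnt (xR X a) + cnt (xU X a) → min (cnt (xR X a) + cnt (xU X a)) 3 + 2 ≤
      RC (xR X a) (xU X a) (fun _ => true) := RC1 (sz_ge _) _ _
    have h4 : 1 ≤ cnt (xY X a) → cnt (xY X a) + 2 ≤ AC (xY X a) (fun _ => true) := AC1 _
    obtain ⟨h1a, h1b⟩ := h1
    obtain ⟨h2a, h2b⟩ := h2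
    have h1c : 1 ≤ b1 X a → 1 ≤ ns ∧ 1 ≤ cnt (xY X a) := fun h => ⟨(h1b h).1, (h1b h).2.1⟩
    have h2c : 1 ≤ b2 X a → 1 ≤ cnt (xU X a) ∧ 1 ≤ cnt (xY X a) :=
      fun h => ⟨(h2b h).1, (h2b h).2.1⟩
    simp only [hN]
    clear h1b h2b
    split_ifs <;> omega
  have hsum := Finset.sum_le_sum (fun a (_ : a ∈ (Finset.univ : Finset A)) => key a)
  rw [Finset.sum_add_distrib, Finset.sum_add_distrib] at hsum
  have hmin := min_sum (Finset.univ : Finset A) N
  by_cases h0 : ns = 0
  · have h5 : ∃ a, 1 ≤ N a := exists_of_sum N (by omega)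
    obtain ⟨a0, ha0⟩ := h5
    have h6 : 2 ≤ ∑ a : A, (if ns = 0 ∧ 1 ≤ N a then 2 else 0) := by
      refine le_trans ?_ (single_le (fun a : A => if ns = 0 ∧ 1 ≤ N a then 2 else 0) a0)
      rw [if_pos ⟨h0, ha0⟩]
    omega
  · have h7 := SC1 (L := LL A) (by have := ten_le A; omega) (xS X) (by omega)
    omega

lemma SC2' {L : ℕ} [NeZero L] (x w : ZMod L → Bool) (h3 : 3 ≤ cnt w) (t : ZMod L)
    (ht : x t = true) (hwt : w t = true) : 3 ≤ SC x w := by
  by_cases hc : ∃ t, x t = false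
  · have h1 := LC_ge x (fun t => x (t - 1)) (fun t => x (t + 1)) w (cyc_prev x ⟨t, ht⟩ hc)
      (cyc_next x ⟨t, ht⟩ hc)
    have h7 : 1 ≤ ∑ t, (x t && w t).toNat := by
      refine le_trans ?_ (single_le (fun t => (x t && w t).toNat) t)
      rw [ht, hwt]
      decide
    unfold SC
    omega
  · push Not at hc
    have hx' : ∀ t, x t = true := fun t => by simpa using hc t
    exact le_trans h3 (LC_all x _ _ w hx')

theorem gen2 (X : Ve (CB A) (NB A) → Bool) (w : Da (CB A) (NB A) → Bool)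
    (hU : ∀ a k, wU w a (k, false) = true ∨ wU w a (k, true) = true)
    (hS : ∀ t, wS w t = true ∨ wS w (t + 1) = true) (hS3 : 3 ≤ cnt (wS w))
    (hY : ∀ a (s s' : Fin (ln a.1)), s'.val = s.val + 1 → wY w a s = true ∨ wY w a s' = true)
    (h : 2 ≤ cnt X) : 3 ≤ bcost X w := by
  have hm := bmain X w
  have hc := cnt_main X
  set ns := cnt (xS X) with hns
  set N : A → ℕ := fun a => cnt (xR X a) + cnt (xU X a) + cnt (xY X a) with hN
  change cnt X = ns + ∑ a, N a at hc
  set E : A → ℕ := fun a => RC (xR X a) (xU X a) (wU w a) + AC (xY X a) (wY w a) with hE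
  set B : A → ℕ := fun a => 2 * b1 X a + 2 * b2 X a with hB
  have key : ∀ a : A, B a ≤ E a ∧ (b1 X a = 0 → 1 ≤ N a → B a + 1 ≤ E a) ∧
      (ns = 0 → 1 ≤ N a → B a + 2 ≤ E a) ∧ (ns = 0 → 2 ≤ N a → B a + 3 ≤ E a) := by
    intro a
    have h1 := b1_spec X a
    have h2 := b2_spec X a
    have h3 : 1 ≤ cnt (xR X a) + cnt (xU X a) → 2 ≤ RC (xR X a) (xU X a) (wU w a) := by
      apply RC3
      have h10 : wU w a (0, false) = true := by simp [wU]
      have : Fact (1 < sz a.1) := ⟨by have := sz_ge a.1; omega⟩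
      rcases hU a 1 with h11 | h11
      · exact ⟨(0, false), (1, false), by simp, h10, h11⟩
      · exact ⟨(0, false), (1, true), by simp, h10, h11⟩
    have h3' : 2 ≤ cnt (xR X a) + cnt (xU X a) → 3 ≤ RC (xR X a) (xU X a) (wU w a) :=
      fun h => RC2 (sz_ge _) _ _ _ (hU a) (Or.inl h)
    have h3'' : 1 ≤ b2 X a → 3 ≤ RC (xR X a) (xU X a) (wU w a) :=
      fun h => RC2 (sz_ge _) _ _ _ (hU a) (Or.inr ⟨_, (h2.2 h).2.2, by simp [wU]⟩)
    have h4 : 1 ≤ cnt (xY X a) → 2 ≤ AC (xY X a) (wY w a) := AC3 _ _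
    have h4' : 2 ≤ cnt (xY X a) → 3 ≤ AC (xY X a) (wY w a) := AC2 _ _ (hY a)
    obtain ⟨h1a, h1b⟩ := h1
    obtain ⟨h2a, h2b⟩ := h2
    have h1c : 1 ≤ b1 X a → 1 ≤ ns ∧ 1 ≤ cnt (xY X a) := fun h => ⟨(h1b h).1, (h1b h).2.1⟩
    have h2c : 1 ≤ b2 X a → 1 ≤ cnt (xU X a) ∧ 1 ≤ cnt (xY X a) :=
      fun h => ⟨(h2b h).1, (h2b h).2.1⟩
    simp only [hN, hE, hB]
    clear h1b h2b
    refine ⟨by omega, by omega, by omega, by omega⟩
  change bcost X w + ∑ a, B a = SC (xS X) (wS w) + ∑ a, E a at hm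
  have hBE : ∑ a, B a ≤ ∑ a, E a := Finset.sum_le_sum (fun a _ => (key a).1)
  have hone : ∀ (a0 : A) (k : ℕ), B a0 + k ≤ E a0 → ∑ a, B a + k ≤ ∑ a, E a := by
    intro a0 k hk
    have h5 : ∑ a, (B a + if a = a0 then k else 0) ≤ ∑ a, E a := by
      apply Finset.sum_le_sum
      intro a _
      by_cases ha : a = a0
      · rw [if_pos ha, ha]; exact hk
      · rw [if_neg ha]; exact (key a).1
    rw [Finset.sum_add_distrib] at h5
    simpa using h5
  by_cases h0 : ns = 0
  · by_cases h2 : ∃ a, 2 ≤ N a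
    · obtain ⟨a, ha⟩ := h2
      have := hone a 3 ((key a).2.2.2 h0 ha)
      omega
    · push Not at h2
      obtain ⟨a, ha⟩ := exists_of_sum N (by omega)
      have h6 : ∃ a', a' ≠ a ∧ 1 ≤ N a' := by
        by_contra hcon
        push Not at hcon
        have h7 : ∑ a, N a = N a := by
          apply Finset.sum_eq_single a
          · intro b _ hb
            have := hcon b hb
            omega
          · intro hna; exact absurd (Finset.mem_univ a) hna
        have := h2 a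
        omega
      obtain ⟨a', haa, ha'⟩ := h6
      have h5 : ∑ b, (B b + ((if b = a then 2 else 0) + (if b = a' then 2 else 0))) ≤ ∑ b, E b := by
        apply Finset.sum_le_sum
        intro b _
        by_cases hb : b = a
        · have : b ≠ a' := fun h' => haa (by rw [← h', hb])
          rw [if_pos hb, if_neg this]
          have := (key b).2.2.1 h0 (by rw [hb]; exact ha)
          omega
        · rw [if_neg hb]
          by_cases hb' : b = a'
          · rw [if_pos hb']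
            have := (key b).2.2.1 h0 (by rw [hb']; exact ha')
            omega
          · rw [if_neg hb']
            exact (key b).1
      have e7 : ∑ b : A, (B b + ((if b = a then 2 else 0) + (if b = a' then 2 else 0))) =
          ∑ b, B b + 4 := by
        rw [Finset.sum_add_distrib, Finset.sum_add_distrib
          (f := fun b : A => if b = a then 2 else 0)]
        simp
      rw [e7] at h5
      omega
  · have hS2 : 2 ≤ SC (xS X) (wS w) := SC3 _ _ (by omega) (by omega)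
    by_cases hb : ∃ a, 1 ≤ b1 X a
    · obtain ⟨a, ha⟩ := hb
      have h8 := ((b1_spec X a).2 ha).2.2
      have h9 : wS w (a.1 : ZMod (LL A)) = true := by
        unfold wS
        rw [if_pos]
        rw [val_cast]; exact a.2
      have := SC2' (xS X) (wS w) hS3 _ h8 h9
      omega
    · push Not at hb
      by_cases h2 : 2 ≤ ns
      · have := SC2 (xS X) (wS w) hS hS3 h2
        omega
      · obtain ⟨a, ha⟩ := exists_of_sum N (by omega)
        have := hone a 1 ((key a).2.1 (by have := hb a; omega) ha)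
        omega

theorem gen3 (X : Ve (CB A) (NB A) → Bool) (w : Da (CB A) (NB A) → Bool)
    (hU : ∀ a : A, ∃ c c', c ≠ c' ∧ wU w a c = true ∧ wU w a c' = true)
    (hS : 2 ≤ cnt (wS w)) (h : 1 ≤ cnt X) : 2 ≤ bcost X w := by
  have hm := bmain X w
  have hc := cnt_main X
  set ns := cnt (xS X) with hns
  set N : A → ℕ := fun a => cnt (xR X a) + cnt (xU X a) + cnt (xY X a) with hN
  change cnt X = ns + ∑ a, N a at hc
  set E : A → ℕ := fun a => RC (xR X a) (xU X a) (wU w a) + AC (xY X a) (wY w a) with hE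
  set B : A → ℕ := fun a => 2 * b1 X a + 2 * b2 X a with hB
  have key : ∀ a : A, B a ≤ E a ∧ (ns = 0 → 1 ≤ N a → B a + 2 ≤ E a) := by
    intro a
    have h1 := b1_spec X a
    have h2 := b2_spec X a
    have h3 : 1 ≤ cnt (xR X a) + cnt (xU X a) → 2 ≤ RC (xR X a) (xU X a) (wU w a) :=
      RC3 _ _ _ (hU a)
    have h4 : 1 ≤ cnt (xY X a) → 2 ≤ AC (xY X a) (wY w a) := AC3 _ _
    obtain ⟨h1a, h1b⟩ := h1
    obtain ⟨h2a, h2b⟩ := h2
    have h1c : 1 ≤ b1 X a → 1 ≤ ns ∧ 1 ≤ cnt (xY X a) := fun h => ⟨(h1b h).1, (h1b h).2.1⟩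
    have h2c : 1 ≤ b2 X a → 1 ≤ cnt (xU X a) ∧ 1 ≤ cnt (xY X a) :=
      fun h => ⟨(h2b h).1, (h2b h).2.1⟩
    simp only [hN, hE, hB]
    clear h1b h2b
    refine ⟨by omega, by omega⟩
  change bcost X w + ∑ a, B a = SC (xS X) (wS w) + ∑ a, E a at hm
  have hBE : ∑ a, B a ≤ ∑ a, E a := Finset.sum_le_sum (fun a _ => (key a).1)
  by_cases h0 : ns = 0
  · obtain ⟨a0, ha⟩ := exists_of_sum N (by omega)
    have h5 : ∑ a, (B a + if a = a0 then 2 else 0) ≤ ∑ a, E a := by
      apply Finset.sum_le_sum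
      intro a _
      by_cases haa : a = a0
      · rw [if_pos haa, haa]; exact (key a0).2 h0 ha
      · rw [if_neg haa]; exact (key a).1
    rw [Finset.sum_add_distrib] at h5
    have e5 : ∑ b : A, (if b = a0 then 2 else 0) = 2 := by simp
    omega
  · have hS2 : 2 ≤ SC (xS X) (wS w) := SC3 _ _ hS (by omega)
    omega

end Pool.Agent.W831.CP
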