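import Mathlib
import Pool.Agent.W831.CP.Good

/-!
The base graph of `A` satisfies the hypotheses of the thickening.
-/

open Finset

namespace Pool.Agent.W831.CP

open Pool.Agent.Results.MP_75ff39_co.InfiniteAntichain
open MultiGraph
open BG (cnt cnt_card)

variable {A : Finset ℕ}

lemma cnt_ge_inj {V T : Type} [Fintype V] [Fintype T] [DecidableEq V] (w : V → Bool) (g : T → V)
    (hg : Function.Injective g) : ∑ t, (w (g t)).toNat ≤ cnt w := by
  unfold cnt
  rw [← Finset.sum_image (s := (Finset.univ : Finset T)) (f := fun v => (w v).toNat)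
    (fun a _ b _ h => hg h)]
  exact Finset.sum_le_sum_of_subset (Finset.subset_univ _)

lemma val_nat {L : ℕ} [NeZero L] {j : ℕ} (h : j < L) : ((j : ℕ) : ZMod L).val = j :=
  ZMod.val_natCast_of_lt h

lemma val_add_one_mod (t : ZMod (LL A)) : (t + 1).val % 5 = (t.val + 1) % 5 := by
  have : Fact (1 < LL A) := ⟨by have := ten_le A; omega⟩
  rw [ZMod.val_add, ZMod.val_one]
  apply Nat.mod_mod_of_dvd
  unfold LL
  exact ⟨2 * ((∑ a ∈ A, a) + 1), by ring⟩

def w2 (A : Finset ℕ) (i j : Fin 6) : Da (CB A) (NB A) → Bool :=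
  fun d => decide (FF ((base A).dmu d) i ≠ j)
def w3 (A : Finset ℕ) (i k : Fin 6) : Da (CB A) (NB A) → Bool :=
  fun d => decide (FF ((base A).dmu d) i = k)

lemma FF_or (i j : Fin 6) (m m' : Fin 5) (h : m ≠ m') : FF m i ≠ j ∨ FF m' i ≠ j := by
  by_contra hcon
  push Not at hcon
  exact h (FF_inj i m m' (hcon.1.trans hcon.2.symm))

lemma w2U (i j : Fin 6) (a : A) (k : ZMod (sz a.1)) :
    wU (w2 A i j) a (k, false) = true ∨ wU (w2 A i j) a (k, true) = true := by
  have e1 : wU (w2 A i j) a (k, false) = if (k, false) = ((0, false) : ZMod (sz a.1) × Bool) then true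
      else decide (FF (⟨(k.val + 0) % 5, Nat.mod_lt _ (by norm_num)⟩ : Fin 5) i ≠ j) := rfl
  have e2 : wU (w2 A i j) a (k, true) = if (k, true) = ((0, false) : ZMod (sz a.1) × Bool) then true
      else decide (FF (⟨(k.val + 1) % 5, Nat.mod_lt _ (by norm_num)⟩ : Fin 5) i ≠ j) := rfl
  have hne : (⟨(k.val + 0) % 5, Nat.mod_lt _ (by norm_num)⟩ : Fin 5) ≠
      ⟨(k.val + 1) % 5, Nat.mod_lt _ (by norm_num)⟩ := by
    intro h
    have := congrArg Fin.val h
    simp only at this
    omega
  rcases FF_or i j _ _ hne with h | h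
  · left
    rw [e1]
    split_ifs
    · rfl
    · exact decide_eq_true h
  · right
    rw [e2]
    split_ifs
    · rfl
    · exact decide_eq_true h

lemma w2S (i j : Fin 6) (t : ZMod (LL A)) :
    wS (w2 A i j) t = true ∨ wS (w2 A i j) (t + 1) = true := by
  have e1 : ∀ t : ZMod (LL A), wS (w2 A i j) t = if t.val ∈ A then true
      else decide (FF (⟨t.val % 5, Nat.mod_lt _ (by norm_num)⟩ : Fin 5) i ≠ j) := fun t => rfl
  have hne : (⟨t.val % 5, Nat.mod_lt _ (by norm_num)⟩ : Fin 5) ≠
      ⟨(t + 1).val % 5, Nat.mod_lt _ (by norm_num)⟩ := by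
    intro h
    have := congrArg Fin.val h
    simp only at this
    rw [val_add_one_mod] at this
    omega
  rcases FF_or i j _ _ hne with h | h
  · left
    rw [e1]
    split_ifs
    · rfl
    · exact decide_eq_true h
  · right
    rw [e1]
    split_ifs
    · rfl
    · exact decide_eq_true h

lemma w2S3 (i j : Fin 6) : 3 ≤ cnt (wS (w2 A i j)) := by
  have hinj : Function.Injective (fun j : Fin 6 => ((j.val : ℕ) : ZMod (LL A))) := by
    intro a b hab
    have h10 := ten_le A
    have := congrArg ZMod.val hab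
    simp only at this
    rw [val_nat (by omega), val_nat (by omega)] at this
    exact Fin.ext this
  have h1 := cnt_ge_inj (wS (w2 A i j)) _ hinj
  rw [Fin.sum_univ_six] at h1
  have a0 := w2S i j (((0 : Fin 6).val : ℕ) : ZMod (LL A))
  have a2 := w2S i j (((2 : Fin 6).val : ℕ) : ZMod (LL A))
  have a4 := w2S i j (((4 : Fin 6).val : ℕ) : ZMod (LL A))
  have e0 : (((0 : Fin 6).val : ℕ) : ZMod (LL A)) + 1 = (((1 : Fin 6).val : ℕ) : ZMod (LL A)) := by
    simp
  have e2 : (((2 : Fin 6).val : ℕ) : ZMod (LL A)) + 1 = (((3 : Fin 6).val : ℕ) : ZMod (LL A)) := by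
    show ((2 : ℕ) : ZMod (LL A)) + 1 = ((3 : ℕ) : ZMod (LL A))
    push_cast; norm_num
  have e4 : (((4 : Fin 6).val : ℕ) : ZMod (LL A)) + 1 = (((5 : Fin 6).val : ℕ) : ZMod (LL A)) := by
    show ((4 : ℕ) : ZMod (LL A)) + 1 = ((5 : ℕ) : ZMod (LL A))
    push_cast; norm_num
  rw [e0] at a0
  rw [e2] at a2
  rw [e4] at a4
  have hor : ∀ p q : Bool, (p = true ∨ q = true) → 1 ≤ p.toNat + q.toNat := by decide
  have b0 := hor _ _ a0
  have b2 := hor _ _ a2
  have b4 := hor _ _ a4
  omega

lemma w2Y (i j : Fin 6) (a : A) (s s' : Fin (ln a.1)) (h : s'.val = s.val + 1) :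
    wY (w2 A i j) a s = true ∨ wY (w2 A i j) a s' = true := by
  have e1 : ∀ s : Fin (ln a.1), wY (w2 A i j) a s =
      decide (FF (⟨s.val % 5, Nat.mod_lt _ (by norm_num)⟩ : Fin 5) i ≠ j) := fun t => rfl
  have hne : (⟨s.val % 5, Nat.mod_lt _ (by norm_num)⟩ : Fin 5) ≠
      ⟨s'.val % 5, Nat.mod_lt _ (by norm_num)⟩ := by
    intro h
    have := congrArg Fin.val h
    simp only at this
    omega
  rw [e1, e1]
  rcases FF_or i j _ _ hne with h | h
  · exact Or.inl (decide_eq_true h)
  · exact Or.inr (decide_eq_true h)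

lemma w3U (i k : Fin 6) (hik : i ≠ k) (a : A) :
    ∃ c c', c ≠ c' ∧ wU (w3 A i k) a c = true ∧ wU (w3 A i k) a c' = true := by
  obtain ⟨m, hm⟩ := FF_ex i k hik
  have h5 := sz_ge a.1
  refine ⟨(0, false), ?_⟩
  have h0 : wU (w3 A i k) a (0, false) = true := by simp [wU]
  by_cases hm0 : m = 0
  · refine ⟨(((4 : ℕ) : ZMod (sz a.1)), true), by simp, h0, ?_⟩
    have e2 : wU (w3 A i k) a (((4 : ℕ) : ZMod (sz a.1)), true) =
      if (((4 : ℕ) : ZMod (sz a.1)), true) = ((0, false) : ZMod (sz a.1) × Bool) then true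
      else decide (FF (⟨((((4 : ℕ) : ZMod (sz a.1))).val + 1) % 5,
        Nat.mod_lt _ (by norm_num)⟩ : Fin 5) i = k) := rfl
    rw [e2, if_neg (by simp)]
    apply decide_eq_true
    have h4 : (⟨((((4 : ℕ) : ZMod (sz a.1))).val + 1) % 5,
        Nat.mod_lt _ (by norm_num)⟩ : Fin 5) = m := by
      apply Fin.ext
      simp only
      rw [val_nat (by omega), hm0]
      rfl
    rw [h4, hm]
  · have hmv : m.val ≠ 0 := fun h => hm0 (Fin.ext h)
    have hv : ((m.val : ℕ) : ZMod (sz a.1)).val = m.val := val_nat (by have := m.2; omega)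
    have hne : (((m.val : ℕ) : ZMod (sz a.1)), false) ≠ ((0, false) : ZMod (sz a.1) × Bool) := by
      intro h
      have h6 := congrArg (fun c => ZMod.val c.1) h
      simp only [ZMod.val_zero] at h6
      rw [hv] at h6
      exact hmv h6
    refine ⟨(((m.val : ℕ) : ZMod (sz a.1)), false), hne.symm, h0, ?_⟩
    have e2 : wU (w3 A i k) a (((m.val : ℕ) : ZMod (sz a.1)), false) =
      if (((m.val : ℕ) : ZMod (sz a.1)), false) = ((0, false) : ZMod (sz a.1) × Bool) then true
      else decide (FF (⟨((((m.val : ℕ) : ZMod (sz a.1))).val + 0) % 5,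
        Nat.mod_lt _ (by norm_num)⟩ : Fin 5) i = k) := rfl
    rw [e2, if_neg hne]
    apply decide_eq_true
    have h4 : (⟨((((m.val : ℕ) : ZMod (sz a.1))).val + 0) % 5,
        Nat.mod_lt _ (by norm_num)⟩ : Fin 5) = m := by
      apply Fin.ext
      simp only
      rw [hv]
      have := m.2
      omega
    rw [h4, hm]

lemma w3S (i k : Fin 6) (hik : i ≠ k) : 2 ≤ cnt (wS (w3 A i k)) := by
  obtain ⟨m, hm⟩ := FF_ex i k hik
  have h10 := ten_le A
  have hinj : Function.Injective (fun j : Fin 2 => ((m.val + 5 * j.val : ℕ) : ZMod (LL A))) := by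
    intro a b hab
    have := congrArg ZMod.val hab
    simp only at this
    have := m.2
    rw [val_nat (by omega), val_nat (by omega)] at *
    exact Fin.ext (by omega)
  have h1 := cnt_ge_inj (wS (w3 A i k)) _ hinj
  have h2 : ∀ j : Fin 2, wS (w3 A i k) ((m.val + 5 * j.val : ℕ) : ZMod (LL A)) = true := by
    intro j
    have e1 : wS (w3 A i k) ((m.val + 5 * j.val : ℕ) : ZMod (LL A)) =
      if (((m.val + 5 * j.val : ℕ) : ZMod (LL A))).val ∈ A then true
      else decide (FF (⟨(((m.val + 5 * j.val : ℕ) : ZMod (LL A))).val % 5,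
        Nat.mod_lt _ (by norm_num)⟩ : Fin 5) i = k) := rfl
    rw [e1]
    split_ifs
    · rfl
    · apply decide_eq_true
      have h4 : (⟨(((m.val + 5 * j.val : ℕ) : ZMod (LL A))).val % 5,
          Nat.mod_lt _ (by norm_num)⟩ : Fin 5) = m := by
        apply Fin.ext
        simp only
        have := m.2
        rw [val_nat (by omega)]
        omega
      rw [h4, hm]
  rw [Fin.sum_univ_two, h2, h2] at h1
  exact h1

/-- distance in the core from the port `0` decreases along some edge -/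
lemma core_par : ∀ x : CV, x ≠ (0, 0) → ∃ e : CE, ∃ y : CV, CInc x e ∧ CInc y e ∧
    dT 0 y < dT 0 x := by
  decide +kernel

lemma core_const (f : CV → Bool) (h : ∀ e : CE, f (csrc e) = f (ctgt e)) (x : CV) :
    f x = f (0, 0) := by
  have hinc : ∀ (x y : CV) (e : CE), CInc x e → CInc y e → f x = f y := by
    intro x y e hx hy
    rcases hx with rfl | rfl <;> rcases hy with rfl | rfl
    · rfl
    · exact h e
    · exact (h e).symm
    · rfl
  have key : ∀ (N : ℕ) (x : CV), dT 0 x ≤ N → f x = f (0, 0) := by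
    intro N
    induction N with
    | zero =>
      intro x hx
      by_cases h0 : x = (0, 0)
      · rw [h0]
      · obtain ⟨e, y, _, _, hlt⟩ := core_par x h0
        omega
    | succ N ih =>
      intro x hx
      by_cases h0 : x = (0, 0)
      · rw [h0]
      · obtain ⟨e, y, h1, h2, hlt⟩ := core_par x h0
        rw [hinc x y e h1 h2]
        exact ih y (by omega)
  exact key _ x le_rfl

lemma zmod_const {L : ℕ} [NeZero L] (x : ZMod L → Bool) (h : ∀ t, x t = x (t - 1)) (t : ZMod L) :
    x t = x 0 := by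
  cases ht : x t <;> cases h0 : x 0
  · rfl
  · obtain ⟨s, hs, hs'⟩ := cyc_prev x ⟨0, h0⟩ ⟨t, ht⟩
    rw [h s, hs'] at hs
    exact absurd hs (by decide)
  · obtain ⟨s, hs, hs'⟩ := cyc_prev x ⟨t, ht⟩ ⟨0, h0⟩
    rw [h s, hs'] at hs
    exact absurd hs (by decide)
  · rfl

lemma good4 (X : Ve (CB A) (NB A) → Bool) (h1 : ∃ v, X v = true) (h2 : ∃ v, X v = false) :
    1 ≤ bcost X (fun _ => false) := by
  by_contra hcon
  have h0 : bcost X (fun _ => false) = 0 := by omega
  unfold bcost at h0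
  obtain ⟨ha, hb⟩ := Nat.add_eq_zero_iff.1 h0
  have hcore : ∀ (c : CB A) (e : CE), X (Sum.inl (c, csrc e)) = X (Sum.inl (c, ctgt e)) := by
    intro c e
    have h3 := (Finset.sum_eq_zero_iff.1 ha) c (Finset.mem_univ c)
    exact dd_eq_zero ((Finset.sum_eq_zero_iff.1 h3) e (Finset.mem_univ e))
  have hd1 : ∀ d : Da (CB A) (NB A), X (dv d) = true → X (dv (bopp d)) = true := by
    intro d hd
    have h3 := (Finset.sum_eq_zero_iff.1 hb) d (Finset.mem_univ d)
    by_cases h4 : bopp d = d
    · rw [h4]; exact hd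
    · rw [vl_of_ne X _ h4, hd] at h3
      cases hX : X (dv (bopp d))
      · rw [hX] at h3; exact absurd h3 (by decide)
      · rfl
  have hd : ∀ d : Da (CB A) (NB A), X (dv d) = X (dv (bopp d)) := by
    intro d
    have h3 := hd1 d
    have h4 := hd1 (bopp d)
    rw [bopp_bopp] at h4
    cases hX : X (dv d) <;> cases hY : X (dv (bopp d))
    · rfl
    · rw [h4 hY] at hX; exact absurd hX (by decide)
    · rw [h3 hX] at hY; exact absurd hY (by decide)
    · rfl
  -- cores
  have hc : ∀ (a : A) c x, xR X a (c, x) = xR X a (c, (0, 0)) := by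
    intro a c x
    exact core_const (fun x => X (Sum.inl (⟨a, c⟩, x))) (hcore ⟨a, c⟩) x
  have hu : ∀ (a : A) c, xU X a c = xR X a (c, (0, 0)) := by
    intro a c
    rw [← hc a c (3, 0)]
    exact hd (Sum.inr (un a c, 0))
  have hflip : ∀ (a : A) k b, xR X a ((k, b), (0, 0)) = xR X a ((k, !b), (0, 0)) := by
    intro a k b
    rw [← hu, ← hu]
    exact hd (Sum.inr (un a (k, b), 1))
  have hstep : ∀ (a : A) k, xR X a ((k, false), (0, 0)) = xR X a ((k - 1, true), (0, 0)) := by
    intro a k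
    have h5 := hd (Sum.inl (⟨a, (k, false)⟩, 4))
    rw [bopp_core, if_neg (by decide)] at h5
    have h6 : xR X a ((k, false), (4, 0)) = xR X a (nb (k, false) 4, (pm 4, 0)) := h5
    rw [hc, hc a (nb (k, false) 4)] at h6
    exact h6
  have hring : ∀ (a : A) k, xR X a ((k, false), (0, 0)) = xR X a ((0, false), (0, 0)) := by
    intro a k
    refine zmod_const (fun k => xR X a ((k, false), (0, 0))) ?_ k
    intro k
    rw [hstep a k, hflip a (k - 1) true]
    rfl
  have hring' : ∀ (a : A) c, xR X a (c, (0, 0)) = xR X a ((0, false), (0, 0)) := by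
    rintro a ⟨k, b⟩
    cases b
    · exact hring a k
    · rw [hflip a k true]; exact hring a k
  -- spine
  have hsp : ∀ t : ZMod (LL A), xS X t = xS X 0 := by
    intro t
    apply zmod_const
    intro t
    exact hd (Sum.inr (sp t, 0))
  -- arms
  have harm0 : ∀ a : A, xY X a (az a) = xS X 0 := by
    intro a
    rw [← hsp (a.1 : ZMod (LL A))]
    have h5 := hd (Sum.inr (ar a (az a), 0))
    rw [bopp_a0, if_pos (show (az a).val = 0 from rfl)] at h5
    exact h5
  have harm : ∀ (a : A) (m : ℕ) (hm : m < ln a.1), xY X a ⟨m, hm⟩ = xS X 0 := by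
    intro a m
    induction m with
    | zero => intro hm; exact harm0 a
    | succ m ih =>
      intro hm
      rw [← ih (by omega)]
      have h5 := hd (Sum.inr (ar a ⟨m + 1, hm⟩, 0))
      rw [bopp_a0, if_neg (by simp)] at h5
      exact h5
  have hlast : ∀ a : A, xR X a ((0, false), (0, 0)) = xS X 0 := by
    intro a
    rw [← hu, ← harm a (ln a.1 - 1) (by unfold ln; omega)]
    have h5 := hd (Sum.inr (un a (0, false), 2))
    rw [bopp_u2, if_pos rfl] at h5
    exact h5
  have hall : ∀ v, X v = xS X 0 := by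
    rintro (⟨⟨a, c⟩, x⟩ | ⟨a, c⟩ | t | ⟨a, s⟩)
    · exact ((hc a c x).trans (hring' a c)).trans (hlast a)
    · exact ((hu a c).trans (hring' a c)).trans (hlast a)
    · exact hsp t
    · exact harm a s.val s.2
  obtain ⟨v, hv⟩ := h1
  obtain ⟨v', hv'⟩ := h2
  rw [hall v] at hv
  rw [hall v', hv] at hv'
  exact absurd hv' (by decide)

theorem base_good (A : Finset ℕ) : (base A).Good where
  c1 := fun X h => good1 X h
  c2 := fun i j X _ h => gen2 X (w2 A i j) (w2U i j) (w2S i j) (w2S3 i j) (w2Y i j) h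
  c3 := fun i k X hik h => gen3 X (w3 A i k) (w3U i k hik) (w3S i k hik) h
  c4 := fun X h1 h2 => good4 X h1 h2

theorem gr_class (A : Finset ℕ) (k : ℕ) (hk : k ≤ 5) : (gr A).InClass k :=
  BG.thick_class (base_good A) ⟨Sum.inr (sp 0)⟩ k hk

end Pool.Agent.W831.CP
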