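import Mathlib
import Pool.Agent.W831.CP.Good2

/-!
A cycle-continuous map between the graphs of `A` and `B` gives divisibility of ring sizes.
-/

open Finset

namespace Pool.Agent.W831.CP

open Pool.Agent.Results.MP_75ff39_co.InfiniteAntichain
open MultiGraph

variable {A B : Finset ℕ}

/-- colours of the darts of the base graph -/
def bcol : Da (CB B) (NB B) → Fin 3
  | Sum.inl _ => 0
  | Sum.inr (Sum.inl _, j) => j
  | Sum.inr (Sum.inr (Sum.inl t), j) =>
      if j = 2 then 2 else if (t.val + j.val) % 2 = 0 then 0 else 1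
  | Sum.inr (Sum.inr (Sum.inr ⟨_, s⟩), j) =>
      if j = 2 then 1 else if (s.val + j.val) % 2 = 0 then 2 else 0

lemma val_add_one_mod2 (t : ZMod (LL B)) : (t + 1).val % 2 = (t.val + 1) % 2 := by
  have : Fact (1 < LL B) := ⟨by have := ten_le B; omega⟩
  rw [ZMod.val_add, ZMod.val_one]
  apply Nat.mod_mod_of_dvd
  unfold LL
  exact ⟨5 * ((∑ a ∈ B, a) + 1), by ring⟩

lemma bcol_bopp (d : Da (CB B) (NB B)) : bcol (bopp d) = bcol d := by
  rcases d with ⟨⟨a, c⟩, s⟩ | ⟨⟨a, c⟩ | t | ⟨a, s⟩, j⟩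
  · rw [bopp_core]
    by_cases h : s = 3
    · rw [if_pos h]; rfl
    · rw [if_neg h]; rfl
  · rcases fin3 j with rfl | rfl | rfl
    · rfl
    · rfl
    · change bcol (bopp (Sum.inr (un a c, 2))) = 2
      rw [bopp_u2]
      by_cases h : c = (0, false)
      · rw [if_pos h]
        show (if (1 : Fin 3) = 2 then (1 : Fin 3) else if ((al a).val + (1 : Fin 3).val) % 2 = 0 then 2
          else 0) = 2
        rw [if_neg (by decide), if_pos]
        show (ln a.1 - 1 + 1) % 2 = 0
        unfold ln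
        omega
      · rw [if_neg h]; rfl
  · rcases fin3 j with rfl | rfl | rfl
    · show (if (1 : Fin 3) = 2 then (2 : Fin 3) else if ((t - 1).val + 1) % 2 = 0 then 0 else 1) =
        (if (0 : Fin 3) = 2 then (2 : Fin 3) else if (t.val + 0) % 2 = 0 then 0 else 1)
      rw [if_neg (show ¬ (1 : Fin 3) = 2 by decide), if_neg (show ¬ (0 : Fin 3) = 2 by decide),
        ← val_add_one_mod2, sub_add_cancel]
      rfl
    · show (if (0 : Fin 3) = 2 then (2 : Fin 3) else if ((t + 1).val + 0) % 2 = 0 then 0 else 1) =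
        (if (1 : Fin 3) = 2 then (2 : Fin 3) else if (t.val + 1) % 2 = 0 then 0 else 1)
      rw [if_neg (show ¬ (0 : Fin 3) = 2 by decide), if_neg (show ¬ (1 : Fin 3) = 2 by decide),
        ← val_add_one_mod2]
      rfl
    · change bcol (bopp (Sum.inr (sp t, 2))) = 2
      rw [bopp_s2]
      by_cases h : t.val ∈ B
      · rw [dif_pos h]
        rfl
      · rw [dif_neg h]; rfl
  · rcases fin3 j with rfl | rfl | rfl
    · change bcol (bopp (Sum.inr (ar a s, 0))) = _
      rw [bopp_a0]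
      by_cases h : s.val = 0
      · rw [if_pos h]
        show (2 : Fin 3) = (if (0 : Fin 3) = 2 then (1 : Fin 3) else if (s.val + 0) % 2 = 0 then 2
          else 0)
        rw [if_neg (by decide), if_pos (by omega)]
      · rw [if_neg h]
        show (if (1 : Fin 3) = 2 then (1 : Fin 3) else if (s.val - 1 + 1) % 2 = 0 then 2
          else 0) = (if (0 : Fin 3) = 2 then (1 : Fin 3) else if (s.val + 0) % 2 = 0 then 2
          else 0)
        rw [if_neg (show ¬ (1 : Fin 3) = 2 by decide), if_neg (show ¬ (0 : Fin 3) = 2 by decide)]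
        have : s.val - 1 + 1 = s.val + 0 := by omega
        rw [this]
    · change bcol (bopp (Sum.inr (ar a s, 1))) = _
      rw [bopp_a1]
      by_cases h : s.val + 1 < ln a.1
      · rw [dif_pos h]
        rfl
      · rw [dif_neg h]
        show (2 : Fin 3) = (if (1 : Fin 3) = 2 then (1 : Fin 3) else if (s.val + 1) % 2 = 0 then 2
          else 0)
        rw [if_neg (by decide), if_pos]
        have := s.2
        have h1 : s.val + 1 = ln a.1 := by omega
        rw [h1]
        unfold ln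
        omega
    · rfl

/-- the neutral colouring of the graph of `B` -/
def tcol (D : Da (base B).thick.C (base B).thick.N) : Fin 3 := bcol (B := B) (bs (C := CB B) (N := NB B) D)

lemma ncol (B : Finset ℕ) : DG.NCol (base B).thick (tcol (B := B)) where
  inv := by
    have key : ∀ (d : Da (CB B) (NB B)) (i : Fin 6),
        bcol (bs ((base B).tinv (lift i d))) = bcol d := by
      intro d i
      by_cases h : bopp d = d
      · have e := congrArg (fun x : Da (CB B × Fin 6) (NB B × Fin 6) => bcol (bs x))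
          ((base B).tinv_lift_fix d i h)
        exact e.trans (congrArg bcol (bs_lift d _))
      · have e := congrArg (fun x : Da (CB B × Fin 6) (NB B × Fin 6) => bcol (bs x))
          ((base B).tinv_lift_ne d i h)
        exact (e.trans (congrArg bcol (bs_lift (bopp d) _))).trans (bcol_bopp d)
    intro D
    have h1 := key (bs (C := CB B) (N := NB B) D) (shd (C := CB B) (N := NB B) D)
    have e : bcol (bs ((base B).tinv (lift (C := CB B) (N := NB B) (shd D) (bs D)))) =
        bcol (bs ((base B).tinv D)) :=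
      congrArg (fun x : Da (CB B × Fin 6) (NB B × Fin 6) => bcol (bs ((base B).tinv x))) (lift_bs D)
    exact e.symm.trans h1
  core := fun c s => rfl
  neut := by
    rintro ⟨⟨a, c⟩ | t | ⟨a, s⟩, i⟩ j k h
    · exact h
    · change (if j = 2 then (2 : Fin 3) else if (t.val + j.val) % 2 = 0 then 0 else 1) =
        (if k = 2 then (2 : Fin 3) else if (t.val + k.val) % 2 = 0 then 0 else 1) at h
      rcases fin3 j with rfl | rfl | rfl <;> rcases fin3 k with rfl | rfl | rfl <;>
        rcases Nat.mod_two_eq_zero_or_one t.val with hp | hp <;>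
        simp [Nat.add_mod, hp] at h ⊢
    · change (if j = 2 then (1 : Fin 3) else if (s.val + j.val) % 2 = 0 then 2 else 0) =
        (if k = 2 then (1 : Fin 3) else if (s.val + k.val) % 2 = 0 then 2 else 0) at h
      rcases fin3 j with rfl | rfl | rfl <;> rcases fin3 k with rfl | rfl | rfl <;>
        rcases Nat.mod_two_eq_zero_or_one s.val with hp | hp <;>
        simp [Nat.add_mod, hp] at h ⊢

/-- the neighbouring core in the graph of `A` -/
def nbT (C : CB A × Fin 6) (s : Fin 7) : CB A × Fin 6 := (⟨C.1.1, nb C.1.2 s⟩, C.2)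

lemma nbT_ne (C : CB A × Fin 6) (s : Fin 7) : nbT C s ≠ C := by
  intro h
  have h1 := congrArg Prod.fst h
  obtain ⟨⟨a, c⟩, i⟩ := C
  simp only [nbT, Sigma.mk.injEq, heq_eq_eq, true_and] at h1
  exact nb_ne _ _ h1

lemma inv_core (C : CB A × Fin 6) (s : Fin 7) (h : s ≠ 3) :
    (base A).thick.inv (Sum.inl (C, s)) = Sum.inl (nbT C s, pm s) := by
  obtain ⟨⟨a, c⟩, i⟩ := C
  have h1 : bopp (Sum.inl ((⟨a, c⟩ : CB A), s)) ≠ Sum.inl (⟨a, c⟩, s) :=
    (base A).core_ne (⟨a, c⟩ : CB A) s s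
  have h2 := (base A).tinv_lift_ne (Sum.inl ((⟨a, c⟩ : CB A), s)) i h1
  have h3 : (base A).opp (Sum.inl ((⟨a, c⟩ : CB A), s)) = Sum.inl (⟨a, nb c s⟩, pm s) := by
    show bopp (Sum.inl ((⟨a, c⟩ : CB A), s)) = Sum.inl (⟨a, nb c s⟩, pm s)
    rw [bopp_core, if_neg h]
  rw [h3] at h2
  exact h2

lemma inv_core3 (C : CB A × Fin 6) : ∃ x, (base A).thick.inv (Sum.inl (C, 3)) = Sum.inr x := by
  obtain ⟨⟨a, c⟩, i⟩ := C
  have h1 : bopp (Sum.inl ((⟨a, c⟩ : CB A), 3)) ≠ Sum.inl (⟨a, c⟩, 3) :=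
    (base A).core_ne (⟨a, c⟩ : CB A) 3 3
  have h2 := (base A).tinv_lift_ne (Sum.inl ((⟨a, c⟩ : CB A), 3)) i h1
  exact ⟨_, h2⟩

lemma ed_cases (C C' : CB B × Fin 6) (s t : Fin 7)
    (h : (base B).thick.ed (Sum.inl (C, s)) = (base B).thick.ed (Sum.inl (C', t))) :
    (C' = C ∧ t = s) ∨ (s ≠ 3 ∧ C' = nbT C s ∧ t = pm s) := by
  rw [DG.ed_eq] at h
  rcases h with h | h
  · left
    have h' : (Sum.inl (C', t) : Da (CB B × Fin 6) (NB B × Fin 6)) = Sum.inl (C, s) := h
    exact Prod.mk.inj (Sum.inl.inj h')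
  · right
    by_cases hs : s = 3
    · exfalso
      subst hs
      obtain ⟨x, hx⟩ := inv_core3 C
      rw [hx] at h
      exact absurd h Sum.inl_ne_inr
    · rw [inv_core C s hs] at h
      refine ⟨hs, ?_⟩
      have h' : (Sum.inl (C', t) : Da (CB B × Fin 6) (NB B × Fin 6)) =
        Sum.inl (nbT C s, pm s) := h
      exact Prod.mk.inj (Sum.inl.inj h')

set_option synthInstance.maxSize 2000 in
lemma lab_low : ∀ x2, ladj x2 3 → ∀ x1, ladj x1 x2 → x1 ≠ 3 → ∀ x0, ladj x0 x1 → x0 ≠ x2 →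
    ladj (pm x0) (pm x2) → ladj (pm x2) (pm x1) → x0 = 0 ∧ x1 = 1 ∧ x2 = 2 := by
  decide +kernel

set_option synthInstance.maxSize 2000 in
lemma lab_high : ∀ x4, ladj 3 x4 → 2 ≠ x4 → ∀ x5, ladj x4 x5 → 3 ≠ x5 → ∀ x6, ladj x5 x6 →
    x4 ≠ x6 → x4 = 4 ∧ x5 = 5 ∧ x6 = 6 := by
  decide +kernel

lemma nbT_lt (C : CB A × Fin 6) (s t : Fin 7) (hs : s < 4) (ht : t < 4) : nbT C s = nbT C t := by
  obtain ⟨⟨a, c⟩, i⟩ := C
  unfold nbT
  simp only
  rw [nb_lt c s hs, nb_lt c t ht]

lemma nbT_ge (C : CB A × Fin 6) (s t : Fin 7) (hs : ¬ s < 4) (ht : ¬ t < 4) :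
    nbT C s = nbT C t := by
  obtain ⟨⟨a, c⟩, i⟩ := C
  unfold nbT
  simp only
  rw [nb_ge c s hs, nb_ge c t ht]

/-- the map on cores commutes with the two neighbour maps -/
lemma core_cov (τ : CB A × Fin 6 → CB B × Fin 6) (l : CB A × Fin 6 → Fin 7 → Fin 7)
    (hinj : ∀ c, Function.Injective (l c)) (hadj : ∀ c s, ladj (l c s) (l c (s + 1)))
    (hboth : ∀ C s, s ≠ 3 → (τ (nbT C s) = τ C ∧ l (nbT C s) (pm s) = l C s) ∨
      (l C s ≠ 3 ∧ τ (nbT C s) = nbT (τ C) (l C s) ∧ l (nbT C s) (pm s) = pm (l C s))) :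
    ∀ C s, s ≠ 3 → τ (nbT C s) = nbT (τ C) s := by
  have hnofold : ∀ C s, s ≠ 3 → τ (nbT C s) ≠ τ C := by
    intro C s hs3 hfold
    have hfold' : ∀ t, t ≠ 3 → nbT C t = nbT C s → l (nbT C s) (pm t) = l C t := by
      intro t ht3 ht
      rcases hboth C t ht3 with h1 | h1
      · rw [← ht]; exact h1.2
      · exfalso
        rw [ht, hfold] at h1
        exact nbT_ne _ _ h1.2.1.symm
    by_cases hs : s < 4
    · have e0 := hfold' 0 (by decide) (nbT_lt C 0 s (by decide) hs)
      have e1 := hfold' 1 (by decide) (nbT_lt C 1 s (by decide) hs)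
      have e2 := hfold' 2 (by decide) (nbT_lt C 2 s (by decide) hs)
      have a0 := hadj C 0
      have a1 := hadj C 1
      have b0 := hadj (nbT C s) 0
      have p0 : pm 0 = 0 := by decide
      have p2 : pm 2 = 1 := by decide
      have q0 : (0 : Fin 7) + 1 = 1 := by decide
      have q1 : (1 : Fin 7) + 1 = 2 := by decide
      rw [p0] at e0
      rw [p2] at e2
      rw [q0] at a0 b0
      rw [q1] at a1
      rw [e0, e2] at b0
      exact no_triangle _ _ _ a0 a1 b0
    · have e4 := hfold' 4 (by decide) (nbT_ge C 4 s (by decide) hs)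
      have e6 := hfold' 6 (by decide) (nbT_ge C 6 s (by decide) hs)
      have a4 := hadj C 4
      have a5 := hadj C 5
      have b4 := hadj (nbT C s) 4
      have p4 : pm 4 = 4 := by decide
      have p6 : pm 6 = 5 := by decide
      have q4 : (4 : Fin 7) + 1 = 5 := by decide
      have q5 : (5 : Fin 7) + 1 = 6 := by decide
      rw [p4] at e4
      rw [p6] at e6
      rw [q4] at a4 b4
      rw [q5] at a5
      rw [e4, e6] at b4
      exact no_triangle _ _ _ a4 a5 b4
  have hmove : ∀ C s, s ≠ 3 → l C s ≠ 3 ∧ τ (nbT C s) = nbT (τ C) (l C s) ∧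
      l (nbT C s) (pm s) = pm (l C s) := by
    intro C s hs
    rcases hboth C s hs with h1 | h1
    · exact absurd h1.1 (hnofold C s hs)
    · exact h1
  intro C s hs
  have hne : ∀ s t : Fin 7, s ≠ t → l C s ≠ l C t := fun s t h h' => h (hinj C h')
  have e0 := (hmove C 0 (by decide)).2.2
  have e1 := (hmove C 1 (by decide)).2.2
  have e2 := (hmove C 2 (by decide)).2.2
  rw [nbT_lt C 1 0 (by decide) (by decide)] at e1
  rw [nbT_lt C 2 0 (by decide) (by decide)] at e2
  have b0 := hadj (nbT C 0) 0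
  have b1 := hadj (nbT C 0) 1
  have p0 : pm 0 = 0 := by decide
  have p1 : pm 1 = 2 := by decide
  have p2 : pm 2 = 1 := by decide
  have q0 : (0 : Fin 7) + 1 = 1 := by decide
  have q1 : (1 : Fin 7) + 1 = 2 := by decide
  rw [p0] at e0
  rw [p1] at e1
  rw [p2] at e2
  rw [q0, e0, e2] at b0
  rw [q1, e2, e1] at b1
  have h3 : l C 3 = 3 := by
    obtain ⟨t, ht⟩ := (Finite.injective_iff_surjective.1 (hinj C)) 3
    by_cases ht3 : t = 3
    · rw [← ht3]; rw [ht, ht3]
    · exact absurd ht (hmove C t ht3).1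
  have a0 := hadj C 0
  have a1 := hadj C 1
  have a2 := hadj C 2
  have a3 := hadj C 3
  have a4 := hadj C 4
  have a5 := hadj C 5
  have q2 : (2 : Fin 7) + 1 = 3 := by decide
  have q3 : (3 : Fin 7) + 1 = 4 := by decide
  have q4 : (4 : Fin 7) + 1 = 5 := by decide
  have q5 : (5 : Fin 7) + 1 = 6 := by decide
  rw [q0] at a0
  rw [q1] at a1
  rw [q2, h3] at a2
  rw [q3, h3] at a3
  rw [q4] at a4
  rw [q5] at a5
  obtain ⟨h0, h1, h2⟩ := lab_low (l C 2) a2 (l C 1) a1 (hmove C 1 (by decide)).1 (l C 0) a0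
    (hne _ _ (by decide)) b0 b1
  obtain ⟨h4, h5, h6⟩ := lab_high (l C 4) a3 (by rw [← h2]; exact hne _ _ (by decide)) (l C 5) a4
    (by rw [← h3]; exact hne _ _ (by decide)) (l C 6) a5 (hne _ _ (by decide))
  have hls : l C s = s := by
    have : ∀ s : Fin 7, s = 0 ∨ s = 1 ∨ s = 2 ∨ s = 3 ∨ s = 4 ∨ s = 5 ∨ s = 6 := by decide
    rcases this s with rfl | rfl | rfl | rfl | rfl | rfl | rfl <;> assumption
  have := (hmove C s hs).2.1
  rw [hls] at this
  exact this

/-- two steps along the ring -/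
def stpT (C : CB A × Fin 6) : CB A × Fin 6 := nbT (nbT C 0) 4

lemma stpT_false (a : A) (k : ZMod (sz a.1)) (i : Fin 6) (t : ℕ) :
    stpT^[t] ((⟨a, (k, false)⟩, i) : CB A × Fin 6) = (⟨a, (k + t, false)⟩, i) := by
  induction t with
  | zero => simp
  | succ t ih =>
    rw [Function.iterate_succ_apply', ih]
    unfold stpT nbT
    simp only [nb]
    simp [add_assoc]

lemma stpT_true (a : A) (k : ZMod (sz a.1)) (i : Fin 6) (t : ℕ) :
    stpT^[t] ((⟨a, (k, true)⟩, i) : CB A × Fin 6) = (⟨a, (k - t, true)⟩, i) := by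
  induction t with
  | zero => simp
  | succ t ih =>
    rw [Function.iterate_succ_apply', ih]
    unfold stpT nbT
    simp only [nb]
    simp [sub_sub]

theorem dvd_of_le' (h : (gr A).Le (gr B)) (a : ℕ) (ha : a ∈ A) : ∃ b ∈ B, sz b ∣ sz a := by
  obtain ⟨f, hf⟩ := h
  choose φ hφ1 hφ2 using
    fun v => star_of_cc (G := gr A) (H := gr B) (base A).thick.cubic (base B).thick.cubic
      (BG.thick_cut5 (base_good B)) BG.thick_even f hf v
  have hS : DG.SMap (base A).thick (base B).thick f φ := ⟨hφ1, hφ2⟩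
  obtain ⟨τ, l, hinj, hadj, hl⟩ := DG.rigid (ncol B) hS
  have hboth : ∀ (C : CB A × Fin 6) s, s ≠ 3 → (τ (nbT C s) = τ C ∧ l (nbT C s) (pm s) = l C s) ∨
      (l C s ≠ 3 ∧ τ (nbT C s) = nbT (τ C) (l C s) ∧ l (nbT C s) (pm s) = pm (l C s)) := by
    intro C s hs
    apply ed_cases
    have e1 := hl C s
    have e2 := hl (nbT C s) (pm s)
    have e3 : (base A).thick.ed (Sum.inl (nbT C s, pm s)) =
        (base A).thick.ed (Sum.inl (C, s)) := by
      rw [← DG.ed_inv (base A).thick (Sum.inl (C, s))]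
      exact congrArg _ (inv_core C s hs).symm
    exact e1.symm.trans ((congrArg f e3).symm.trans e2)
  have hcov := core_cov τ l hinj hadj hboth
  have hstp : ∀ C, τ (stpT C) = stpT (τ C) := by
    intro C
    unfold stpT
    rw [hcov _ 4 (by decide), hcov _ 0 (by decide)]
  have hiter : ∀ (t : ℕ) C, τ (stpT^[t] C) = stpT^[t] (τ C) := by
    intro t
    induction t with
    | zero => intro C; rfl
    | succ t ih =>
      intro C
      rw [Function.iterate_succ_apply', Function.iterate_succ_apply', hstp, ih]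
  have h1 := stpT_false (A := A) ⟨a, ha⟩ 0 0 (sz a)
  rw [zero_add, ZMod.natCast_self] at h1
  have h2 := hiter (sz a) ((⟨⟨a, ha⟩, (0, false)⟩, 0) : CB A × Fin 6)
  rw [h1] at h2
  rcases hτ : τ ((⟨⟨a, ha⟩, (0, false)⟩, 0) : CB A × Fin 6) with ⟨⟨⟨b, hb⟩, ⟨k, β⟩⟩, i⟩
  rw [hτ] at h2
  refine ⟨b, hb, ?_⟩
  rw [← ZMod.natCast_eq_zero_iff]
  cases β
  · have h3 : ((⟨⟨b, hb⟩, (k, false)⟩, i) : CB B × Fin 6) =
        (⟨⟨b, hb⟩, (k + ((sz a : ℕ) : ZMod (sz b)), false)⟩, i) :=
      h2.trans (stpT_false (A := B) ⟨b, hb⟩ k i (sz a))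
    simp only [Prod.mk.injEq, Sigma.mk.injEq, heq_eq_eq, true_and, and_true] at h3
    exact left_eq_add.1 h3
  · have h3 : ((⟨⟨b, hb⟩, (k, true)⟩, i) : CB B × Fin 6) =
        (⟨⟨b, hb⟩, (k - ((sz a : ℕ) : ZMod (sz b)), true)⟩, i) :=
      h2.trans (stpT_true (A := B) ⟨b, hb⟩ k i (sz a))
    simp only [Prod.mk.injEq, Sigma.mk.injEq, heq_eq_eq, true_and, and_true] at h3
    exact sub_eq_self.1 h3.symm

end Pool.Agent.W831.CP
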