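import Mathlib
import Pool.Agent.W831.CP.Div

/-!
Walks in the line graph of a cubic graph, and maps that are bijective on stars.
-/

open Finset

namespace Pool.Agent.W831.CP

open Pool.Agent.Results.MP_75ff39_co.InfiniteAntichain
open MultiGraph

section Walks

variable (H : MultiGraph)

/-- two different edges with a common vertex -/
def EAdj (e e' : H.E) : Prop := e ≠ e' ∧ ∃ x, H.Inc x e ∧ H.Inc x e'

/-- a walk of length `n` in the line graph -/
def Wk (n : ℕ) (e e' : H.E) : Prop :=
  ∃ w : ℕ → H.E, w 0 = e ∧ w n = e' ∧ ∀ k, k < n → EAdj H (w k) (w (k + 1))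

variable {H}

lemma EAdj.symm {e e' : H.E} (h : EAdj H e e') : EAdj H e' e :=
  ⟨h.1.symm, by obtain ⟨x, h1, h2⟩ := h.2; exact ⟨x, h2, h1⟩⟩

lemma Wk.refl (e : H.E) : Wk H 0 e e := ⟨fun _ => e, rfl, rfl, fun k hk => by omega⟩

lemma Wk.one {e e' : H.E} (h : EAdj H e e') : Wk H 1 e e' := by
  refine ⟨fun k => if k = 0 then e else e', rfl, rfl, ?_⟩
  intro k hk
  have : k = 0 := by omega
  subst this
  exact h

lemma Wk.trans {n m : ℕ} {e e' e'' : H.E} (h : Wk H n e e') (h' : Wk H m e' e'') :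
    Wk H (n + m) e e'' := by
  obtain ⟨w, h0, hn, hw⟩ := h
  obtain ⟨w', h0', hm', hw'⟩ := h'
  refine ⟨fun k => if k ≤ n then w k else w' (k - n), ?_, ?_, ?_⟩
  · simp [h0]
  · by_cases hm : m = 0
    · subst hm
      simp only [add_zero, le_refl, if_true]
      rw [hn, ← hm', h0']
    · have : ¬ n + m ≤ n := by omega
      simp only [this, if_false]
      rw [← hm']
      congr 1
      omega
  · intro k hk
    by_cases h1 : k + 1 ≤ n
    · simp only [h1, show k ≤ n by omega, if_true]
      exact hw k (by omega)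
    · by_cases h2 : k ≤ n
      · have : k = n := by omega
        subst this
        simp only [le_refl, if_true, h1, if_false]
        rw [hn, ← h0', show k + 1 - k = 0 + 1 by omega]
        exact hw' 0 (by omega)
      · simp only [h2, h1, if_false]
        rw [show k + 1 - n = k - n + 1 by omega]
        exact hw' (k - n) (by omega)

lemma Wk.symm {n : ℕ} {e e' : H.E} (h : Wk H n e e') : Wk H n e' e := by
  obtain ⟨w, h0, hn, hw⟩ := h
  refine ⟨fun k => w (n - k), by simpa using hn, by simpa using h0, ?_⟩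
  intro k hk
  have := (hw (n - (k + 1)) (by omega)).symm
  rw [show n - (k + 1) + 1 = n - k by omega] at this
  exact this

lemma exists_third (hc : H.Cubic) (x : H.V) (e e' : H.E) (he : H.Inc x e) (he' : H.Inc x e') :
    ∃ t, H.Inc x t ∧ t ≠ e ∧ t ≠ e' := by
  classical
  by_contra hcon
  push Not at hcon
  have h3 := hc x
  have hsub : ({f | H.Inc x f} : Finset H.E) ⊆ {e, e'} := by
    intro f hf
    have hf' := (Finset.mem_filter.1 hf).2
    rw [Finset.mem_insert, Finset.mem_singleton]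
    by_cases h : f = e
    · exact Or.inl h
    · exact Or.inr (hcon f hf' h)
  have h4 := Finset.card_le_card hsub
  have h5 : #({e, e'} : Finset H.E) ≤ 2 := Finset.card_le_two
  omega

lemma Wk.two (hc : H.Cubic) (e : H.E) : Wk H 2 e e := by
  obtain ⟨t, h1, h2, _⟩ := exists_third hc (H.src e) e e (Or.inl rfl) (Or.inl rfl)
  have h : EAdj H e t := ⟨h2.symm, H.src e, Or.inl rfl, h1⟩
  exact (Wk.one h).trans (Wk.one h.symm)

lemma Wk.three (hc : H.Cubic) (e : H.E) : Wk H 3 e e := by
  obtain ⟨t, h1, h2, _⟩ := exists_third hc (H.src e) e e (Or.inl rfl) (Or.inl rfl)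
  obtain ⟨s, h3, h4, h5⟩ := exists_third hc (H.src e) e t (Or.inl rfl) h1
  have ha : EAdj H e t := ⟨h2.symm, H.src e, Or.inl rfl, h1⟩
  have hb : EAdj H t s := ⟨h5.symm, H.src e, h1, h3⟩
  have hd : EAdj H s e := ⟨h4, H.src e, h3, Or.inl rfl⟩
  exact ((Wk.one ha).trans (Wk.one hb)).trans (Wk.one hd)

lemma Wk.loop (hc : H.Cubic) (e : H.E) : ∀ n, Wk H (n + 2) e e := by
  intro n
  induction n using Nat.strong_induction_on with
  | _ n ih =>
    rcases Nat.lt_or_ge n 2 with h | h
    · have : n = 0 ∨ n = 1 := by omega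
      rcases this with rfl | rfl
      · exact Wk.two hc e
      · exact Wk.three hc e
    · have h1 := ih (n - 2) (by omega)
      have h2 := h1.trans (Wk.two hc e)
      rw [show n - 2 + 2 + 2 = n + 2 by omega] at h2
      exact h2

lemma Wk.pad (hc : H.Cubic) {n m : ℕ} {e e' : H.E} (h : Wk H n e e') (hm : n + 2 ≤ m) :
    Wk H m e e' := by
  have h1 := h.trans (Wk.loop hc e' (m - n - 2))
  rw [show n + (m - n - 2 + 2) = m by omega] at h1
  exact h1

/-- a walk given by a function -/
lemma Wk.of_fun (w : ℕ → H.E) (j n : ℕ) (hw : ∀ k, k < n → EAdj H (w (j + k)) (w (j + k + 1))) :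
    Wk H n (w j) (w (j + n)) :=
  ⟨fun k => w (j + k), by simp, rfl, fun k hk => hw k hk⟩

end Walks

lemma cc_of_star {G H : MultiGraph} (hG : G.Cubic) (hH : H.Cubic) (f : G.E → H.E) (g : G.V → H.V)
    (h1 : ∀ v e, G.Inc v e → H.Inc (g v) (f e))
    (h2 : ∀ v e e', G.Inc v e → G.Inc v e' → f e = f e' → e = e') : IsCC G H f := by
  classical
  intro φ hφ v
  have himg : ({e | G.Inc v e} : Finset G.E).image f = ({e | H.Inc (g v) e} : Finset H.E) := by
    apply Finset.eq_of_subset_of_card_le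
    · intro y hy
      rw [Finset.mem_image] at hy
      obtain ⟨e, he, rfl⟩ := hy
      exact Finset.mem_filter.2 ⟨Finset.mem_univ _, h1 v e (Finset.mem_filter.1 he).2⟩
    · rw [hH (g v), Finset.card_image_of_injOn, hG v]
      intro e he e' he' hee
      exact h2 v e e' (Finset.mem_filter.1 he).2 (Finset.mem_filter.1 he').2 hee
  rw [← hφ (g v), ← himg, Finset.sum_image]
  intro e he e' he' hee
  exact h2 v e e' (Finset.mem_filter.1 he).2 (Finset.mem_filter.1 he').2 hee

namespace BG

variable (B : BG)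

/-- A map on the base graph that is bijective on stars extends to the thickening. -/
theorem le_of_base (H : MultiGraph) (hH : H.Cubic) (g : Ve B.C B.N → H.V)
    (y : Da B.C B.N → H.E) (yi : B.C × CE → H.E)
    (hopp : ∀ d, y (B.opp d) = y d)
    (hinc1 : ∀ c x e, CInc x e → H.Inc (g (Sum.inl (c, x))) (yi (c, e)))
    (hinc2 : ∀ d, H.Inc (g (dv d)) (y d))
    (hinj1 : ∀ c x e e', CInc x e → CInc x e' → yi (c, e) = yi (c, e') → e = e')
    (hinj2 : ∀ c s e, yi (c, e) ≠ y (Sum.inl (c, s)))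
    (hinj3 : ∀ v j k, y (Sum.inr (v, j)) = y (Sum.inr (v, k)) → j = k) :
    B.thick.graph.Le H := by
  let f : B.thick.Ed → H.E := fun e => match e with
    | Sum.inl (c, e) => yi (c.1, e)
    | Sum.inr d => y (bs d.1)
  let gg : Ve (B.C × Fin 6) (B.N × Fin 6) → H.V := fun v => match v with
    | Sum.inl (c, x) => g (Sum.inl (c.1, x))
    | Sum.inr v => g (Sum.inr v.1)
  have hybs : ∀ D : Da (B.C × Fin 6) (B.N × Fin 6), y (bs (B.tinv D)) = y (bs D) := by
    intro D
    unfold tinv
    split_ifs with h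
    · rw [bs_lift]
    · rw [bs_lift, hopp]
  have hfed : ∀ D : Da (B.C × Fin 6) (B.N × Fin 6), f (B.thick.ed D) = y (bs D) := by
    intro D
    unfold DG.ed
    split_ifs with h
    · rfl
    · exact hybs D
  have hggdv : ∀ D : Da (B.C × Fin 6) (B.N × Fin 6), gg (dv D) = g (dv (bs D)) := by
    rintro (⟨⟨c, i⟩, s⟩ | ⟨⟨v, i⟩, j⟩) <;> rfl
  have hincD : ∀ D : Da (B.C × Fin 6) (B.N × Fin 6), H.Inc (gg (dv D)) (f (B.thick.ed D)) := by
    intro D
    rw [hfed, hggdv]
    exact hinc2 _
  refine ⟨f, cc_of_star B.thick.cubic hH f gg ?_ ?_⟩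
  · rintro (⟨⟨c, i⟩, x⟩ | v) (⟨⟨c', i'⟩, e⟩ | d) h
    · have h' := (B.thick.inc_inl_inl (c, i) (c', i') x e).1 h
      obtain ⟨h3, h4⟩ := h'
      have h5 := congrArg Prod.fst h3
      simp only at h5
      subst h5
      exact hinc1 c x e h4
    · obtain ⟨D, hD, hDe⟩ := B.thick.exists_ed d _ h
      have := hincD D
      have e1 : gg (dv D) = gg (Sum.inl ((c, i), x)) := congrArg gg hD
      rw [e1] at this
      have e2 : f (B.thick.ed D) = f (Sum.inr d) := congrArg f hDe
      rw [e2] at this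
      exact this
    · exact absurd h (B.thick.inc_inr_inl v ((c', i'), e))
    · obtain ⟨D, hD, hDe⟩ := B.thick.exists_ed d _ h
      have := hincD D
      have e1 : gg (dv D) = gg (Sum.inr v) := congrArg gg hD
      rw [e1] at this
      have e2 : f (B.thick.ed D) = f (Sum.inr d) := congrArg f hDe
      rw [e2] at this
      exact this
  · rintro (⟨⟨c, i⟩, x⟩ | ⟨v, i⟩) (⟨⟨c', i'⟩, e⟩ | d) (⟨⟨c'', i''⟩, e'⟩ | d') h h' hf
    · obtain ⟨h3, h4⟩ := (B.thick.inc_inl_inl (c, i) (c', i') x e).1 h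
      obtain ⟨h5, h6⟩ := (B.thick.inc_inl_inl (c, i) (c'', i'') x e').1 h'
      have h7 := congrArg Prod.fst h3
      have h8 := congrArg Prod.fst h5
      have h9 := congrArg Prod.snd h3
      have h10 := congrArg Prod.snd h5
      simp only at h7 h8 h9 h10
      subst h7 h8 h9 h10
      have := hinj1 c x e e' h4 h6 hf
      rw [this]
    · exfalso
      obtain ⟨h3, h4⟩ := (B.thick.inc_inl_inl (c, i) (c', i') x e).1 h
      obtain ⟨h5, h6⟩ := (B.thick.inc_inl_inr (c, i) x d').1 h'
      have h7 := congrArg Prod.fst h3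
      simp only at h7
      subst h7
      have e2 : f (Sum.inr d') = y (bs (Sum.inl ((c, i), x.1))) := (congrArg f h6).trans (hfed _)
      exact hinj2 c x.1 e (hf.trans e2)
    · exfalso
      obtain ⟨h3, h4⟩ := (B.thick.inc_inl_inl (c, i) (c'', i'') x e').1 h'
      obtain ⟨h5, h6⟩ := (B.thick.inc_inl_inr (c, i) x d).1 h
      have h7 := congrArg Prod.fst h3
      simp only at h7
      subst h7
      have e2 : f (Sum.inr d) = y (bs (Sum.inl ((c, i), x.1))) := (congrArg f h6).trans (hfed _)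
      exact hinj2 c x.1 e' (hf.symm.trans e2)
    · obtain ⟨h5, h6⟩ := (B.thick.inc_inl_inr (c, i) x d).1 h
      obtain ⟨h7, h8⟩ := (B.thick.inc_inl_inr (c, i) x d').1 h'
      exact h6.trans h8.symm
    · exact absurd h (B.thick.inc_inr_inl (v, i) ((c', i'), e))
    · exact absurd h (B.thick.inc_inr_inl (v, i) ((c', i'), e))
    · exact absurd h' (B.thick.inc_inr_inl (v, i) ((c'', i''), e'))
    · obtain ⟨j, hj⟩ := (B.thick.inc_inr_inr (v, i) d).1 h
      obtain ⟨k, hk⟩ := (B.thick.inc_inr_inr (v, i) d').1 h'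
      have e1 : f (Sum.inr d) = y (Sum.inr (v, j)) := (congrArg f hj).trans (hfed _)
      have e2 : f (Sum.inr d') = y (Sum.inr (v, k)) := (congrArg f hk).trans (hfed _)
      have := hinj3 v j k (e1.symm.trans (hf.trans e2))
      subst this
      exact hj.trans hk.symm

end BG

end Pool.Agent.W831.CP
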