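import Mathlib
import Pool.Agent.W831.CP.Walk

/-!
Existence of cycle-continuous maps between the graphs of `A` and `B`.
-/

open Finset

namespace Pool.Agent.W831.CP

open Pool.Agent.Results.MP_75ff39_co.InfiniteAntichain
open MultiGraph

variable {A B : Finset ℕ}

/-- edges of the first copy -/
noncomputable def eB (d : Da (CB B) (NB B)) : (gr B).E :=
  (base B).thick.ed (lift (C := CB B) (N := NB B) 0 d)

def vB (v : Ve (CB B) (NB B)) : (gr B).V := lv (C := CB B) (N := NB B) 0 v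

def iB (c : CB B) (e : CE) : (gr B).E := Sum.inl ((c, 0), e)

lemma gr_cubic (B : Finset ℕ) : (gr B).Cubic := (base B).thick.cubic

lemma eB_opp (d : Da (CB B) (NB B)) : eB (bopp d) = eB d := by
  by_cases h : bopp d = d
  · rw [h]
  · unfold eB
    have e := (base B).tinv_lift_ne d 0 h
    have e2 := (base B).thick.ed_inv (lift (C := CB B) (N := NB B) 0 d)
    exact (congrArg (base B).thick.ed e.symm).trans e2

lemma inc_eB (d : Da (CB B) (NB B)) : (gr B).Inc (vB (dv d)) (eB d) := by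
  have h := (base B).thick.inc_ed_self (lift (C := CB B) (N := NB B) 0 d)
  have e : dv (lift (C := CB B) (N := NB B) 0 d) = lv 0 (dv d) := dv_lift d 0
  exact (congrArg (fun v : Ve (CB B × Fin 6) (NB B × Fin 6) => (gr B).Inc v (eB d)) e).mp h

lemma eB_slot (v : NB B) (j k : Fin 3) (h : eB (Sum.inr (v, j)) = eB (Sum.inr (v, k))) : j = k :=
  (base B).thick.ed_slot_inj (v, 0) j k h

lemma iB_ne (c : CB B) (e : CE) (d : Da (CB B) (NB B)) : iB c e ≠ eB d := fun h =>
  (base B).thick.ed_ne_inl (lift (C := CB B) (N := NB B) 0 d) ((c, 0), e) h.symm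

lemma inc_iB (c : CB B) (x : CV) (e : CE) (h : CInc x e) :
    (gr B).Inc (vB (Sum.inl (c, x))) (iB c e) :=
  ((base B).thick.inc_inl_inl (c, 0) (c, 0) x e).2 ⟨rfl, h⟩

lemma adj_slots (v : NB B) (j k : Fin 3) (h : j ≠ k) :
    EAdj (gr B) (eB (Sum.inr (v, j))) (eB (Sum.inr (v, k))) :=
  ⟨fun h' => h (eB_slot v j k h'), vB (Sum.inr v), inc_eB (Sum.inr (v, j)),
    inc_eB (Sum.inr (v, k))⟩

/-- edges of the spine -/
noncomputable def sB (B : Finset ℕ) (k : ℕ) : (gr B).E :=
  eB (Sum.inr (sp ((k : ℕ) : ZMod (LL B)), 1))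

lemma sB_succ (k : ℕ) : sB B k = eB (Sum.inr (sp (((k + 1 : ℕ)) : ZMod (LL B)), 0)) := by
  unfold sB
  rw [← eB_opp, bopp_s1]
  push_cast
  rfl

lemma adj_spine (k : ℕ) : EAdj (gr B) (sB B k) (sB B (k + 1)) := by
  rw [sB_succ]
  exact adj_slots _ 0 1 (by decide)

lemma walk_spine (j n : ℕ) : Wk (gr B) n (sB B j) (sB B (j + n)) :=
  Wk.of_fun (sB B) j n (fun k _ => adj_spine (j + k))

/-- the edge at which the arm of `b` is attached to the ring -/
noncomputable def tB (b : B) : (gr B).E := eB (Sum.inr (un b (0, false), 2))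

lemma walk_arm (b : B) : Wk (gr B) (ln b.1) (eB (Sum.inr (sp (b.1 : ZMod (LL B)), 2))) (tB b) := by
  refine ⟨fun k => if h : k < ln b.1 then eB (Sum.inr (ar b ⟨k, h⟩, 0)) else tB b, ?_, ?_, ?_⟩
  · have h0 : 0 < ln b.1 := by unfold ln; omega
    simp only [h0, dif_pos]
    rw [← eB_opp, bopp_a0]
    rfl
  · simp
  · intro k hk
    have h1 : (if h : k + 1 < ln b.1 then eB (Sum.inr (ar b ⟨k + 1, h⟩, 0)) else tB b) =
        eB (Sum.inr (ar b ⟨k, hk⟩, 1)) := by
      rw [← eB_opp (Sum.inr (ar b ⟨k, hk⟩, 1)), bopp_a1]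
      by_cases h : k + 1 < ln b.1
      · rw [dif_pos h, dif_pos h]
      · rw [dif_neg h, dif_neg h]
        rfl
    simp only
    rw [h1, dif_pos hk]
    exact adj_slots _ 0 1 (by decide)

lemma walk_to (b : B) (hb : 1 ≤ b.1) : Wk (gr B) (b.1 + ln b.1) (sB B 0) (tB b) := by
  have h1 := walk_spine (B := B) 0 (b.1 - 1)
  rw [zero_add] at h1
  have h2 : EAdj (gr B) (sB B (b.1 - 1)) (eB (Sum.inr (sp (b.1 : ZMod (LL B)), 2))) := by
    rw [sB_succ, show b.1 - 1 + 1 = b.1 by omega]
    exact adj_slots _ 0 2 (by decide)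
  have h3 := (h1.trans (Wk.one h2)).trans (walk_arm b)
  rw [show b.1 - 1 + 1 + ln b.1 = b.1 + ln b.1 by omega] at h3
  exact h3

lemma dvd_bound {a b : ℕ} (h : sz b ∣ sz a) (hne : b ≠ a) : 2 * (b + 1) ≤ a + 1 := by
  unfold sz at h
  have h1 : b + 1 ∣ a + 1 := Nat.dvd_of_mul_dvd_mul_left (by norm_num) h
  obtain ⟨c, hc⟩ := h1
  have hc0 : c ≠ 0 := by rintro rfl; omega
  have hc1 : c ≠ 1 := by rintro rfl; omega
  have : 2 ≤ c := by omega
  nlinarith

/-- reduction of ring positions -/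
def red {n m : ℕ} (h : m ∣ n) (c : ZMod n × Bool) : ZMod m × Bool :=
  (ZMod.castHom h (ZMod m) c.1, c.2)

lemma red_nb {n m : ℕ} (h : m ∣ n) (c : ZMod n × Bool) (s : Fin 7) :
    red h (nb c s) = nb (red h c) s := by
  obtain ⟨k, b⟩ := c
  unfold red
  cases b
  · simp only [nb]
    by_cases hs : s < 4
    · rw [if_pos hs, if_pos hs]
    · rw [if_neg hs, if_neg hs, map_sub, map_one]
  · simp only [nb]
    by_cases hs : s < 4
    · rw [if_pos hs, if_pos hs]
    · rw [if_neg hs, if_neg hs, map_add, map_one]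

lemma red_zero {n m : ℕ} (h : m ∣ n) : red h ((0, false) : ZMod n × Bool) = (0, false) := by
  unfold red
  simp

lemma val_sub_one {L : ℕ} [NeZero L] (t : ZMod L) (h : t.val ≠ 0) : (t - 1).val = t.val - 1 := by
  have h1 : t = ((t.val - 1 : ℕ) : ZMod L) + 1 := by
    rw [Nat.cast_sub (by omega)]
    simp
  have h2 : t - 1 = ((t.val - 1 : ℕ) : ZMod L) := by
    rw [sub_eq_iff_eq_add]; exact h1
  rw [h2]
  exact ZMod.val_natCast_of_lt (by have := t.val_lt; omega)

lemma val_neg_one' {L : ℕ} [NeZero L] : ((0 : ZMod L) - 1).val = L - 1 := by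
  have hL : 0 < L := NeZero.pos L
  have h2 : (0 : ZMod L) - 1 = ((L - 1 : ℕ) : ZMod L) := by
    rw [Nat.cast_sub (by omega)]
    simp
  rw [h2]
  exact ZMod.val_natCast_of_lt (by omega)

theorem le_of_dvd (hA : ∀ a ∈ A, 1 ≤ a) (hB : ∀ b ∈ B, 1 ≤ b)
    (h : ∀ a ∈ A, ∃ b ∈ B, sz b ∣ sz a) : (gr A).Le (gr B) := by
  classical
  -- the choice of the rings
  have hρ : ∀ a : A, ∃ b : B, sz b.1 ∣ sz a.1 ∧ (a.1 ∈ B → b.1 = a.1) := by
    intro a
    by_cases haB : a.1 ∈ B
    · exact ⟨⟨a.1, haB⟩, dvd_rfl, fun _ => rfl⟩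
    · obtain ⟨b, hb, hd⟩ := h a.1 a.2
      exact ⟨⟨b, hb⟩, hd, fun h' => absurd h' haB⟩
  choose ρ hρd hρe using hρ
  -- the spine
  set m : ℕ := min ((∑ a ∈ A, a) + 1) ((∑ b ∈ B, b) + 1) with hm
  have hm1 : 1 ≤ m := by omega
  have hmL : 10 * m ≤ LL A := by unfold LL; omega
  have hw0 : Wk (gr B) (LL A - m + 1) (sB B (m - 1)) (sB B 0) := by
    have h1 := (walk_spine (B := B) 0 (m - 1)).symm
    rw [zero_add] at h1
    exact h1.pad (gr_cubic B) (by omega)
  obtain ⟨w, hwa, hwb, hwc⟩ := hw0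
  set Z : ℕ → (gr B).E := fun k => if k < m then sB B k else w (k - (m - 1)) with hZ
  have hZlt : ∀ k, k < m → Z k = sB B k := fun k hk => by simp only [hZ]; rw [if_pos hk]
  have hZw : ∀ k, m - 1 ≤ k → Z k = w (k - (m - 1)) := by
    intro k hk
    simp only [hZ]
    by_cases h1 : k < m
    · rw [if_pos h1]
      have : k = m - 1 := by omega
      rw [this, Nat.sub_self, hwa]
    · rw [if_neg h1]
  have hZadj : ∀ k, k + 1 < LL A → EAdj (gr B) (Z k) (Z (k + 1)) := by
    intro k hk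
    by_cases h1 : k + 1 < m
    · rw [hZlt k (by omega), hZlt _ h1]
      exact adj_spine k
    · rw [hZw k (by omega), hZw (k + 1) (by omega), show k + 1 - (m - 1) = k - (m - 1) + 1 by omega]
      exact hwc _ (by omega)
  have hZlast : EAdj (gr B) (Z (LL A - 1)) (Z 0) := by
    have e1 : Z 0 = w (LL A - 1 - (m - 1) + 1) := by
      rw [hZlt 0 (by omega), ← hwb]
      congr 1
      omega
    rw [e1, hZw _ (by omega)]
    exact hwc _ (by omega)
  set z : ZMod (LL A) → (gr B).E := fun t => Z t.val with hz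
  have hzadj : ∀ t, EAdj (gr B) (z (t - 1)) (z t) := by
    intro t
    simp only [hz]
    by_cases h0 : t.val = 0
    · have : t = 0 := (ZMod.val_eq_zero t).1 h0
      rw [this, val_neg_one', ZMod.val_zero]
      exact hZlast
    · rw [val_sub_one t h0]
      have h1 := hZadj (t.val - 1) (by have := t.val_lt; omega)
      rw [show t.val - 1 + 1 = t.val by omega] at h1
      exact h1
  -- third edges
  have hthird : ∀ e e' : (gr B).E, ∃ (x : (gr B).V) (t : (gr B).E), EAdj (gr B) e e' →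
      (gr B).Inc x e ∧ (gr B).Inc x e' ∧ (gr B).Inc x t ∧ t ≠ e ∧ t ≠ e' := by
    intro e e'
    by_cases hadj : EAdj (gr B) e e'
    · obtain ⟨_, x, hx, hx'⟩ := hadj
      obtain ⟨t, h1, h2, h3⟩ := exists_third (gr_cubic B) x e e' hx hx'
      exact ⟨x, t, fun _ => ⟨hx, hx', h1, h2, h3⟩⟩
    · exact ⟨(gr B).src e, e, fun h' => absurd h' hadj⟩
  choose vx th hth using hthird
  set Xs : ZMod (LL A) → (gr B).V := fun t =>
    if 1 ≤ t.val ∧ t.val < m then vB (Sum.inr (sp ((t.val : ℕ) : ZMod (LL B))))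
    else vx (z (t - 1)) (z t) with hXs
  set q : ZMod (LL A) → (gr B).E := fun t =>
    if 1 ≤ t.val ∧ t.val < m then eB (Sum.inr (sp ((t.val : ℕ) : ZMod (LL B)), 2))
    else th (z (t - 1)) (z t) with hq
  have hnode : ∀ t, (gr B).Inc (Xs t) (z (t - 1)) ∧ (gr B).Inc (Xs t) (z t) ∧
      (gr B).Inc (Xs t) (q t) ∧ q t ≠ z (t - 1) ∧ q t ≠ z t := by
    intro t
    by_cases ht : 1 ≤ t.val ∧ t.val < m
    · have e1 : Xs t = vB (Sum.inr (sp ((t.val : ℕ) : ZMod (LL B)))) := by
        simp only [hXs]; rw [if_pos ht]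
      have e2 : q t = eB (Sum.inr (sp ((t.val : ℕ) : ZMod (LL B)), 2)) := by
        simp only [hq]; rw [if_pos ht]
      have e3 : z t = eB (Sum.inr (sp ((t.val : ℕ) : ZMod (LL B)), 1)) := by
        simp only [hz]; rw [hZlt _ ht.2]; rfl
      have e4 : z (t - 1) = eB (Sum.inr (sp ((t.val : ℕ) : ZMod (LL B)), 0)) := by
        simp only [hz]
        rw [val_sub_one t (by omega), hZlt _ (by omega), sB_succ,
          show t.val - 1 + 1 = t.val by omega]
      rw [e1, e2, e3, e4]
      refine ⟨inc_eB (Sum.inr (sp ((t.val : ℕ) : ZMod (LL B)), 0)),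
        inc_eB (Sum.inr (sp ((t.val : ℕ) : ZMod (LL B)), 1)),
        inc_eB (Sum.inr (sp ((t.val : ℕ) : ZMod (LL B)), 2)), ?_, ?_⟩
      · intro h'; exact absurd (eB_slot _ _ _ h') (by decide)
      · intro h'; exact absurd (eB_slot _ _ _ h') (by decide)
    · have e1 : Xs t = vx (z (t - 1)) (z t) := by
        simp only [hXs]; rw [if_neg ht]
      have e2 : q t = th (z (t - 1)) (z t) := by
        simp only [hq]; rw [if_neg ht]
      rw [e1, e2]
      exact hth _ _ (hzadj t)
  -- the arms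
  have harm : ∀ a : A, Wk (gr B) (ln a.1) (q (a.1 : ZMod (LL A))) (tB (ρ a)) := by
    intro a
    have hv : ((a.1 : ℕ) : ZMod (LL A)).val = a.1 := val_cast a
    have ha1 := hA a.1 a.2
    by_cases haB : a.1 ∈ B
    · have e1 : (ρ a).1 = a.1 := hρe a haB
      have h1 : a.1 ≤ ∑ a ∈ A, a := le_sum a.2
      have h2 : a.1 ≤ ∑ b ∈ B, b := le_sum haB
      have e2 : q (a.1 : ZMod (LL A)) = eB (Sum.inr (sp ((a.1 : ℕ) : ZMod (LL B)), 2)) := by
        simp only [hq]
        rw [hv, if_pos ⟨ha1, by omega⟩]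
      rw [e2, ← e1]
      exact walk_arm (ρ a)
    · have hne : (ρ a).1 ≠ a.1 := fun h' => haB (h' ▸ (ρ a).2)
      have hbd := dvd_bound (hρd a) hne
      have h1 := hnode (a.1 : ZMod (LL A))
      have h2 : EAdj (gr B) (q (a.1 : ZMod (LL A))) (z (a.1 : ZMod (LL A))) :=
        ⟨h1.2.2.2.2, _, h1.2.2.1, h1.2.1⟩
      have h3 : z (a.1 : ZMod (LL A)) = Z a.1 := by simp only [hz]; rw [hv]
      have haL : a.1 < LL A := lt_LL a.2
      have h4 : Wk (gr B) a.1 (Z 0) (Z (0 + a.1)) := by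
        apply Wk.of_fun
        intro k hk
        rw [zero_add]
        exact hZadj k (by omega)
      rw [zero_add, hZlt 0 (by omega)] at h4
      rw [h3] at h2
      have h5 := ((Wk.one h2).trans h4.symm).trans (walk_to (ρ a) (hB _ (ρ a).2))
      apply h5.pad (gr_cubic B)
      unfold ln
      omega
  choose wa hwa0 hwa1 hwa2 using harm
  -- the map
  let yy : Da (CB A) (NB A) → (gr B).E := fun d => match d with
      | Sum.inl (⟨a, c⟩, s) => eB (Sum.inl (⟨ρ a, red (hρd a) c⟩, s))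
      | Sum.inr (Sum.inl ⟨a, c⟩, j) => eB (Sum.inr (un (ρ a) (red (hρd a) c), j))
      | Sum.inr (Sum.inr (Sum.inl t), j) =>
          if j = 0 then z (t - 1) else if j = 1 then z t else q t
      | Sum.inr (Sum.inr (Sum.inr ⟨a, s⟩), j) =>
          if j = 0 then wa a s.val else if j = 1 then wa a (s.val + 1)
          else th (wa a s.val) (wa a (s.val + 1))
  have hopp : ∀ d : Da (CB A) (NB A), yy (bopp d) = yy d := by
    intro d
    rcases d with ⟨⟨a, c⟩, s⟩ | ⟨⟨a, c⟩ | t | ⟨a, s⟩, j⟩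
    · have e0 : yy (Sum.inl (⟨a, c⟩, s)) = eB (bopp (Sum.inl (⟨ρ a, red (hρd a) c⟩, s))) :=
        (eB_opp _).symm
      rw [e0]
      by_cases hs : s = 3
      · refine (congrArg yy ((bopp_core a c s).trans (if_pos hs))).trans ?_
        refine Eq.trans ?_ (congrArg eB ((bopp_core (ρ a) (red (hρd a) c) s).trans
          (if_pos hs)).symm)
        rfl
      · refine (congrArg yy ((bopp_core a c s).trans (if_neg hs))).trans ?_
        refine Eq.trans ?_ (congrArg eB ((bopp_core (ρ a) (red (hρd a) c) s).trans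
          (if_neg hs)).symm)
        rw [← red_nb]
    · rcases fin3 j with rfl | rfl | rfl
      · exact eB_opp (Sum.inr (un (ρ a) (red (hρd a) c), 0))
      · exact eB_opp (Sum.inr (un (ρ a) (red (hρd a) c), 1))
      · by_cases hc : c = (0, false)
        · refine (congrArg yy ((bopp_u2 a c).trans (if_pos hc))).trans ?_
          show wa a ((al a).val + 1) = eB (Sum.inr (un (ρ a) (red (hρd a) c), 2))
          rw [hc, red_zero]
          refine Eq.trans ?_ (hwa1 a)
          congr 1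
        · exact congrArg yy ((bopp_u2 a c).trans (if_neg hc))
    · rcases fin3 j with rfl | rfl | rfl
      · rfl
      · show z (t + 1 - 1) = z t
        rw [add_sub_cancel_right]
      · by_cases ht : t.val ∈ A
        · refine (congrArg yy ((bopp_s2 t).trans (dif_pos ht))).trans ?_
          show wa ⟨t.val, ht⟩ 0 = q t
          rw [hwa0]
          show q ((t.val : ℕ) : ZMod (LL A)) = q t
          rw [ZMod.natCast_zmod_val]
        · exact congrArg yy ((bopp_s2 t).trans (dif_neg ht))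
    · rcases fin3 j with rfl | rfl | rfl
      · by_cases hs : s.val = 0
        · refine (congrArg yy ((bopp_a0 a s).trans (if_pos hs))).trans ?_
          show q (a.1 : ZMod (LL A)) = wa a s.val
          rw [hs, hwa0]
        · refine (congrArg yy ((bopp_a0 a s).trans (if_neg hs))).trans ?_
          show wa a (s.val - 1 + 1) = wa a s.val
          rw [show s.val - 1 + 1 = s.val by omega]
      · by_cases hs : s.val + 1 < ln a.1
        · exact congrArg yy ((bopp_a1 a s).trans (dif_pos hs))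
        · refine (congrArg yy ((bopp_a1 a s).trans (dif_neg hs))).trans ?_
          show eB (Sum.inr (un (ρ a) (red (hρd a) (0, false)), 2)) = wa a (s.val + 1)
          rw [red_zero, show s.val + 1 = ln a.1 by have := s.2; omega, hwa1]
          rfl
      · rfl
  refine BG.le_of_base (base A) (gr B) (gr_cubic B)
    (fun v : Ve (CB A) (NB A) => match v with
      | Sum.inl (⟨a, c⟩, x) => vB (Sum.inl (⟨ρ a, red (hρd a) c⟩, x))
      | Sum.inr (Sum.inl ⟨a, c⟩) => vB (Sum.inr (un (ρ a) (red (hρd a) c)))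
      | Sum.inr (Sum.inr (Sum.inl t)) => Xs t
      | Sum.inr (Sum.inr (Sum.inr ⟨a, s⟩)) => vx (wa a s.val) (wa a (s.val + 1)))
    yy (fun x : CB A × CE => iB ⟨ρ x.1.1, red (hρd x.1.1) x.1.2⟩ x.2) hopp ?_ ?_ ?_ ?_ ?_
  · -- internal incidences
    rintro ⟨a, c⟩ x e hx
    exact inc_iB _ x e hx
  · -- incidences of darts
    intro d
    rcases d with ⟨⟨a, c⟩, s⟩ | ⟨⟨a, c⟩ | t | ⟨a, s⟩, j⟩
    · exact inc_eB (Sum.inl (⟨ρ a, red (hρd a) c⟩, s))
    · exact inc_eB (Sum.inr (un (ρ a) (red (hρd a) c), j))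
    · rcases fin3 j with rfl | rfl | rfl
      · exact (hnode t).1
      · exact (hnode t).2.1
      · exact (hnode t).2.2.1
    · have h1 := hth _ _ (hwa2 a s.val s.2)
      rcases fin3 j with rfl | rfl | rfl
      · exact h1.1
      · exact h1.2.1
      · exact h1.2.2.1
  · -- injectivity on internal edges
    rintro ⟨a, c⟩ x e e' _ _ h'
    have h'' : (Sum.inl ((⟨ρ a, red (hρd a) c⟩, 0), e) : (base B).thick.Ed) =
      Sum.inl ((⟨ρ a, red (hρd a) c⟩, 0), e') := h'
    have h3 := Sum.inl.inj h''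
    exact (Prod.mk.inj h3).2
  · rintro ⟨a, c⟩ s e h'
    exact iB_ne _ _ _ h'
  · rintro (⟨a, c⟩ | t | ⟨a, s⟩) j k h'
    · exact eB_slot _ _ _ h'
    · have h1 := hnode t
      have h2 := (hzadj t).1
      rcases fin3 j with rfl | rfl | rfl <;> rcases fin3 k with rfl | rfl | rfl
      · rfl
      · exact absurd h' h2
      · exact absurd h'.symm h1.2.2.2.1
      · exact absurd h'.symm h2
      · rfl
      · exact absurd h'.symm h1.2.2.2.2
      · exact absurd h' h1.2.2.2.1
      · exact absurd h' h1.2.2.2.2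
      · rfl
    · have h1 := hth _ _ (hwa2 a s.val s.2)
      have h2 := (hwa2 a s.val s.2).1
      rcases fin3 j with rfl | rfl | rfl <;> rcases fin3 k with rfl | rfl | rfl
      · rfl
      · exact absurd h' h2
      · exact absurd h'.symm h1.2.2.2.1
      · exact absurd h'.symm h2
      · rfl
      · exact absurd h'.symm h1.2.2.2.2
      · exact absurd h' h1.2.2.2.1
      · exact absurd h' h1.2.2.2.2
      · rfl

end Pool.Agent.W831.CP
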