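import Mathlib
import Pool.Agent.W831.CP.Maps

/-!
Finite sets of ring sizes with domination by divisibility contain every countable poset.
-/

open Finset

namespace Pool.Agent.W831.CP

section Order

variable {P : Type*} [PartialOrder P]

open Classical in
/-- indices of the elements above `x` with a smaller index -/
noncomputable def DD (c : P → ℕ) (x : P) : Finset ℕ :=
  (Finset.range (c x + 1)).filter (fun n => ∃ y, c y = n ∧ x ≤ y)

/-- product of the corresponding primes -/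
noncomputable def PP (c : P → ℕ) (x : P) : ℕ := ∏ n ∈ DD c x, Nat.nth Nat.Prime n

lemma prime_nth (n : ℕ) : (Nat.nth Nat.Prime n).Prime :=
  Nat.nth_mem_of_infinite Nat.infinite_setOfPred_prime n

lemma mem_DD (c : P → ℕ) (x : P) (n : ℕ) :
    n ∈ DD c x ↔ n ≤ c x ∧ ∃ y, c y = n ∧ x ≤ y := by
  classical
  unfold DD
  simp only [Finset.mem_filter, Finset.mem_range, Nat.lt_succ_iff]

lemma self_mem_DD (c : P → ℕ) (x : P) : c x ∈ DD c x := (mem_DD c x _).2 ⟨le_rfl, x, rfl, le_rfl⟩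

lemma nth_dvd_PP (c : P → ℕ) (x : P) : Nat.nth Nat.Prime (c x) ∣ PP c x :=
  Finset.dvd_prod_of_mem _ (self_mem_DD c x)

lemma PP_pos (c : P → ℕ) (x : P) : 0 < PP c x := by
  unfold PP
  exact Finset.prod_pos (fun n _ => (prime_nth n).pos)

lemma two_le_PP (c : P → ℕ) (x : P) : 2 ≤ PP c x :=
  le_trans (prime_nth (c x)).two_le (Nat.le_of_dvd (PP_pos c x) (nth_dvd_PP c x))

lemma PP_dvd (c : P → ℕ) (hc : Function.Injective c) (x y : P) :
    PP c y ∣ PP c x ↔ x ≤ y ∧ c y ≤ c x := by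
  constructor
  · intro h
    have h1 := (nth_dvd_PP c y).trans h
    unfold PP at h1
    rw [(prime_nth (c y)).prime.dvd_finsetProd_iff] at h1
    obtain ⟨n, hn, hd⟩ := h1
    have h2 := (Nat.prime_dvd_prime_iff_eq (prime_nth _) (prime_nth _)).1 hd
    have h3 := Nat.nth_injective Nat.infinite_setOfPred_prime h2
    rw [mem_DD] at hn
    obtain ⟨h4, y', h5, h6⟩ := hn
    have h7 : y' = y := hc (h5.trans h3.symm)
    rw [h7] at h6
    exact ⟨h6, by rw [h3]; exact h4⟩
  · rintro ⟨h1, h2⟩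
    apply Finset.prod_dvd_prod_of_subset
    intro n hn
    rw [mem_DD] at hn ⊢
    obtain ⟨h3, z, h4, h5⟩ := hn
    exact ⟨h3.trans h2, z, h4, h1.trans h5⟩

/-- the number coding `x` -/
noncomputable def EE (c : P → ℕ) (x : P) : ℕ := PP c x - 1

lemma EE_pos (c : P → ℕ) (x : P) : 1 ≤ EE c x := by
  have := two_le_PP c x
  unfold EE
  omega

lemma sz_EE (c : P → ℕ) (hc : Function.Injective c) (x y : P) :
    sz (EE c y) ∣ sz (EE c x) ↔ x ≤ y ∧ c y ≤ c x := by
  rw [← PP_dvd c hc]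
  have hx := two_le_PP c x
  have hy := two_le_PP c y
  unfold sz EE
  rw [show PP c x - 1 + 1 = PP c x by omega, show PP c y - 1 + 1 = PP c y by omega]
  exact Nat.mul_dvd_mul_iff_left (by norm_num)

lemma fin_below (c : P → ℕ) (hc : Function.Injective c) (x : P) :
    {w : P | w ≤ x ∧ c w ≤ c x}.Finite := by
  apply Set.Finite.subset (s := c ⁻¹' (Set.Iic (c x)))
  · exact Set.Finite.preimage hc.injOn (Set.finite_Iic _)
  · intro w hw
    exact hw.2

theorem order_rep [Countable P] : ∃ U : P → Finset ℕ, (∀ p, ∀ e ∈ U p, 1 ≤ e) ∧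
    ∀ p q, (∀ a ∈ U p, ∃ b ∈ U q, sz b ∣ sz a) ↔ p ≤ q := by
  classical
  obtain ⟨c, hc⟩ := exists_injective_nat P
  refine ⟨fun x => (fin_below c hc x).toFinset.image (EE c), ?_, ?_⟩
  · intro p e he
    rw [Finset.mem_image] at he
    obtain ⟨w, _, rfl⟩ := he
    exact EE_pos c w
  · have hmem : ∀ x e, e ∈ (fin_below c hc x).toFinset.image (EE c) ↔
        ∃ w, (w ≤ x ∧ c w ≤ c x) ∧ EE c w = e := by
      intro x e
      rw [Finset.mem_image]
      constructor
      · rintro ⟨w, hw, h⟩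
        rw [Set.Finite.mem_toFinset] at hw
        exact ⟨w, hw, h⟩
      · rintro ⟨w, hw, h⟩
        exact ⟨w, by rw [Set.Finite.mem_toFinset]; exact hw, h⟩
    intro x y
    constructor
    · intro h
      obtain ⟨b, hb, hd⟩ := h (EE c x) ((hmem x _).2 ⟨x, ⟨le_rfl, le_rfl⟩, rfl⟩)
      obtain ⟨w, hw, rfl⟩ := (hmem y b).1 hb
      rw [sz_EE c hc] at hd
      exact hd.1.trans hw.1
    · intro hxy a ha
      obtain ⟨w, hw, rfl⟩ := (hmem x a).1 ha
      by_cases h1 : c w ≤ c y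
      · exact ⟨EE c w, (hmem y _).2 ⟨w, ⟨hw.1.trans hxy, h1⟩, rfl⟩, dvd_rfl⟩
      · refine ⟨EE c y, (hmem y _).2 ⟨y, ⟨le_rfl, le_rfl⟩, rfl⟩, ?_⟩
        rw [sz_EE c hc]
        exact ⟨hw.1.trans hxy, by omega⟩

end Order

end Pool.Agent.W831.CP
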